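import Mathlib

set_option autoImplicit false

namespace FD120

theorem Div_local_small (ε : ℝ) (hε : 0 < ε) (p a : ℕ) (hp : 2 ≤ p) :
    ((a : ℝ) + 1) ≤ max 1 (1 / (ε * Real.log 2)) * ((p : ℝ) ^ a) ^ ε := by
  have hlog : 0 < Real.log 2 := Real.log_pos one_lt_two
  have hel : 0 < ε * Real.log 2 := mul_pos hε hlog
  have h1 : (1 : ℝ) + a * (ε * Real.log 2) ≤ ((p : ℝ) ^ a) ^ ε := by
    have h2 : ((2 : ℝ) ^ a) ^ ε ≤ ((p : ℝ) ^ a) ^ ε := by
      refine Real.rpow_le_rpow (by positivity) ?_ hε.le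
      exact pow_le_pow_left₀ (by norm_num) (by exact_mod_cast hp) a
    refine le_trans ?_ h2
    have h3 : ((2 : ℝ) ^ a) ^ ε = Real.exp (a * (ε * Real.log 2)) := by
      rw [← Real.rpow_natCast, ← Real.rpow_mul (by norm_num), Real.rpow_def_of_pos (by norm_num)]
      congr 1
      ring
    rw [h3]
    have h4 := Real.add_one_le_exp ((a : ℝ) * (ε * Real.log 2))
    linarith
  have hC1 : (1 : ℝ) ≤ max 1 (1 / (ε * Real.log 2)) := le_max_left _ _
  have hC2 : 1 / (ε * Real.log 2) ≤ max 1 (1 / (ε * Real.log 2)) := le_max_right _ _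
  have ha : (0 : ℝ) ≤ a := Nat.cast_nonneg a
  calc (a : ℝ) + 1 = 1 + 1 / (ε * Real.log 2) * (a * (ε * Real.log 2)) := by
        field_simp
        ring
    _ ≤ max 1 (1 / (ε * Real.log 2)) * 1 +
        max 1 (1 / (ε * Real.log 2)) * (a * (ε * Real.log 2)) := by
        refine add_le_add ?_ ?_
        · rw [mul_one]
          exact hC1
        · exact mul_le_mul_of_nonneg_right hC2 (by positivity)
    _ = max 1 (1 / (ε * Real.log 2)) * (1 + a * (ε * Real.log 2)) := by ring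
    _ ≤ _ := mul_le_mul_of_nonneg_left h1 (by linarith)

theorem Div_local_large (ε : ℝ) (hε : 0 < ε) (p a : ℕ) (hp : (2 : ℝ) ^ (1 / ε) ≤ p) :
    ((a : ℝ) + 1) ≤ ((p : ℝ) ^ a) ^ ε := by
  have hp0 : (0 : ℝ) ≤ p := Nat.cast_nonneg p
  have h1 : (2 : ℝ) ≤ (p : ℝ) ^ ε := by
    have h2 : ((2 : ℝ) ^ (1 / ε)) ^ ε ≤ (p : ℝ) ^ ε :=
      Real.rpow_le_rpow (by positivity) hp hε.le
    rw [← Real.rpow_mul (by norm_num), one_div_mul_cancel hε.ne', Real.rpow_one] at h2
    exact h2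
  have h3 : ((p : ℝ) ^ a) ^ ε = ((p : ℝ) ^ ε) ^ a := by
    rw [← Real.rpow_natCast, ← Real.rpow_natCast, ← Real.rpow_mul hp0, ← Real.rpow_mul hp0,
      mul_comm]
  rw [h3]
  have h4 : (2 : ℝ) ^ a ≤ ((p : ℝ) ^ ε) ^ a := pow_le_pow_left₀ (by norm_num) h1 a
  refine le_trans ?_ h4
  have h5 : a + 1 ≤ 2 ^ a := Nat.lt_two_pow_self
  exact_mod_cast h5

/-- The divisor bound `d(n) ≤ C_ε n^ε`. -/
theorem divisor_bound (ε : ℝ) (hε : 0 < ε) :
    ∃ C : ℝ, 0 < C ∧ ∀ n : ℕ, 0 < n → (n.divisors.card : ℝ) ≤ C * (n : ℝ) ^ ε := by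
  set C0 : ℝ := max 1 (1 / (ε * Real.log 2)) with hC0
  have hC1 : 1 ≤ C0 := le_max_left _ _
  set K : ℕ := ⌈(2 : ℝ) ^ (1 / ε)⌉₊ with hK
  refine ⟨C0 ^ K, by positivity, fun n hn => ?_⟩
  have h1 : (n.divisors.card : ℝ) = ∏ p ∈ n.primeFactors, ((n.factorization p : ℝ) + 1) := by
    rw [Nat.card_divisors hn.ne']
    push_cast
    rfl
  have h2 : (n : ℝ) ^ ε = ∏ p ∈ n.primeFactors, ((p : ℝ) ^ n.factorization p) ^ ε := by
    rw [Real.finsetProd_rpow _ _ (fun p _ => by positivity)]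
    congr 1
    conv_lhs => rw [← Nat.prod_factorization_pow_eq_self hn.ne']
    rw [Finsupp.prod, Nat.support_factorization]
    push_cast
    rfl
  have h3 : ∀ p ∈ n.primeFactors, ((n.factorization p : ℝ) + 1) ≤
      (if p < K then C0 else 1) * ((p : ℝ) ^ n.factorization p) ^ ε := by
    intro p hp
    by_cases hpK : p < K
    · rw [if_pos hpK]
      exact Div_local_small ε hε p _ (Nat.prime_of_mem_primeFactors hp).two_le
    · rw [if_neg hpK, one_mul]
      refine Div_local_large ε hε p _ ?_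
      exact (Nat.le_ceil _).trans (by exact_mod_cast not_lt.1 hpK)
  have h4 : ∏ p ∈ n.primeFactors, (if p < K then C0 else 1) ≤ C0 ^ K := by
    rw [Finset.prod_ite, Finset.prod_const, Finset.prod_const_one, mul_one]
    refine pow_le_pow_right₀ hC1 ?_
    calc (n.primeFactors.filter (fun p => p < K)).card ≤ (Finset.range K).card := by
          refine Finset.card_le_card fun p hp => ?_
          rw [Finset.mem_range]
          exact (Finset.mem_filter.1 hp).2
      _ = K := Finset.card_range K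
  rw [h1, h2]
  calc ∏ p ∈ n.primeFactors, ((n.factorization p : ℝ) + 1)
      ≤ ∏ p ∈ n.primeFactors, ((if p < K then C0 else 1) *
          ((p : ℝ) ^ n.factorization p) ^ ε) :=
        Finset.prod_le_prod (fun p _ => by positivity) h3
    _ = (∏ p ∈ n.primeFactors, (if p < K then C0 else 1)) *
          ∏ p ∈ n.primeFactors, ((p : ℝ) ^ n.factorization p) ^ ε := Finset.prod_mul_distrib
    _ ≤ _ := mul_le_mul_of_nonneg_right h4 (Finset.prod_nonneg fun p _ => by positivity)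

end FD120
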