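import Pool.Agent.W_fd120a_h34.Blk

set_option autoImplicit false

open Finset Filter Topology
open scoped Classical

namespace FD120

theorem blk2_centralBinom_le (n : ℕ) (hn : 2 < n) :
    Nat.centralBinom n ≤ (2 * n) ^ Nat.sqrt (2 * n) * 4 ^ (2 * n / 3) *
      (2 * n) ^ ((Finset.Ioc n (2 * n)).filter Nat.Prime).card := by
  have n_pos : 0 < n := by omega
  have n2_pos : 1 ≤ 2 * n := by omega
  set S1 := (Finset.range (2 * n / 3 + 1)).filter Nat.Prime with hS1
  set S2 := (Finset.Ioc n (2 * n)).filter Nat.Prime with hS2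
  let f : ℕ → ℕ := fun p => p ^ (Nat.centralBinom n).factorization p
  have hdisj : Disjoint S1 S2 := by
    rw [Finset.disjoint_left]
    intro p hp1 hp2
    rw [hS1, Finset.mem_filter, Finset.mem_range] at hp1
    rw [hS2, Finset.mem_filter, Finset.mem_Ioc] at hp2
    omega
  have hprod : Nat.centralBinom n = (∏ p ∈ S1, f p) * ∏ p ∈ S2, f p := by
    rw [← Finset.prod_union hdisj]
    refine (Eq.trans ?_ n.prod_pow_factorization_centralBinom).symm
    apply Finset.prod_subset
    · intro p hp
      rw [Finset.mem_union, hS1, hS2, Finset.mem_filter, Finset.mem_filter, Finset.mem_range,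
        Finset.mem_Ioc] at hp
      rw [Finset.mem_range]
      omega
    · intro p hp hp2
      rw [Finset.mem_range] at hp
      by_cases hpp : p.Prime
      · have h1 : ¬ p < 2 * n / 3 + 1 := fun h => hp2 (by
          rw [Finset.mem_union, hS1, Finset.mem_filter, Finset.mem_range]
          exact Or.inl ⟨h, hpp⟩)
        have h2 : p ≤ n := by
          by_contra hlt
          exact hp2 (Finset.mem_union_right _ (by
            rw [hS2, Finset.mem_filter, Finset.mem_Ioc]
            exact ⟨⟨by omega, by omega⟩, hpp⟩))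
        show p ^ (Nat.centralBinom n).factorization p = 1
        rw [Nat.factorization_centralBinom_of_two_mul_self_lt_three_mul hn h2 (by omega), Nat.pow_zero]
      · show p ^ (Nat.centralBinom n).factorization p = 1
        rw [Nat.factorization_eq_zero_of_not_prime n.centralBinom hpp, Nat.pow_zero]
  rw [hprod]
  refine Nat.mul_le_mul ?_ ?_
  · rw [← Finset.prod_filter_mul_prod_filter_not S1 (· ≤ Nat.sqrt (2 * n))]
    apply Nat.mul_le_mul
    · refine (Finset.prod_le_prod' fun p _ => (?_ : f p ≤ 2 * n)).trans ?_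
      · exact Nat.pow_factorization_choose_le (by omega)
      have : (Finset.Icc 1 (Nat.sqrt (2 * n))).card = Nat.sqrt (2 * n) := by
        rw [Nat.card_Icc, Nat.add_sub_cancel]
      rw [Finset.prod_const]
      refine pow_right_mono₀ n2_pos ((Finset.card_le_card fun x hx => ?_).trans this.le)
      obtain ⟨h1, h2⟩ := Finset.mem_filter.1 hx
      exact Finset.mem_Icc.mpr ⟨(Finset.mem_filter.1 h1).2.one_lt.le, h2⟩
    · refine le_trans ?_ (primorial_le_four_pow (2 * n / 3))
      refine (Finset.prod_le_prod' fun p hp => (?_ : f p ≤ p)).trans ?_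
      · obtain ⟨h1, h2⟩ := Finset.mem_filter.1 hp
        refine (pow_right_mono₀ (Finset.mem_filter.1 h1).2.one_lt.le ?_).trans (pow_one p).le
        exact Nat.factorization_choose_le_one (Nat.sqrt_lt'.mp <| not_le.1 h2)
      refine Finset.prod_le_prod_of_subset_of_one_le' (Finset.filter_subset _ _) ?_
      exact fun p hp _ => (Finset.mem_filter.1 hp).2.one_lt.le
  · refine (Finset.prod_le_prod' fun p _ => (?_ : f p ≤ 2 * n)).trans ?_
    · exact Nat.pow_factorization_choose_le (by omega)
    · rw [Finset.prod_const]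

theorem blk2_card (n : ℕ) (hn : 2 < n) :
    ((Finset.Ioc n (2 * n)).filter Nat.Prime).card ≤ (PP (n : ℤ)).card := by
  rw [blk_card]
  refine Finset.card_le_card ?_
  intro p hp
  rw [Finset.mem_filter, Finset.mem_Ioc] at hp
  rw [Finset.mem_filter, Finset.mem_Ico]
  have hne : p ≠ 2 * n := by
    intro h
    have h4 := hp.2
    rw [h] at h4
    exact Nat.not_prime_mul (by norm_num) (by omega) h4
  exact ⟨⟨by omega, by omega⟩, hp.2⟩

/-- The dyadic block `[x, 2x)` contains at least `x ^ (1 - η)` primes (`x` large).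
Proof: as for Bertrand's postulate in Mathlib (`NumberTheory/Bertrand.lean`):
`4 ^ x < x * centralBinom x` and `centralBinom x ≤ (2x) ^ √(2x) * 4 ^ (2x/3) * (2x) ^ #{primes in (x, 2x]}`. -/
theorem prime_block2 (η : ℝ) (hη : 0 < η) :
    ∀ᶠ x : ℕ in atTop, (x : ℝ) ^ (1 - η) ≤ ((PP (x : ℤ)).card : ℝ) := by
  have has := (tendsto_natCast_atTop_atTop (R := ℝ)).eventually (blk_asym η hη)
  filter_upwards [has, eventually_ge_atTop 512] with n hn hn512
  have hn0 : (0 : ℝ) < n := by
    have : 0 < n := by omega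
    exact_mod_cast this
  have hn512' : (512 : ℝ) ≤ n := by exact_mod_cast hn512
  set k := ((Finset.Ioc n (2 * n)).filter Nat.Prime).card with hk
  have h1 : 4 ^ n < n * n.centralBinom :=
    Nat.four_pow_lt_mul_centralBinom n (le_trans (by norm_num1) hn512)
  have h2 := blk2_centralBinom_le n (by omega)
  rw [← hk] at h2
  have h3 : 4 ^ n ≤ n * ((2 * n) ^ Nat.sqrt (2 * n) * 4 ^ (2 * n / 3) * (2 * n) ^ k) :=
    h1.le.trans (Nat.mul_le_mul_left n h2)
  have h4 : ((4 : ℝ)) ^ n ≤ n * ((2 * n) ^ Nat.sqrt (2 * n) * 4 ^ (2 * n / 3) * (2 * n) ^ k) := by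
    exact_mod_cast h3
  have h5 := Real.log_le_log (by positivity) h4
  have h2n : (0 : ℝ) < 2 * n := by positivity
  rw [Real.log_pow, Real.log_mul hn0.ne' (by positivity), Real.log_mul (by positivity) (by positivity),
    Real.log_mul (by positivity) (by positivity), Real.log_pow, Real.log_pow, Real.log_pow] at h5
  -- the square root
  have hs : ((Nat.sqrt (2 * n) : ℕ) : ℝ) ≤ Real.sqrt (2 * n) := by
    have := Real.nat_sqrt_le_real_sqrt (a := 2 * n)
    exact_mod_cast this
  have hd : (((2 * n / 3 : ℕ)) : ℝ) ≤ 2 * n / 3 := by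
    have := @Nat.cast_div_le ℝ _ _ _ (2 * n) 3
    push_cast at this
    exact this
  have hlogn : 0 < Real.log n := Real.log_pos (by linarith)
  have hlog2 : 0 < Real.log 2 := Real.log_pos (by norm_num)
  have hlog4 : Real.log 4 = 2 * Real.log 2 := by
    rw [show (4 : ℝ) = 2 ^ 2 by norm_num, Real.log_pow]
    norm_num
  have hlog2n : Real.log (2 * n) ≤ 2 * Real.log n := by
    rw [Real.log_mul (by norm_num) hn0.ne']
    have : Real.log 2 ≤ Real.log n := Real.log_le_log (by norm_num) (by linarith)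
    linarith
  have hlog2n0 : 0 < Real.log (2 * n) := Real.log_pos (by linarith)
  have hsq : Real.sqrt (2 * n) = Real.sqrt 2 * Real.sqrt n := Real.sqrt_mul (by norm_num) _
  have hs2 : Real.sqrt 2 ≤ 3 / 2 := by
    rw [Real.sqrt_le_left (by norm_num)]
    norm_num
  have hs1 : 1 ≤ Real.sqrt n := by
    rw [Real.one_le_sqrt]
    linarith
  have h6 : ((Nat.sqrt (2 * n) : ℕ) : ℝ) * Real.log (2 * n) ≤ 3 * (Real.sqrt n * Real.log n) := by
    have h7 : ((Nat.sqrt (2 * n) : ℕ) : ℝ) ≤ 3 / 2 * Real.sqrt n := by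
      refine hs.trans ?_
      rw [hsq]
      exact mul_le_mul_of_nonneg_right hs2 (Real.sqrt_nonneg _)
    calc ((Nat.sqrt (2 * n) : ℕ) : ℝ) * Real.log (2 * n)
        ≤ (3 / 2 * Real.sqrt n) * (2 * Real.log n) :=
          mul_le_mul h7 hlog2n hlog2n0.le (by positivity)
      _ = 3 * (Real.sqrt n * Real.log n) := by ring
  have h8 : Real.log n ≤ Real.sqrt n * Real.log n := by
    nlinarith
  have h9 : (((2 * n / 3 : ℕ)) : ℝ) * Real.log 4 ≤ 2 * n / 3 * Real.log 4 :=
    mul_le_mul_of_nonneg_right hd (by rw [hlog4]; positivity)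
  have h10 : (k : ℝ) * Real.log (2 * n) ≤ k * (2 * Real.log n) :=
    mul_le_mul_of_nonneg_left hlog2n (Nat.cast_nonneg _)
  have h11 : 2 * ((n : ℝ) ^ (1 - η) * Real.log n) ≤ k * (2 * Real.log n) := by
    rw [hlog4] at h5 h9
    have h12 : 0 ≤ (n : ℝ) * Real.log 2 := by positivity
    linarith
  have h13 : (n : ℝ) ^ (1 - η) ≤ k := by
    have : (n : ℝ) ^ (1 - η) * (2 * Real.log n) ≤ k * (2 * Real.log n) := by linarith
    exact le_of_mul_le_mul_right this (by positivity)
  refine h13.trans ?_
  rw [hk]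
  exact_mod_cast blk2_card n (by omega)

end FD120
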