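import Mathlib

set_option autoImplicit false

open Finset
open scoped Classical

namespace FD120

theorem absD_powmean {α : Type*} (X : Finset α) (f : α → ℕ) (s : ℕ) :
    (∑ x ∈ X, f x) ^ (s + 1) ≤ X.card ^ s * ∑ x ∈ X, f x ^ (s + 1) := by
  rcases X.eq_empty_or_nonempty with h | h
  · subst h
    simp
  · have h1 := pow_sum_div_card_le_sum_pow (s := X) (f := fun x => (f x : ℝ))
      (fun x _ => Nat.cast_nonneg (f x)) s
    have hc : (0 : ℝ) < (X.card : ℝ) ^ s := by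
      have : (0 : ℝ) < X.card := by exact_mod_cast h.card_pos
      positivity
    rw [div_le_iff₀ hc] at h1
    have h2 : (∑ x ∈ X, (f x : ℝ)) ^ (s + 1) ≤ (X.card : ℝ) ^ s * ∑ x ∈ X, (f x : ℝ) ^ (s + 1) := by
      linarith
    exact_mod_cast h2

/-- Convexity (Cauchy-Schwarz and the power mean inequality). -/
theorem absD {ι μ ω : Type*} (P : Finset ι) (V : Finset μ) (W : Finset ω)
    (Rel : ι → μ → ω → Prop) (t : ℕ) (ht : 1 ≤ t) :
    P.card * V.card ^ t * W.card ^ 2 *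
        ((P ×ˢ (V ×ˢ W)).filter (fun y => Rel y.1 y.2.1 y.2.2)).card ^ (2 * t)
      ≤ (P.card * V.card * W.card) ^ (2 * t) *
        ∑ π ∈ P, ∑ w ∈ W, ∑ w' ∈ W, (V.filter (fun m => Rel π m w ∧ Rel π m w')).card ^ t := by
  obtain ⟨s, rfl⟩ : ∃ s, t = s + 1 := ⟨t - 1, by omega⟩
  -- indicator and degrees
  obtain ⟨f, hf⟩ : ∃ f : ι → μ → ω → ℕ, f = fun π m w => if Rel π m w then 1 else 0 := ⟨_, rfl⟩
  obtain ⟨I, hI⟩ : ∃ I, I = ((P ×ˢ (V ×ˢ W)).filter (fun y => Rel y.1 y.2.1 y.2.2)).card :=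
    ⟨_, rfl⟩
  rw [← hI]
  have h1 : I = ∑ x ∈ P ×ˢ V, ∑ w ∈ W, f x.1 x.2 w := by
    rw [hI, Finset.card_filter, Finset.sum_product, Finset.sum_product]
    refine Finset.sum_congr rfl fun π _ => ?_
    rw [Finset.sum_product]
    refine Finset.sum_congr rfl fun m _ => Finset.sum_congr rfl fun w _ => ?_
    rw [hf]
  have h2 : ∑ x ∈ P ×ˢ V, (∑ w ∈ W, f x.1 x.2 w) ^ 2 =
      ∑ z ∈ P ×ˢ (W ×ˢ W), (V.filter (fun m => Rel z.1 m z.2.1 ∧ Rel z.1 m z.2.2)).card := by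
    rw [Finset.sum_product, Finset.sum_product]
    refine Finset.sum_congr rfl fun π _ => ?_
    rw [Finset.sum_product]
    simp only [sq, Finset.sum_mul_sum]
    rw [Finset.sum_comm]
    refine Finset.sum_congr rfl fun w _ => ?_
    rw [Finset.sum_comm]
    refine Finset.sum_congr rfl fun w' _ => ?_
    rw [Finset.card_filter]
    refine Finset.sum_congr rfl fun m _ => ?_
    rw [hf]
    by_cases hw : Rel π m w <;> by_cases hw' : Rel π m w' <;> simp [hw, hw']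
  have h3 : ∑ z ∈ P ×ˢ (W ×ˢ W),
      (V.filter (fun m => Rel z.1 m z.2.1 ∧ Rel z.1 m z.2.2)).card ^ (s + 1) =
      ∑ π ∈ P, ∑ w ∈ W, ∑ w' ∈ W,
        (V.filter (fun m => Rel π m w ∧ Rel π m w')).card ^ (s + 1) := by
    rw [Finset.sum_product]
    refine Finset.sum_congr rfl fun π _ => ?_
    rw [Finset.sum_product]
  rw [← h3]
  obtain ⟨Z, hZ⟩ : ∃ Z, Z = ∑ z ∈ P ×ˢ (W ×ˢ W),
      (V.filter (fun m => Rel z.1 m z.2.1 ∧ Rel z.1 m z.2.2)).card ^ (s + 1) := ⟨_, rfl⟩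
  obtain ⟨Y, hY⟩ : ∃ Y, Y = ∑ z ∈ P ×ˢ (W ×ˢ W),
      (V.filter (fun m => Rel z.1 m z.2.1 ∧ Rel z.1 m z.2.2)).card := ⟨_, rfl⟩
  have h4 : I ^ 2 ≤ P.card * V.card * Y := by
    have := absD_powmean (P ×ˢ V) (fun x => ∑ w ∈ W, f x.1 x.2 w) 1
    rw [← h1, pow_one, Finset.card_product] at this
    rw [hY, ← h2]
    exact this
  have h5 : Y ^ (s + 1) ≤ (P.card * (W.card * W.card)) ^ s * Z := by
    have := absD_powmean (P ×ˢ (W ×ˢ W))
      (fun z => (V.filter (fun m => Rel z.1 m z.2.1 ∧ Rel z.1 m z.2.2)).card) s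
    rw [Finset.card_product, Finset.card_product] at this
    rw [hY, hZ]
    exact this
  rw [← hZ]
  calc P.card * V.card ^ (s + 1) * W.card ^ 2 * I ^ (2 * (s + 1))
      = P.card * V.card ^ (s + 1) * W.card ^ 2 * (I ^ 2) ^ (s + 1) := by rw [pow_mul]
    _ ≤ P.card * V.card ^ (s + 1) * W.card ^ 2 * (P.card * V.card * Y) ^ (s + 1) :=
        Nat.mul_le_mul_left _ (Nat.pow_le_pow_left h4 _)
    _ = P.card * V.card ^ (s + 1) * W.card ^ 2 * (P.card * V.card) ^ (s + 1) * Y ^ (s + 1) := by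
        rw [mul_pow (P.card * V.card) Y, ← mul_assoc]
    _ ≤ P.card * V.card ^ (s + 1) * W.card ^ 2 * (P.card * V.card) ^ (s + 1) *
          ((P.card * (W.card * W.card)) ^ s * Z) := Nat.mul_le_mul_left _ h5
    _ = (P.card * V.card * W.card) ^ (2 * (s + 1)) * Z := by ring

end FD120
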