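import Mathlib

set_option autoImplicit false

open Finset
open scoped Classical

namespace FD120

/-- functions with `f i = f j` -/
theorem absE_card_eq {μ : Type*} (V : Finset μ) (t : ℕ) (i j : Fin (t + 1)) (hij : i ≠ j) :
    ((Fintype.piFinset (fun _ : Fin (t + 1) => V)).filter (fun f => f i = f j)).card
      ≤ V.card ^ t := by
  have h1 : (Fintype.piFinset (fun _ : Fin t => V)).card = V.card ^ t :=
    Fintype.card_piFinset_const V t
  rw [← h1]
  refine Finset.card_le_card_of_injOn (fun f => fun k => f (i.succAbove k)) ?_ ?_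
  · intro f hf
    have hf' := (Finset.mem_filter.1 (Finset.mem_coe.1 hf)).1
    rw [Fintype.mem_piFinset] at hf'
    rw [Finset.mem_coe, Fintype.mem_piFinset]
    exact fun k => hf' _
  · intro f hf g hg hfg
    have hf' := (Finset.mem_filter.1 (Finset.mem_coe.1 hf)).2
    have hg' := (Finset.mem_filter.1 (Finset.mem_coe.1 hg)).2
    have hk : ∀ k, k ≠ i → f k = g k := by
      intro k hki
      obtain ⟨l, hl⟩ := Fin.exists_succAbove_eq hki
      rw [← hl]
      exact congrFun hfg l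
    funext k
    by_cases hki : k = i
    · rw [hki, hf', hg', hk j hij.symm]
    · exact hk k hki

theorem absE_noninj {μ : Type*} (V : Finset μ) (t : ℕ) :
    ((Fintype.piFinset (fun _ : Fin (t + 1) => V)).filter
      (fun f => ¬ Function.Injective f)).card ≤ (t + 1) ^ 2 * V.card ^ t := by
  have hsub : (Fintype.piFinset (fun _ : Fin (t + 1) => V)).filter
      (fun f => ¬ Function.Injective f) ⊆
      ((Finset.univ : Finset (Fin (t + 1) × Fin (t + 1))).filter (fun x => x.1 ≠ x.2)).biUnion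
        (fun x => (Fintype.piFinset (fun _ : Fin (t + 1) => V)).filter
          (fun f => f x.1 = f x.2)) := by
    intro f hf
    obtain ⟨hf1, hf2⟩ := Finset.mem_filter.1 hf
    simp only [Function.Injective, not_forall] at hf2
    obtain ⟨a, b, hab, hne⟩ := hf2
    rw [Finset.mem_biUnion]
    exact ⟨(a, b), Finset.mem_filter.2 ⟨Finset.mem_univ _, hne⟩, Finset.mem_filter.2 ⟨hf1, hab⟩⟩
  refine (Finset.card_le_card hsub).trans ?_
  refine Finset.card_biUnion_le.trans ?_
  refine (Finset.sum_le_card_nsmul _ _ (V.card ^ t) ?_).trans ?_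
  · intro x hx
    exact absE_card_eq V t x.1 x.2 (Finset.mem_filter.1 hx).2
  · rw [smul_eq_mul]
    refine Nat.mul_le_mul_right _ ((Finset.card_filter_le _ _).trans ?_)
    rw [Finset.card_univ, Fintype.card_prod, Fintype.card_fin]
    exact le_of_eq (by ring)

theorem absE_first {μ : Type*} (V : Finset μ) (t : ℕ) (g : μ → ℕ) :
    ∑ f ∈ Fintype.piFinset (fun _ : Fin (t + 1) => V), g (f 0) ≤ V.card ^ t * ∑ m ∈ V, g m := by
  have h1 : ∑ f ∈ Fintype.piFinset (fun _ : Fin (t + 1) => V), g (f 0)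
      = ∑ m ∈ V, ∑ f ∈ (Fintype.piFinset (fun _ : Fin (t + 1) => V)).filter (fun f => f 0 = m),
        g (f 0) := by
    refine (Finset.sum_fiberwise_of_maps_to ?_ _).symm
    intro f hf
    exact (Fintype.mem_piFinset.1 hf) 0
  rw [h1, Finset.mul_sum]
  refine Finset.sum_le_sum fun m _ => ?_
  have h2 : ∑ f ∈ (Fintype.piFinset (fun _ : Fin (t + 1) => V)).filter (fun f => f 0 = m), g (f 0)
      = ((Fintype.piFinset (fun _ : Fin (t + 1) => V)).filter (fun f => f 0 = m)).card * g m := by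
    rw [← smul_eq_mul, ← Finset.sum_const]
    refine Finset.sum_congr rfl fun f hf => ?_
    rw [(Finset.mem_filter.1 hf).2]
  rw [h2]
  refine Nat.mul_le_mul_right _ ?_
  have h3 : (Fintype.piFinset (fun _ : Fin t => V)).card = V.card ^ t :=
    Fintype.card_piFinset_const V t
  rw [← h3]
  refine Finset.card_le_card_of_injOn (fun f => fun k => f k.succ) ?_ ?_
  · intro f hf
    have hf' := (Finset.mem_filter.1 (Finset.mem_coe.1 hf)).1
    rw [Fintype.mem_piFinset] at hf'
    rw [Finset.mem_coe, Fintype.mem_piFinset]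
    exact fun k => hf' _
  · intro f hf g' hg hfg
    have hf' := (Finset.mem_filter.1 (Finset.mem_coe.1 hf)).2
    have hg' := (Finset.mem_filter.1 (Finset.mem_coe.1 hg)).2
    funext k
    refine Fin.cases ?_ (fun k => ?_) k
    · rw [hf', hg']
    · exact congrFun hfg k

/-- the case of one plane -/
theorem absE_one {μ ω : Type*} (V : Finset μ) (W : Finset ω)
    (R : μ → ω → Prop) (n : μ → ω → ℤ) (t : ℕ) (Y0 : ℕ)
    (hrig : ∀ f : Fin (t + 1) → μ, (∀ i, f i ∈ V) → Function.Injective f →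
      ∃ n0 : ℤ, (W.filter (fun w => (∀ i, R (f i) w) ∧ n (f 0) w ≠ n0)).card ≤ Y0) :
    ∑ w ∈ W, ∑ w' ∈ W, (V.filter (fun m => R m w ∧ R m w')).card ^ (t + 1)
      ≤ (t + 1) ^ 2 * V.card ^ t * W.card ^ 2
        + V.card ^ (t + 1) * (2 * Y0 + 1) * W.card
        + V.card ^ t * ∑ m ∈ V, ((W ×ˢ W).filter (fun y => y.1 ≠ y.2 ∧
            R m y.1 ∧ R m y.2 ∧ n m y.1 = n m y.2)).card := by
  set F : Finset (Fin (t + 1) → μ) := Fintype.piFinset (fun _ : Fin (t + 1) => V) with hF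
  let Wf : (Fin (t + 1) → μ) → Finset ω := fun f => W.filter (fun w => ∀ i, R (f i) w)
  let Em : μ → Finset (ω × ω) := fun m => (W ×ˢ W).filter (fun y => y.1 ≠ y.2 ∧
            R m y.1 ∧ R m y.2 ∧ n m y.1 = n m y.2)
  -- expansion
  have h1 : ∀ w w', (V.filter (fun m => R m w ∧ R m w')).card ^ (t + 1)
      = ∑ f ∈ F, if (∀ i, R (f i) w ∧ R (f i) w') then 1 else 0 := by
    intro w w'
    rw [← Fintype.card_piFinset_const, ← Finset.card_filter]
    congr 1
    ext f
    simp only [hF, Fintype.mem_piFinset, Finset.mem_filter]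
    exact ⟨fun h => ⟨fun i => (h i).1, fun i => (h i).2⟩, fun h i => ⟨h.1 i, h.2 i⟩⟩
  have h2 : ∑ w ∈ W, ∑ w' ∈ W, (V.filter (fun m => R m w ∧ R m w')).card ^ (t + 1)
      = ∑ f ∈ F, (Wf f ×ˢ Wf f).card := by
    simp only [h1]
    have h3 : ∑ w ∈ W, ∑ w' ∈ W, ∑ f ∈ F, (if (∀ i, R (f i) w ∧ R (f i) w') then 1 else 0)
        = ∑ f ∈ F, ∑ w ∈ W, ∑ w' ∈ W, (if (∀ i, R (f i) w ∧ R (f i) w') then 1 else 0) := by
      rw [Finset.sum_comm' (s := F) (t := fun _ => W) (t' := W) (s' := fun _ => F)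
        (by intro x y; tauto)]
      refine Finset.sum_congr rfl fun w _ => ?_
      exact Finset.sum_comm
    rw [h3]
    refine Finset.sum_congr rfl fun f _ => ?_
    rw [← Finset.sum_product', ← Finset.card_filter]
    congr 1
    ext y
    simp only [Wf, Finset.mem_filter, Finset.mem_product]
    constructor
    · rintro ⟨⟨h4, h5⟩, h6⟩
      exact ⟨⟨h4, fun i => (h6 i).1⟩, ⟨h5, fun i => (h6 i).2⟩⟩
    · rintro ⟨⟨h4, h5⟩, ⟨h6, h7⟩⟩
      exact ⟨⟨h4, h6⟩, fun i => ⟨h5 i, h7 i⟩⟩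
  have hWf : ∀ f, (Wf f).card ≤ W.card := fun f => Finset.card_filter_le _ _
  -- the bound for one `f`
  have h4 : ∀ f ∈ F, (Wf f ×ˢ Wf f).card ≤
      (if ¬ Function.Injective f then W.card ^ 2 else 0) + (2 * Y0 + 1) * W.card
        + (Em (f 0)).card := by
    intro f hf
    by_cases hinj : Function.Injective f
    · rw [if_neg (not_not.2 hinj), zero_add]
      obtain ⟨n0, hn0⟩ := hrig f (Fintype.mem_piFinset.1 hf) hinj
      set Bd : Finset ω := W.filter (fun w => (∀ i, R (f i) w) ∧ n (f 0) w ≠ n0) with hBd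
      have hsub : Wf f ×ˢ Wf f ⊆
          ((Bd ×ˢ W) ∪ (W ×ˢ Bd)) ∪ (W.image (fun w => (w, w)) ∪ Em (f 0)) := by
        rintro ⟨w, w'⟩ hy
        obtain ⟨hw, hw'⟩ := Finset.mem_product.1 hy
        obtain ⟨hw1, hw2⟩ := Finset.mem_filter.1 hw
        obtain ⟨hw3, hw4⟩ := Finset.mem_filter.1 hw'
        by_cases ha : n (f 0) w = n0
        · by_cases hb : n (f 0) w' = n0
          · refine Finset.mem_union_right _ ?_
            by_cases he : w = w'
            · subst he
              exact Finset.mem_union_left _ (Finset.mem_image.2 ⟨w, hw1, rfl⟩)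
            · refine Finset.mem_union_right _ (Finset.mem_filter.2
                ⟨Finset.mem_product.2 ⟨hw1, hw3⟩, he, hw2 0, hw4 0, ?_⟩)
              show n (f 0) w = n (f 0) w'
              rw [ha, hb]
          · refine Finset.mem_union_left _ (Finset.mem_union_right _ ?_)
            exact Finset.mem_product.2 ⟨hw1, Finset.mem_filter.2 ⟨hw3, hw4, hb⟩⟩
        · refine Finset.mem_union_left _ (Finset.mem_union_left _ ?_)
          exact Finset.mem_product.2 ⟨Finset.mem_filter.2 ⟨hw1, hw2, ha⟩, hw3⟩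
      have hc1 := Finset.card_le_card hsub
      have hc2 := Finset.card_union_le ((Bd ×ˢ W) ∪ (W ×ˢ Bd))
        (W.image (fun w => (w, w)) ∪ Em (f 0))
      have hc3 := Finset.card_union_le (Bd ×ˢ W) (W ×ˢ Bd)
      have hc4 := Finset.card_union_le (W.image (fun w => (w, w))) (Em (f 0))
      have hc5 : (W.image (fun w => (w, w))).card ≤ W.card := Finset.card_image_le
      have hc6 : (Bd ×ˢ W).card ≤ Y0 * W.card := by
        rw [Finset.card_product]
        exact Nat.mul_le_mul_right _ hn0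
      have hc7 : (W ×ˢ Bd).card ≤ Y0 * W.card := by
        rw [Finset.card_product, mul_comm]
        exact Nat.mul_le_mul_right _ hn0
      have hc8 : (2 * Y0 + 1) * W.card = Y0 * W.card + Y0 * W.card + W.card := by ring
      omega
    · rw [if_pos hinj]
      have h5 : (Wf f ×ˢ Wf f).card ≤ W.card ^ 2 := by
        rw [Finset.card_product, sq]
        exact Nat.mul_le_mul (hWf f) (hWf f)
      omega
  rw [h2]
  refine (Finset.sum_le_sum h4).trans ?_
  rw [Finset.sum_add_distrib, Finset.sum_add_distrib]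
  have h6 : ∑ f ∈ F, (if ¬ Function.Injective f then W.card ^ 2 else 0)
      ≤ (t + 1) ^ 2 * V.card ^ t * W.card ^ 2 := by
    rw [← Finset.sum_filter, Finset.sum_const, smul_eq_mul]
    exact Nat.mul_le_mul_right _ (absE_noninj V t)
  have h7 : ∑ _f ∈ F, (2 * Y0 + 1) * W.card = V.card ^ (t + 1) * (2 * Y0 + 1) * W.card := by
    rw [Finset.sum_const, smul_eq_mul, hF, Fintype.card_piFinset_const, mul_assoc]
  have h8 : ∑ f ∈ F, (Em (f 0)).card ≤ V.card ^ t * ∑ m ∈ V, (Em m).card :=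
    absE_first V t (fun m => (Em m).card)
  rw [h7]
  exact Nat.add_le_add (Nat.add_le_add_right h6 _) h8

/-- Upper bound for the power sum under the rigidity hypothesis.  Expand the power as a sum over
`f : Fin (t+1) → V`; non injective `f`: at most `(t+1)^2 #V^t` of them, each contributes at most
`#W^2`; injective `f`: the set `W_f = {w | ∀ i, Rel π (f i) w}` contributes
`#W_f^2 ≤ 2 Y0 #W + #W + #{(w, w') | w ≠ w', nn equal}`. -/
theorem absE {ι μ ω : Type*} (P : Finset ι) (V : Finset μ) (W : Finset ω)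
    (Rel : ι → μ → ω → Prop) (nn : ι → μ → ω → ℤ) (t : ℕ) (Y0 : ℕ)
    (hrig : ∀ π ∈ P, ∀ f : Fin (t + 1) → μ, (∀ i, f i ∈ V) → Function.Injective f →
      ∃ n0 : ℤ, (W.filter (fun w => (∀ i, Rel π (f i) w) ∧ nn π (f 0) w ≠ n0)).card ≤ Y0) :
    ∑ π ∈ P, ∑ w ∈ W, ∑ w' ∈ W,
        (V.filter (fun m => Rel π m w ∧ Rel π m w')).card ^ (t + 1)
      ≤ P.card * (t + 1) ^ 2 * V.card ^ t * W.card ^ 2
        + P.card * V.card ^ (t + 1) * (2 * Y0 + 1) * W.card
        + V.card ^ t * ((P ×ˢ (V ×ˢ (W ×ˢ W))).filter (fun y => y.2.2.1 ≠ y.2.2.2 ∧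
            Rel y.1 y.2.1 y.2.2.1 ∧ Rel y.1 y.2.1 y.2.2.2 ∧
            nn y.1 y.2.1 y.2.2.1 = nn y.1 y.2.1 y.2.2.2)).card := by
  have h1 : ∀ π ∈ P, ∑ w ∈ W, ∑ w' ∈ W,
        (V.filter (fun m => Rel π m w ∧ Rel π m w')).card ^ (t + 1)
      ≤ (t + 1) ^ 2 * V.card ^ t * W.card ^ 2
        + V.card ^ (t + 1) * (2 * Y0 + 1) * W.card
        + V.card ^ t * ∑ m ∈ V, ((W ×ˢ W).filter (fun y => y.1 ≠ y.2 ∧
            Rel π m y.1 ∧ Rel π m y.2 ∧ nn π m y.1 = nn π m y.2)).card := fun π hπ =>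
    absE_one V W (Rel π) (nn π) t Y0 (hrig π hπ)
  refine (Finset.sum_le_sum h1).trans (le_of_eq ?_)
  rw [Finset.sum_add_distrib, Finset.sum_const, smul_eq_mul, ← Finset.mul_sum]
  have h2 : ((P ×ˢ (V ×ˢ (W ×ˢ W))).filter (fun y => y.2.2.1 ≠ y.2.2.2 ∧
            Rel y.1 y.2.1 y.2.2.1 ∧ Rel y.1 y.2.1 y.2.2.2 ∧
            nn y.1 y.2.1 y.2.2.1 = nn y.1 y.2.1 y.2.2.2)).card
      = ∑ π ∈ P, ∑ m ∈ V, ((W ×ˢ W).filter (fun y => y.1 ≠ y.2 ∧
            Rel π m y.1 ∧ Rel π m y.2 ∧ nn π m y.1 = nn π m y.2)).card := by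
    rw [Finset.card_filter, Finset.sum_product]
    refine Finset.sum_congr rfl fun π _ => ?_
    rw [Finset.sum_product]
    refine Finset.sum_congr rfl fun m _ => ?_
    rw [Finset.card_filter]
  rw [h2]
  ring

end FD120
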