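import Pool.Agent.W_fd120a_h34.Defs

set_option autoImplicit false

open Finset Filter Topology
open scoped Classical

namespace FD120

/-- the primes in `[y, 2y)` counted over `ℕ` -/
theorem blk_card (y : ℕ) :
    (PP (y : ℤ)).card = ((Finset.Ico y (2 * y)).filter Nat.Prime).card := by
  symm
  refine Finset.card_bij (fun p _ => (p : ℤ)) ?_ ?_ ?_
  · intro p hp
    rw [Finset.mem_filter, Finset.mem_Ico] at hp
    unfold PP
    rw [Finset.mem_filter, Finset.mem_Ico]
    refine ⟨⟨by exact_mod_cast hp.1.1, by exact_mod_cast hp.1.2⟩, ?_⟩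
    exact Nat.prime_iff_prime_int.1 hp.2
  · intro a _ b _ h
    exact_mod_cast h
  · intro b hb
    unfold PP at hb
    rw [Finset.mem_filter, Finset.mem_Ico] at hb
    have hb0 : 0 ≤ b := le_trans (Int.natCast_nonneg y) hb.1.1
    refine ⟨b.toNat, ?_, Int.toNat_of_nonneg hb0⟩
    rw [Finset.mem_filter, Finset.mem_Ico]
    refine ⟨⟨by omega, by omega⟩, ?_⟩
    rw [Nat.prime_iff_prime_int, Int.toNat_of_nonneg hb0]
    exact hb.2

/-- Chebyshev: `θ (4x) - θ x` is at most `log (4x)` times the number of primes of the two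
blocks. -/
theorem blk_theta (x : ℕ) (hx : 1 ≤ x) :
    Chebyshev.theta ((4 * x : ℕ) : ℝ) - Chebyshev.theta (x : ℝ) ≤
      Real.log ((4 * x : ℕ) : ℝ) *
        (((PP (x : ℤ)).card : ℝ) + ((PP ((2 * x : ℕ) : ℤ)).card : ℝ)) := by
  have h1 : Chebyshev.theta ((4 * x : ℕ) : ℝ) =
      Chebyshev.theta (x : ℝ) +
        ∑ p ∈ (Finset.Ioc x (4 * x)).filter Nat.Prime, Real.log (p : ℝ) := by
    unfold Chebyshev.theta
    rw [Nat.floor_natCast, Nat.floor_natCast, Finset.sum_filter, Finset.sum_filter,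
      Finset.sum_filter]
    exact (Finset.sum_Ioc_consecutive (fun p => if Nat.Prime p then Real.log (p : ℝ) else 0)
      (Nat.zero_le x) (by omega)).symm
  rw [h1, add_sub_cancel_left]
  have h2 : ∑ p ∈ (Finset.Ioc x (4 * x)).filter Nat.Prime, Real.log (p : ℝ) ≤
      ((Finset.Ioc x (4 * x)).filter Nat.Prime).card • Real.log ((4 * x : ℕ) : ℝ) := by
    refine Finset.sum_le_card_nsmul _ _ _ fun p hp => ?_
    rw [Finset.mem_filter, Finset.mem_Ioc] at hp
    exact Real.log_le_log (by exact_mod_cast hp.2.pos) (by exact_mod_cast hp.1.2)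
  refine h2.trans ?_
  rw [nsmul_eq_mul, mul_comm]
  refine mul_le_mul_of_nonneg_left ?_ (Real.log_natCast_nonneg _)
  rw [blk_card, blk_card]
  have h3 : (Finset.Ioc x (4 * x)).filter Nat.Prime ⊆
      ((Finset.Ico x (2 * x)).filter Nat.Prime) ∪
        ((Finset.Ico (2 * x) (2 * (2 * x))).filter Nat.Prime) := by
    intro p hp
    rw [Finset.mem_filter, Finset.mem_Ioc] at hp
    have hne : p ≠ 4 * x := by
      intro h
      have h4 := hp.2
      rw [h] at h4
      exact Nat.not_prime_mul (by norm_num) (by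
        intro h5
        rw [h5] at h4
        exact absurd h4 (by norm_num)) h4
    rw [Finset.mem_union, Finset.mem_filter, Finset.mem_filter, Finset.mem_Ico, Finset.mem_Ico]
    rcases lt_or_ge p (2 * x) with h | h
    · left; exact ⟨⟨by omega, h⟩, hp.2⟩
    · right; exact ⟨⟨h, by omega⟩, hp.2⟩
  have h4 := (Finset.card_le_card h3).trans (Finset.card_union_le _ _)
  exact_mod_cast h4

theorem blk_asym (η : ℝ) (hη : 0 < η) :
    ∀ᶠ u : ℝ in atTop, 2 * (u ^ (1 - η) * Real.log u) + 4 * (Real.sqrt u * Real.log u) ≤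
      (Real.log 2 / 2) * u := by
  have h1 : (fun u : ℝ => u ^ (1 - η) * Real.log u) =o[atTop] (fun u : ℝ => u) := by
    have h2 : (fun u : ℝ => u ^ (1 - η) * Real.log u) =o[atTop]
        (fun u : ℝ => u ^ (1 - η) * u ^ η) :=
      (Asymptotics.isBigO_refl _ _).mul_isLittleO (isLittleO_log_rpow_atTop hη)
    refine h2.congr' (EventuallyEq.refl _ _) ?_
    filter_upwards [eventually_gt_atTop 0] with u hu
    rw [← Real.rpow_add hu]
    norm_num
  have h2 : (fun u : ℝ => Real.sqrt u * Real.log u) =o[atTop] (fun u : ℝ => u) := by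
    have h2 : (fun u : ℝ => Real.sqrt u * Real.log u) =o[atTop]
        (fun u : ℝ => Real.sqrt u * u ^ (1 / 2 : ℝ)) :=
      (Asymptotics.isBigO_refl _ _).mul_isLittleO (isLittleO_log_rpow_atTop (by norm_num))
    refine h2.congr' (EventuallyEq.refl _ _) ?_
    filter_upwards [eventually_gt_atTop 0] with u hu
    rw [← Real.sqrt_eq_rpow, Real.mul_self_sqrt hu.le]
  have h3 := (h1.const_mul_left 2).add (h2.const_mul_left 4)
  have hlog2 : 0 < Real.log 2 := Real.log_pos (by norm_num)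
  filter_upwards [h3.bound (half_pos hlog2), eventually_gt_atTop 0] with u hu hu0
  rw [Real.norm_eq_abs, Real.norm_eq_abs, abs_of_pos hu0] at hu
  exact (le_abs_self _).trans hu

/-- One of the blocks `[x, 2x)`, `[2x, 4x)` contains many primes. -/
theorem prime_block (η : ℝ) (hη : 0 < η) :
    ∀ᶠ x : ℕ in atTop, ∃ y : ℕ, x ≤ y ∧ y ≤ 2 * x ∧
      (y : ℝ) ^ (1 - η) ≤ ((PP (y : ℤ)).card : ℝ) := by
  set δ : ℝ := min η (1 / 2) with hδ
  have hδ0 : 0 < δ := lt_min hη (by norm_num)
  have hδη : δ ≤ η := min_le_left _ _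
  have hδ1 : δ ≤ 1 / 2 := min_le_right _ _
  have ht : Tendsto (fun x : ℕ => ((4 * x : ℕ) : ℝ)) atTop atTop := by
    refine tendsto_natCast_atTop_atTop.comp ?_
    exact tendsto_id.const_mul_atTop' (by norm_num)
  filter_upwards [ht.eventually (blk_asym δ hδ0), eventually_ge_atTop 1] with x hx hx1
  have hxR : (1 : ℝ) ≤ x := by exact_mod_cast hx1
  by_contra hcon
  push Not at hcon
  have c1 := hcon x le_rfl (by omega)
  have c2 := hcon (2 * x) (by omega) le_rfl
  -- both blocks are small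
  have e : ∀ y : ℕ, 1 ≤ y → y ≤ 4 * x → (y : ℝ) ^ (1 - η) ≤ ((4 * x : ℕ) : ℝ) ^ (1 - δ) := by
    intro y hy hy'
    have hy1 : (1 : ℝ) ≤ y := by exact_mod_cast hy
    calc (y : ℝ) ^ (1 - η) ≤ (y : ℝ) ^ (1 - δ) :=
          Real.rpow_le_rpow_of_exponent_le hy1 (by linarith)
      _ ≤ ((4 * x : ℕ) : ℝ) ^ (1 - δ) :=
          Real.rpow_le_rpow (by linarith) (by exact_mod_cast hy') (by linarith)
  have d1 := c1.trans_le (e x hx1 (by omega))
  have d2 := c2.trans_le (e (2 * x) (by omega) (by omega))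
  have t1 := blk_theta x hx1
  have t2 := Chebyshev.theta_ge (4 * x)
  have t3 := Chebyshev.theta_le_log4_mul_x (x := (x : ℝ)) (by linarith)
  set u : ℝ := ((4 * x : ℕ) : ℝ) with hu
  have hu4 : u = 4 * (x : ℝ) := by rw [hu]; push_cast; ring
  have hlog4 : Real.log 4 = 2 * Real.log 2 := by
    rw [show (4 : ℝ) = 2 ^ 2 by norm_num, Real.log_pow]; norm_num
  have hlogu : 0 < Real.log u := Real.log_pos (by rw [hu4]; linarith)
  have hu1 : 1 ≤ Real.sqrt u := by
    rw [show (1 : ℝ) = Real.sqrt 1 by simp]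
    exact Real.sqrt_le_sqrt (by rw [hu4]; linarith)
  have hlog1 : Real.log (u + 1) ≤ 2 * Real.log u := by
    have h5 : Real.log (u + 1) ≤ Real.log (u ^ 2) := by
      apply Real.log_le_log
      · rw [hu4]; linarith
      · rw [hu4]; nlinarith
    rw [Real.log_pow] at h5
    exact_mod_cast h5
  have h6 : Real.log u * (((PP (x : ℤ)).card : ℝ) + ((PP ((2 * x : ℕ) : ℤ)).card : ℝ)) <
      Real.log u * (2 * u ^ (1 - δ)) := by
    refine mul_lt_mul_of_pos_left ?_ hlogu
    linarith
  have h7 : Real.log u ≤ Real.sqrt u * Real.log u := by nlinarith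
  rw [hlog4] at t3
  have h8 : 2 * Real.log 2 * (x : ℝ) = Real.log 2 / 2 * u := by rw [hu4]; ring
  rw [h8] at t3
  have h9 : 2 * Real.sqrt u * Real.log u = 2 * (Real.sqrt u * Real.log u) := by ring
  have h10 : u * Real.log 2 = Real.log 2 / 2 * u + Real.log 2 / 2 * u := by ring
  have h11 : Real.log u * (2 * u ^ (1 - δ)) = 2 * (u ^ (1 - δ) * Real.log u) := by ring
  rw [h9, h10] at t2
  rw [h11] at h6
  linarith

end FD120
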