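import Mathlib

set_option autoImplicit false

/-!
Project MP_fd120a_nt (helper34).  `|S_N(a)| ≥ N ^ (0.98 + c)`, `c = 10 ^ (-6)`.
Everything is done over `ℤ`.
-/

open Finset Polynomial
open scoped Classical

namespace FD120

/-- the primes in `[Q, 2Q)`, as integers -/
noncomputable def PP (Q : ℤ) : Finset ℤ := (Finset.Ico Q (2 * Q)).filter (fun p => Prime p)

/-- multiplicity of the point `n` -/
noncomputable def rr (Q : ℤ) (res : ℤ → ℤ) (n : ℤ) : ℕ :=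
  ((PP Q).filter (fun p => p ∣ n - res p)).card

/-- the sieved set -/
noncomputable def SS (N Q : ℤ) (res : ℤ → ℤ) : Finset ℤ :=
  (Finset.Icc 1 N).filter (fun n => ∃ p ∈ PP Q, p ∣ n - res p)

/-- the number of incidences -/
noncomputable def II (N Q : ℤ) (res : ℤ → ℤ) : ℕ :=
  ∑ p ∈ PP Q, ((Finset.Icc 1 N).filter (fun n => p ∣ n - res p)).card

/-- `n ∈ [1, N]` lies in the classes of `p` and of `q` and has multiplicity at most `T` -/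
def Meets (N Q : ℤ) (T : ℕ) (res : ℤ → ℤ) (p q n : ℤ) : Prop :=
  1 ≤ n ∧ n ≤ N ∧ p ∣ n - res p ∧ q ∣ n - res q ∧ rr Q res n ≤ T

/-- the good pairs -/
noncomputable def EE (N Q : ℤ) (T : ℕ) (res : ℤ → ℤ) : Finset (ℤ × ℤ) :=
  ((PP Q) ×ˢ (PP Q)).filter (fun x => x.1 ≠ x.2 ∧ ∃ n, Meets N Q T res x.1 x.2 n)

/-- the meeting point of `p` and `q` (when there is one) -/
noncomputable def pt (N Q : ℤ) (T : ℕ) (res : ℤ → ℤ) (p q : ℤ) : ℤ :=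
  if h : ∃ n, Meets N Q T res p q n then h.choose else 0

/-- the pairs `(w₁, ℓ)` with `1 ≤ w₁ < a0`, `ℓ ∈ PP L`, `ℓ ∣ a0 q - w₁ p` -/
noncomputable def FF (L a0 p q : ℤ) : ℕ :=
  ((Finset.Ico 1 a0 ×ˢ PP L).filter (fun x => x.2 ∣ a0 * q - x.1 * p)).card

/-- the mean of `FF L a0 p` -/
noncomputable def mu (L a0 : ℤ) : ℝ := ((a0 : ℝ) - 1) * ∑ l ∈ PP L, (1 / (l : ℝ))

/-- the number of pairs `(w₁, ℓ)` -/
noncomputable def RR (L a0 : ℤ) : ℝ := ((a0 : ℝ) - 1) * ((PP L).card : ℝ)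

/-- the vectors `w` -/
noncomputable def WW (a0 B : ℤ) : Finset (ℤ × ℤ) := Finset.Ico 1 a0 ×ˢ Finset.Icc 1 B

/-- the planes -/
noncomputable def Box (A' B' : ℤ) : Finset (ℤ × ℤ) := Finset.Icc (-A') A' ×ˢ Finset.Icc (-B') B'

/-- the incidence relation in the plane `π = (α, β)` between `m` (that is `v = (a0, m)`) and `w` -/
def Rel (N Q L a0 : ℤ) (T : ℕ) (res : ℤ → ℤ) (π : ℤ × ℤ) (m : ℤ) (w : ℤ × ℤ) : Prop :=
  a0 * w.2 - m * w.1 ∈ PP L ∧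
    (a0 * π.1 + m * π.2, w.1 * π.1 + w.2 * π.2) ∈ EE N Q T res

/-- the point of `(m, w)` in the plane `π` -/
noncomputable def nn (N Q a0 : ℤ) (T : ℕ) (res : ℤ → ℤ) (π : ℤ × ℤ) (m : ℤ) (w : ℤ × ℤ) : ℤ :=
  pt N Q T res (a0 * π.1 + m * π.2) (w.1 * π.1 + w.2 * π.2)

/-- all incidences -/
noncomputable def Inc (N Q L a0 : ℤ) (T : ℕ) (res : ℤ → ℤ) (A' B' B : ℤ) :
    Finset ((ℤ × ℤ) × (ℤ × (ℤ × ℤ))) :=
  (Box A' B' ×ˢ (Finset.Ico 1 a0 ×ˢ WW a0 B)).filter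
    (fun y => Rel N Q L a0 T res y.1 y.2.1 y.2.2)

/-- homogenisation of degree `d` of the integer polynomial `P`, evaluated at `(x, y)` -/
def hom (d : ℕ) (P : ℤ[X]) (x y : ℤ) : ℤ :=
  ∑ j ∈ Finset.range (d + 1), P.coeff j * x ^ (d - j) * y ^ j

end FD120
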