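import Pool.Agent.W_fd120a_h34.Tri

set_option autoImplicit false

open Finset
open scoped Classical

namespace FD120

theorem triC_pt_spec {N Q : ℤ} {T : ℕ} {res : ℤ → ℤ} {p q : ℤ} (h : (p, q) ∈ EE N Q T res) :
    p ∈ PP Q ∧ q ∈ PP Q ∧ p ≠ q ∧ Meets N Q T res p q (pt N Q T res p q) := by
  unfold EE at h
  rw [Finset.mem_filter, Finset.mem_product] at h
  obtain ⟨⟨h1, h2⟩, h3, h4⟩ := h
  refine ⟨h1, h2, h3, ?_⟩
  unfold pt
  rw [dif_pos h4]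
  exact h4.choose_spec

/-- Number of coincidences: the map `(π, m, w, w') ↦ (n, p, q, q')` is injective (`tri_inj`) into
the set of `(n, p, q, q')` with `n ∈ [1, N]`, `rr n ≤ T`, `p, q, q'` hitting `n`, whose
cardinality is `∑ rr n ^ 3 ≤ T ^ 2 * II`. -/
theorem tri_card (N Q L a0 : ℤ) (T : ℕ) (res : ℤ → ℤ) (A' B' B : ℤ)
    (hQ : 0 < Q) (ha0 : Prime a0) (h1 : 1 < a0) (h2 : a0 < L)
    (hB : 1 ≤ B) (h3 : 2 * L ≤ Q) (h4 : 4 * a0 * B * L ≤ Q) :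
    ((Box A' B' ×ˢ (Finset.Ico 1 a0 ×ˢ (WW a0 B ×ˢ WW a0 B))).filter (fun y =>
        y.2.2.1 ≠ y.2.2.2 ∧
        Rel N Q L a0 T res y.1 y.2.1 y.2.2.1 ∧ Rel N Q L a0 T res y.1 y.2.1 y.2.2.2 ∧
        nn N Q a0 T res y.1 y.2.1 y.2.2.1 = nn N Q a0 T res y.1 y.2.1 y.2.2.2)).card
      ≤ T ^ 2 * II N Q res := by
  set PPn : ℤ → Finset ℤ := fun n => (PP Q).filter (fun p => p ∣ n - res p) with hPPn
  set TT : Finset (Σ _ : ℤ, ℤ × ℤ × ℤ) :=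
    ((Finset.Icc 1 N).filter (fun n => rr Q res n ≤ T)).sigma (fun n => PPn n ×ˢ (PPn n ×ˢ PPn n)) with hTT
  have hcardT : TT.card ≤ T ^ 2 * II N Q res := by
    rw [hTT, Finset.card_sigma, II_eq, Finset.mul_sum]
    calc ∑ n ∈ (Finset.Icc 1 N).filter (fun n => rr Q res n ≤ T), (PPn n ×ˢ (PPn n ×ˢ PPn n)).card
        ≤ ∑ n ∈ (Finset.Icc 1 N).filter (fun n => rr Q res n ≤ T), T ^ 2 * rr Q res n := by
          refine Finset.sum_le_sum fun n hn => ?_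
          rw [Finset.mem_filter] at hn
          rw [Finset.card_product, Finset.card_product]
          have hr : (PPn n).card = rr Q res n := rfl
          rw [hr]
          calc rr Q res n * (rr Q res n * rr Q res n) ≤ rr Q res n * (T * T) := by
                apply Nat.mul_le_mul_left
                exact Nat.mul_le_mul hn.2 hn.2
            _ = T ^ 2 * rr Q res n := by ring
      _ ≤ ∑ n ∈ Finset.Icc 1 N, T ^ 2 * rr Q res n :=
          Finset.sum_le_sum_of_subset (Finset.filter_subset _ _)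
  refine le_trans ?_ hcardT
  refine Finset.card_le_card_of_injOn
    (fun y => (⟨nn N Q a0 T res y.1 y.2.1 y.2.2.1, (a0 * y.1.1 + y.2.1 * y.1.2,
      y.2.2.1.1 * y.1.1 + y.2.2.1.2 * y.1.2, y.2.2.2.1 * y.1.1 + y.2.2.2.2 * y.1.2)⟩ :
        Σ _ : ℤ, ℤ × ℤ × ℤ)) ?_ ?_
  · rintro ⟨π, m, w, w'⟩ hy
    rw [Finset.mem_coe, Finset.mem_filter] at hy
    obtain ⟨_, _, hr, hr', hnn⟩ := hy
    obtain ⟨a1, a2, a3, a4⟩ := triC_pt_spec hr.2
    obtain ⟨b1, b2, b3, b4⟩ := triC_pt_spec hr'.2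
    change nn N Q a0 T res π m w = nn N Q a0 T res π m w' at hnn
    change Meets N Q T res _ _ (nn N Q a0 T res π m w) at a4
    change Meets N Q T res _ _ (nn N Q a0 T res π m w') at b4
    rw [← hnn] at b4
    obtain ⟨c1, c2, c3, c4, c5⟩ := a4
    obtain ⟨d1, d2, d3, d4, d5⟩ := b4
    rw [Finset.mem_coe, hTT, Finset.mem_sigma]
    refine ⟨Finset.mem_filter.2 ⟨Finset.mem_Icc.2 ⟨c1, c2⟩, c5⟩, ?_⟩
    rw [Finset.mem_product, Finset.mem_product]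
    exact ⟨Finset.mem_filter.2 ⟨a1, c3⟩, Finset.mem_filter.2 ⟨a2, c4⟩, Finset.mem_filter.2 ⟨b2, d4⟩⟩
  · rintro ⟨π, m, w, w'⟩ hy ⟨π₁, m₁, v, v'⟩ hz heq
    rw [Finset.mem_coe, Finset.mem_filter, Finset.mem_product, Finset.mem_product,
      Finset.mem_product] at hy hz
    obtain ⟨⟨_, hm, hw, hw'⟩, hne, hr, hr', _⟩ := hy
    obtain ⟨⟨_, hm₁, hv, hv'⟩, hne', hs, hs', _⟩ := hz
    obtain ⟨a1, a2, a3, _⟩ := triC_pt_spec hr.2
    obtain ⟨_, b2, b3, _⟩ := triC_pt_spec hr'.2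
    simp only [Sigma.mk.injEq, Prod.mk.injEq] at heq
    obtain ⟨_, heq⟩ := heq
    simp only [heq_eq_eq, Prod.mk.injEq] at heq
    obtain ⟨e1, e2, e3⟩ := heq
    obtain ⟨r1, r2, r3, r4⟩ := tri_inj Q L a0 B hQ ha0 h1 h2 hB h3 h4 π π₁ m m₁ w w' v v'
      hm hm₁ hw hw' hv hv' hne hne' hr.1 hr'.1 hs.1 hs'.1 a1 a2 b2 a3 b3 e1 e2 e3
    subst r1 r2 r3 r4
    rfl

end FD120
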