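import Pool.Agent.W_fd120a_h34.RigC
import Pool.Agent.W_fd120a_h34.AbsD
import Pool.Agent.W_fd120a_h34.AbsE
import Pool.Agent.W_fd120a_h34.TriC

set_option autoImplicit false

open Finset
open scoped Classical

namespace FD120

/-- The finite inequality. -/
theorem fin_main (k : ℕ) (hk : 1 ≤ k) (N Q L a0 B K A' B' : ℤ) (T Z τ Y0 : ℕ) (res : ℤ → ℤ)
    (hQ : 0 < Q) (hN : 1 ≤ N) (hK : N ≤ K * Q) (h5 : 5 * L * K ≤ Q)
    (ha0 : Prime a0) (ha1 : 1 < a0) (ha : a0 ^ 2 ≤ L) (haB : a0 ≤ B)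
    (h3 : 2 * L ≤ Q) (h4 : 4 * a0 * B * L ≤ Q)
    (hsize : 3 * (k : ℤ) * (1 + K) * (6 * (k : ℤ) * (2 * L * K) * a0 ^ (3 * k - 1)) ^ 2
      * B ^ (3 * k - 1) < L ^ (4 * k))
    (hZ : (2 * ((3 * k - 1 : ℕ) : ℤ) * (6 * (k : ℤ) * (2 * L * K) * a0 ^ (3 * k - 1)) ^ 2)
        ^ (2 * (3 * k - 1)) * a0 ^ (2 * (3 * k - 1)) ≤ (Z : ℤ))
    (hdiv : ∀ n : ℕ, 0 < n → n ≤ Z → n.divisors.card ≤ τ)
    (hY : 2 * ((3 * k - 1 : ℕ) : ℤ) * τ * (a0 + B) + ((3 * k - 1 : ℕ) : ℤ) ≤ (Y0 : ℤ)) :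
    (Box A' B').card * (Finset.Ico 1 a0).card ^ (4 * k + 1) * (WW a0 B).card ^ 2 *
        (Inc N Q L a0 T res A' B' B).card ^ (2 * (4 * k + 1))
      ≤ ((Box A' B').card * (Finset.Ico 1 a0).card * (WW a0 B).card) ^ (2 * (4 * k + 1)) *
        ((Box A' B').card * (4 * k + 1) ^ 2 * (Finset.Ico 1 a0).card ^ (4 * k) *
            (WW a0 B).card ^ 2
          + (Box A' B').card * (Finset.Ico 1 a0).card ^ (4 * k + 1) * (2 * Y0 + 1) *
            (WW a0 B).card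
          + (Finset.Ico 1 a0).card ^ (4 * k) * (T ^ 2 * II N Q res)) := by
  have h1 := absD (Box A' B') (Finset.Ico 1 a0) (WW a0 B)
    (fun π m w => Rel N Q L a0 T res π m w) (4 * k + 1) (by omega)
  have h2 := absE (Box A' B') (Finset.Ico 1 a0) (WW a0 B)
    (fun π m w => Rel N Q L a0 T res π m w) (fun π m w => nn N Q a0 T res π m w) (4 * k) Y0
    (by
      intro π _ f hf hinj
      obtain ⟨n0, hn0⟩ := rigid k hk N Q L a0 B K T Z τ res hQ hN hK h5 ha0 ha1 ha haB hsize hZ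
        hdiv π f hf hinj
      exact ⟨n0, by exact_mod_cast hn0.trans hY⟩)
  have haL : a0 < L := by nlinarith
  have h3' := tri_card N Q L a0 T res A' B' B hQ ha0 ha1 haL (by linarith) h3 h4
  refine h1.trans (Nat.mul_le_mul_left _ (h2.trans ?_))
  gcongr
  refine le_trans (le_of_eq ?_) h3'
  congr!

end FD120
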