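import Mathlib

set_option autoImplicit false

/-! Pure real-number lemmas for the assembly. -/

namespace FD120

/-- dividing the finite inequality -/
theorem divide_out (t : ℕ) (P v w J a Y T2I : ℝ) (hP : 0 < P) (hv : 0 < v) (hw : 0 < w)
    (h : P * v ^ (t + 1) * w ^ 2 * J ^ (2 * (t + 1)) ≤
      (P * v * w) ^ (2 * (t + 1)) *
        (P * a * v ^ t * w ^ 2 + P * v ^ (t + 1) * Y * w + v ^ t * T2I)) :
    (J / (P * v * w)) ^ (2 * (t + 1)) ≤ a / v + Y / w + T2I / (P * v * w ^ 2) := by
  rw [div_pow, div_le_iff₀ (by positivity)]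
  have key : (a / v + Y / w + T2I / (P * v * w ^ 2)) * (P * v * w) ^ (2 * (t + 1))
      = ((P * v * w) ^ (2 * (t + 1)) *
        (P * a * v ^ t * w ^ 2 + P * v ^ (t + 1) * Y * w + v ^ t * T2I))
          / (P * v ^ (t + 1) * w ^ 2) := by
    field_simp
    ring
  rw [key, le_div_iff₀ (by positivity)]
  linarith

/-- the size condition of the Siegel step, in logarithms, `k = 150` -/
theorem size_log (l K L a B : ℝ) (hl : 10 ^ 12 ≤ l) (hK : 1 ≤ K) (hL : 1 ≤ L) (ha : 1 ≤ a)
    (hB : 1 ≤ B) (hK' : K ≤ 2 * Real.exp (0.49 * l)) (hL1 : Real.exp (0.02 * l) ≤ 200 * L)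
    (hL2 : L ≤ Real.exp (0.02 * l)) (ha2 : a ≤ 2 * Real.exp (0.0033 * l))
    (ha1 : Real.exp (0.0033 * l) ≤ a) (hBa : B * a ≤ 4 * L) :
    3 * 150 * (1 + K) * (6 * 150 * (2 * L * K) * a ^ (3 * 150 - 1)) ^ 2 * B ^ (3 * 150 - 1)
      < L ^ (4 * 150) := by
  have hlog2 : Real.log 2 ≤ 1 := by
    have := Real.log_two_lt_d9; linarith
  have lK : Real.log K ≤ 1 + 0.49 * l := by
    have h := Real.log_le_log (by positivity) hK'
    rw [Real.log_mul (by norm_num) (by positivity), Real.log_exp] at h
    linarith
  have l1K : Real.log (1 + K) ≤ 2 + 0.49 * l := by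
    have h1 : (1 + K) ≤ 2 * K := by linarith
    have h := Real.log_le_log (by positivity) h1
    rw [Real.log_mul (by norm_num) (by positivity)] at h
    linarith
  have lL2 : Real.log L ≤ 0.02 * l := by
    have h := Real.log_le_log (by positivity) hL2
    rwa [Real.log_exp] at h
  have l200 : Real.log 200 ≤ 8 := by
    have : Real.log 200 ≤ Real.log (2 ^ 8) := Real.log_le_log (by norm_num) (by norm_num)
    rw [Real.log_pow] at this
    push_cast at this
    linarith
  have lL1 : 0.02 * l - 8 ≤ Real.log L := by
    have h := Real.log_le_log (by positivity) hL1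
    rw [Real.log_exp, Real.log_mul (by norm_num) (by positivity)] at h
    linarith
  have la2 : Real.log a ≤ 1 + 0.0033 * l := by
    have h := Real.log_le_log (by positivity) ha2
    rw [Real.log_mul (by norm_num) (by positivity), Real.log_exp] at h
    linarith
  have la1 : 0.0033 * l ≤ Real.log a := by
    have h := Real.log_le_log (by positivity) ha1
    rwa [Real.log_exp] at h
  have lB : Real.log B ≤ 2 + 0.0167 * l := by
    have h := Real.log_le_log (by positivity) hBa
    rw [Real.log_mul (by positivity) (by positivity), Real.log_mul (by norm_num) (by positivity)]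
      at h
    have h4 : Real.log 4 ≤ 2 := by
      have : Real.log 4 = 2 * Real.log 2 := by
        rw [show (4 : ℝ) = 2 ^ 2 by norm_num, Real.log_pow]; norm_num
      linarith
    linarith
  have l450 : Real.log (3 * 150) ≤ 9 := by
    have : Real.log (3 * 150) ≤ Real.log (2 ^ 9) := Real.log_le_log (by norm_num) (by norm_num)
    rw [Real.log_pow] at this
    push_cast at this
    linarith
  have l900 : Real.log (6 * 150) ≤ 10 := by
    have : Real.log (6 * 150) ≤ Real.log (2 ^ 10) := Real.log_le_log (by norm_num) (by norm_num)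
    rw [Real.log_pow] at this
    push_cast at this
    linarith
  have l450' : Real.log 450 ≤ 9 := by
    rw [show (450 : ℝ) = 3 * 150 by norm_num]; exact l450
  have l900' : Real.log 900 ≤ 10 := by
    rw [show (900 : ℝ) = 6 * 150 by norm_num]; exact l900
  have e1 : 3 * 150 * (1 + K) * (6 * 150 * (2 * L * K) * a ^ (3 * 150 - 1)) ^ 2
      * B ^ (3 * 150 - 1) = ((450 * (1 + K)) * ((900 * ((2 * L) * K)) * a ^ 449) ^ 2) * B ^ 449 := by
    norm_num
  have e2 : Real.log (((450 * (1 + K)) * ((900 * ((2 * L) * K)) * a ^ 449) ^ 2) * B ^ 449)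
      = Real.log 450 + Real.log (1 + K) + 2 * (Real.log 900 + (Real.log 2 + Real.log L
        + Real.log K) + 449 * Real.log a) + 449 * Real.log B := by
    rw [Real.log_mul (by positivity) (by positivity), Real.log_mul (by positivity) (by positivity),
      Real.log_mul (by norm_num) (by positivity), Real.log_pow, Real.log_pow,
      Real.log_mul (by positivity) (by positivity), Real.log_mul (by norm_num) (by positivity),
      Real.log_mul (by positivity) (by positivity), Real.log_mul (by norm_num) (by positivity),
      Real.log_pow]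
    push_cast
    ring
  rw [← Real.log_lt_log_iff (by positivity) (by positivity), e1, e2, Real.log_pow]
  push_cast
  nlinarith

end FD120
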