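import Pool.Agent.W_fd120a_h34.Defs

set_option autoImplicit false

/-! Cardinality facts used in the assembly. -/

open Finset
open scoped Classical

namespace FD120

theorem PP_card_le (Q : ℤ) (hQ : 0 ≤ Q) : ((PP Q).card : ℤ) ≤ Q := by
  have h : (PP Q).card ≤ (Finset.Ico Q (2 * Q)).card := Finset.card_filter_le _ _
  rw [Int.card_Ico] at h
  have : ((2 * Q - Q).toNat : ℤ) = Q := by
    rw [Int.toNat_of_nonneg] <;> linarith
  have h' : ((PP Q).card : ℤ) ≤ ((2 * Q - Q).toNat : ℤ) := by exact_mod_cast h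
  linarith

theorem Ico_card_real (a : ℤ) (ha : 1 ≤ a) : ((Finset.Ico 1 a).card : ℝ) = (a : ℝ) - 1 := by
  rw [Int.card_Ico]
  have : ((a - 1).toNat : ℤ) = a - 1 := Int.toNat_of_nonneg (by linarith)
  have h2 : (((a - 1).toNat : ℤ) : ℝ) = ((a - 1 : ℤ) : ℝ) := by rw [this]
  push_cast at h2
  exact h2

theorem WW_card_real (a B : ℤ) (ha : 1 ≤ a) (hB : 0 ≤ B) :
    ((WW a B).card : ℝ) = ((a : ℝ) - 1) * (B : ℝ) := by
  unfold WW
  rw [Finset.card_product]
  push_cast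
  rw [Ico_card_real a ha, Int.card_Icc]
  have : ((B + 1 - 1).toNat : ℤ) = B := by
    rw [Int.toNat_of_nonneg] <;> linarith
  have h2 : (((B + 1 - 1).toNat : ℤ) : ℝ) = ((B : ℤ) : ℝ) := by rw [this]
  push_cast at h2
  rw [h2]

theorem Box_card_real (A' B' : ℤ) (hA : 0 ≤ A') (hB : 0 ≤ B') :
    ((Box A' B').card : ℝ) = (2 * (A' : ℝ) + 1) * (2 * (B' : ℝ) + 1) := by
  have key : ∀ x : ℤ, 0 ≤ x → ((Finset.Icc (-x) x).card : ℝ) = 2 * (x : ℝ) + 1 := by
    intro x hx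
    rw [Int.card_Icc]
    have : ((x + 1 - -x).toNat : ℤ) = 2 * x + 1 := by
      rw [Int.toNat_of_nonneg] <;> linarith
    have h2 : (((x + 1 - -x).toNat : ℤ) : ℝ) = ((2 * x + 1 : ℤ) : ℝ) := by rw [this]
    push_cast at h2
    exact h2
  unfold Box
  rw [Finset.card_product]
  push_cast
  rw [key A' hA, key B' hB]

theorem mu_lower (L a : ℤ) (X : ℝ) (hX : 0 < X) (hL : 1 ≤ L) (ha : 2 ≤ a)
    (hPP : (L : ℝ) / X ≤ ((PP L).card : ℝ)) : (a : ℝ) / (4 * X) ≤ mu L a := by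
  have haR : (2 : ℝ) ≤ a := by exact_mod_cast ha
  have hLR : (1 : ℝ) ≤ L := by exact_mod_cast hL
  have h1 : ((PP L).card : ℝ) * (1 / (2 * (L : ℝ))) ≤ ∑ l ∈ PP L, (1 / (l : ℝ)) := by
    rw [← nsmul_eq_mul]
    apply Finset.card_nsmul_le_sum
    intro x hx
    have hx' := (Finset.mem_filter.1 hx).1
    rw [Finset.mem_Ico] at hx'
    have hxL : (L : ℝ) ≤ x := by exact_mod_cast hx'.1
    have hx2 : (x : ℝ) ≤ 2 * L := by exact_mod_cast hx'.2.le
    apply one_div_le_one_div_of_le (by linarith) hx2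
  have h2 : (1 : ℝ) / (2 * X) ≤ ∑ l ∈ PP L, (1 / (l : ℝ)) := by
    refine le_trans ?_ h1
    have := mul_le_mul_of_nonneg_right hPP (by positivity : 0 ≤ 1 / (2 * (L : ℝ)))
    refine le_trans (le_of_eq ?_) this
    field_simp
  unfold mu
  have h3 : (a : ℝ) / 2 ≤ (a : ℝ) - 1 := by linarith
  have := mul_le_mul h3 h2 (by positivity) (by linarith)
  refine le_trans (le_of_eq ?_) this
  field_simp
  norm_num

theorem RR_le (L a : ℤ) (hL : 0 ≤ L) (ha : 1 ≤ a) : RR L a ≤ (a : ℝ) * L := by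
  unfold RR
  have haR : (1 : ℝ) ≤ a := by exact_mod_cast ha
  have hLR : (0 : ℝ) ≤ L := by exact_mod_cast hL
  have h : ((PP L).card : ℝ) ≤ L := by exact_mod_cast PP_card_le L hL
  exact mul_le_mul (by linarith) h (by positivity) (by linarith)

theorem RR_nonneg (L a : ℤ) (ha : 1 ≤ a) : 0 ≤ RR L a := by
  unfold RR
  have haR : (1 : ℝ) ≤ a := by exact_mod_cast ha
  exact mul_nonneg (by linarith) (by positivity)

end FD120
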