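import Pool.Agent.W_fd120a_h34.Fin
import Pool.Agent.W_fd120a_h34.Num
import Pool.Agent.W_fd120a_h34.Par

set_option autoImplicit false

open Finset
open scoped Classical

namespace FD120

/-- The finite inequality, over the reals, divided out. -/
theorem fin_real (k : ℕ) (hk : 1 ≤ k) (N Q L a0 B K A' B' : ℤ) (T Z τ Y0 : ℕ) (res : ℤ → ℤ)
    (hQ : 0 < Q) (hN : 1 ≤ N) (hK : N ≤ K * Q) (h5 : 5 * L * K ≤ Q)
    (ha0 : Prime a0) (ha1 : 2 ≤ a0) (ha : a0 ^ 2 ≤ L) (haB : a0 ≤ B)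
    (h3 : 2 * L ≤ Q) (h4 : 4 * a0 * B * L ≤ Q) (hA' : 0 ≤ A') (hB' : 0 ≤ B')
    (hsize : 3 * (k : ℤ) * (1 + K) * (6 * (k : ℤ) * (2 * L * K) * a0 ^ (3 * k - 1)) ^ 2
      * B ^ (3 * k - 1) < L ^ (4 * k))
    (hZ : (2 * ((3 * k - 1 : ℕ) : ℤ) * (6 * (k : ℤ) * (2 * L * K) * a0 ^ (3 * k - 1)) ^ 2)
        ^ (2 * (3 * k - 1)) * a0 ^ (2 * (3 * k - 1)) ≤ (Z : ℤ))
    (hdiv : ∀ n : ℕ, 0 < n → n ≤ Z → n.divisors.card ≤ τ)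
    (hY : 2 * ((3 * k - 1 : ℕ) : ℤ) * τ * (a0 + B) + ((3 * k - 1 : ℕ) : ℤ) ≤ (Y0 : ℤ)) :
    (((Inc N Q L a0 T res A' B' B).card : ℝ) / (((2 * (A' : ℝ) + 1) * (2 * (B' : ℝ) + 1))
        * ((a0 : ℝ) - 1) * (((a0 : ℝ) - 1) * (B : ℝ)))) ^ (2 * (4 * k + 1)) ≤
      ((4 * k + 1 : ℕ) : ℝ) ^ 2 / ((a0 : ℝ) - 1)
        + ((2 * Y0 + 1 : ℕ) : ℝ) / (((a0 : ℝ) - 1) * (B : ℝ))
        + ((T : ℝ) ^ 2 * (II N Q res : ℝ)) / (((2 * (A' : ℝ) + 1) * (2 * (B' : ℝ) + 1))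
        * ((a0 : ℝ) - 1) * (((a0 : ℝ) - 1) * (B : ℝ)) ^ 2) := by
  have hfin := fin_main k hk N Q L a0 B K A' B' T Z τ Y0 res hQ hN hK h5 ha0 (by linarith) ha haB
    h3 h4 hsize hZ hdiv hY
  have haR : (2 : ℝ) ≤ a0 := by exact_mod_cast ha1
  have haBR : (a0 : ℝ) ≤ B := by exact_mod_cast haB
  have hA'R : (0 : ℝ) ≤ A' := by exact_mod_cast hA'
  have hB'R : (0 : ℝ) ≤ B' := by exact_mod_cast hB'
  have hvv := Ico_card_real a0 (by linarith)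
  have hww := WW_card_real a0 B (by linarith) (by linarith)
  have hPP := Box_card_real A' B' hA' hB'
  apply divide_out (4 * k)
  · positivity
  · linarith
  · apply mul_pos <;> linarith
  · rw [← hvv, ← hPP]
    rw [hvv, ← hww, ← hvv]
    have h1 := (Nat.cast_le (α := ℝ)).2 hfin
    push_cast at h1 ⊢
    exact h1

end FD120
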