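import Pool.Agent.W_fd120a_h34.Defs

set_option autoImplicit false

open Finset Polynomial
open scoped Classical

namespace FD120

theorem hom_rat (d : ℕ) (P : ℤ[X]) (hP : P.natDegree ≤ d) (x y : ℤ) (hx : x ≠ 0) :
    ((hom d P x y : ℤ) : ℚ) = (x : ℚ) ^ d * Polynomial.aeval ((y : ℚ) / (x : ℚ)) P := by
  have hx' : (x : ℚ) ≠ 0 := by exact_mod_cast hx
  rw [Polynomial.aeval_eq_sum_range' (Nat.lt_succ_of_le hP), Finset.mul_sum]
  unfold hom
  push_cast
  refine Finset.sum_congr rfl fun j hj => ?_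
  have hj' : j ≤ d := Nat.lt_succ_iff.1 (Finset.mem_range.1 hj)
  have h1 : (x : ℚ) ^ d = (x : ℚ) ^ (d - j) * (x : ℚ) ^ j := by
    rw [← pow_add, Nat.sub_add_cancel hj']
  rw [zsmul_eq_mul, div_pow, h1]
  field_simp

theorem hom_add (d : ℕ) (P R : ℤ[X]) (x y : ℤ) :
    hom d (P + R) x y = hom d P x y + hom d R x y := by
  unfold hom
  rw [← Finset.sum_add_distrib]
  refine Finset.sum_congr rfl fun j _ => ?_
  rw [Polynomial.coeff_add]
  ring

theorem hom_mul (d e : ℕ) (P R : ℤ[X]) (hP : P.natDegree ≤ d) (hR : R.natDegree ≤ e)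
    (x y : ℤ) (hx : x ≠ 0) :
    hom (d + e) (P * R) x y = hom d P x y * hom e R x y := by
  have h1 := hom_rat (d + e) (P * R) (Polynomial.natDegree_mul_le.trans (add_le_add hP hR)) x y hx
  have h2 := hom_rat d P hP x y hx
  have h3 := hom_rat e R hR x y hx
  have h4 : ((hom (d + e) (P * R) x y : ℤ) : ℚ) = ((hom d P x y * hom e R x y : ℤ) : ℚ) := by
    push_cast
    rw [h1, h2, h3, map_mul, pow_add]
    ring
  exact_mod_cast h4

theorem hom_C (d : ℕ) (M x y : ℤ) : hom d (Polynomial.C M) x y = M * x ^ d := by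
  unfold hom
  rw [Finset.sum_eq_single 0]
  · rw [Polynomial.coeff_C_zero, Nat.sub_zero, pow_zero, mul_one]
  · intro j _ hj
    rw [Polynomial.coeff_C_of_ne_zero hj]
    ring
  · intro h
    exact absurd (Finset.mem_range.2 (Nat.succ_pos d)) h

theorem hom_abs_le (d : ℕ) (P : ℤ[X]) (H B : ℤ) (hH : ∀ j, |P.coeff j| ≤ H) (x y : ℤ)
    (hx : |x| ≤ B) (hy : |y| ≤ B) : |hom d P x y| ≤ ((d : ℤ) + 1) * H * B ^ d := by
  have hB : 0 ≤ B := (abs_nonneg x).trans hx
  have hH0 : 0 ≤ H := (abs_nonneg _).trans (hH 0)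
  unfold hom
  calc |∑ j ∈ Finset.range (d + 1), P.coeff j * x ^ (d - j) * y ^ j|
      ≤ ∑ j ∈ Finset.range (d + 1), |P.coeff j * x ^ (d - j) * y ^ j| :=
        Finset.abs_sum_le_sum_abs _ _
    _ ≤ ∑ _j ∈ Finset.range (d + 1), H * B ^ d := by
        refine Finset.sum_le_sum fun j hj => ?_
        have hj' : j ≤ d := Nat.lt_succ_iff.1 (Finset.mem_range.1 hj)
        rw [abs_mul, abs_mul, abs_pow, abs_pow]
        calc |P.coeff j| * |x| ^ (d - j) * |y| ^ j ≤ H * B ^ (d - j) * B ^ j := by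
              have := hH j
              gcongr
          _ = H * B ^ d := by
              rw [mul_assoc, ← pow_add, Nat.sub_add_cancel hj']
    _ = ((d : ℤ) + 1) * H * B ^ d := by
        rw [Finset.sum_const, Finset.card_range, nsmul_eq_mul]
        push_cast
        ring

theorem hom_congr (d : ℕ) (P : ℤ[X]) (a0 m x y l : ℤ) (h : l ∣ a0 * y - m * x) :
    l ∣ a0 ^ d * hom d P x y - x ^ d * hom d P a0 m := by
  unfold hom
  rw [Finset.mul_sum, Finset.mul_sum, ← Finset.sum_sub_distrib]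
  refine Finset.dvd_sum fun j hj => ?_
  have hj' : j ≤ d := Nat.lt_succ_iff.1 (Finset.mem_range.1 hj)
  have h1 : a0 ^ d = a0 ^ (d - j) * a0 ^ j := by rw [← pow_add, Nat.sub_add_cancel hj']
  have h2 : x ^ d = x ^ (d - j) * x ^ j := by rw [← pow_add, Nat.sub_add_cancel hj']
  have h3 : l ∣ (a0 * y) ^ j - (m * x) ^ j := h.trans (sub_dvd_pow_sub_pow _ _ j)
  have h4 : a0 ^ d * (P.coeff j * x ^ (d - j) * y ^ j) - x ^ d * (P.coeff j * a0 ^ (d - j) * m ^ j)
      = (P.coeff j * x ^ (d - j) * a0 ^ (d - j)) * ((a0 * y) ^ j - (m * x) ^ j) := by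
    rw [h1, h2, mul_pow, mul_pow]
    ring
  rw [h4]
  exact h3.mul_left _

/-- few coprime zeros -/
theorem hom_roots (d : ℕ) (P : ℤ[X]) (hP : P ≠ 0) (hd : P.natDegree ≤ d) (S : Finset (ℤ × ℤ))
    (hS : ∀ w ∈ S, 0 < w.1 ∧ IsCoprime w.1 w.2 ∧ hom d P w.1 w.2 = 0) : S.card ≤ d := by
  have hmap : P.map (Int.castRingHom ℚ) ≠ 0 := by
    rw [Ne, Polynomial.map_eq_zero_iff (Int.cast_injective (α := ℚ))]
    exact hP
  have hinj : Set.InjOn (fun w : ℤ × ℤ => (w.2 : ℚ) / (w.1 : ℚ)) (S : Set (ℤ × ℤ)) := by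
    intro w hw v hv hwv
    obtain ⟨hw0, hwc, -⟩ := hS w hw
    obtain ⟨hv0, hvc, -⟩ := hS v hv
    have h1 := Rat.div_int_inj hw0 hv0 (Int.isCoprime_iff_gcd_eq_one.1 hwc.symm)
      (Int.isCoprime_iff_gcd_eq_one.1 hvc.symm) hwv
    exact Prod.ext h1.2 h1.1
  have hsub : (S.image fun w : ℤ × ℤ => (w.2 : ℚ) / (w.1 : ℚ)).val ⊆
      (P.map (Int.castRingHom ℚ)).roots := by
    intro r hr
    have hr' : r ∈ S.image fun w : ℤ × ℤ => (w.2 : ℚ) / (w.1 : ℚ) := hr
    obtain ⟨w, hw, rfl⟩ := Finset.mem_image.1 hr'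
    obtain ⟨hw0, -, hw1⟩ := hS w hw
    rw [Polynomial.mem_roots hmap, Polynomial.IsRoot.def, Polynomial.eval_map]
    have h1 := hom_rat d P hd w.1 w.2 hw0.ne'
    rw [hw1, Int.cast_zero] at h1
    have h2 : (w.1 : ℚ) ^ d ≠ 0 := pow_ne_zero _ (by exact_mod_cast hw0.ne')
    have h3 := (mul_eq_zero.1 h1.symm).resolve_left h2
    rw [Polynomial.aeval_def] at h3
    exact h3
  calc S.card = (S.image fun w : ℤ × ℤ => (w.2 : ℚ) / (w.1 : ℚ)).card :=
        (Finset.card_image_of_injOn hinj).symm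
    _ ≤ (P.map (Int.castRingHom ℚ)).natDegree := Polynomial.card_le_degree_of_subset_roots hsub
    _ ≤ P.natDegree := Polynomial.natDegree_map_le
    _ ≤ d := hd

/-- few solutions `y` of `hom d P x y = b` -/
theorem hom_fibre (d : ℕ) (P : ℤ[X]) (h1 : 1 ≤ P.natDegree) (hd : P.natDegree ≤ d)
    (x b : ℤ) (hx : x ≠ 0) (S : Finset ℤ) (hS : ∀ y ∈ S, hom d P x y = b) : S.card ≤ d := by
  obtain ⟨F, hF⟩ : ∃ F : ℤ[X], F = (∑ j ∈ Finset.range (d + 1),
    Polynomial.C (P.coeff j * x ^ (d - j)) * Polynomial.X ^ j) - Polynomial.C b := ⟨_, rfl⟩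
  have hcoeff : F.coeff P.natDegree = P.coeff P.natDegree * x ^ (d - P.natDegree) := by
    rw [hF, Polynomial.coeff_sub, Polynomial.finsetSum_coeff, Polynomial.coeff_C_of_ne_zero (by omega),
      sub_zero, Finset.sum_eq_single P.natDegree]
    · rw [Polynomial.coeff_C_mul_X_pow, if_pos rfl]
    · intro j _ hj
      rw [Polynomial.coeff_C_mul_X_pow, if_neg hj.symm]
    · intro h
      exact absurd (Finset.mem_range.2 (Nat.lt_succ_of_le hd)) h
  have hP0 : P ≠ 0 := by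
    rintro rfl
    simp at h1
  have hF0 : F ≠ 0 := by
    intro h0
    rw [h0, Polynomial.coeff_zero] at hcoeff
    exact mul_ne_zero (Polynomial.leadingCoeff_ne_zero.2 hP0) (pow_ne_zero _ hx) hcoeff.symm
  have hdeg : F.natDegree ≤ d := by
    rw [hF]
    refine (Polynomial.natDegree_sub_le _ _).trans (max_le
      (Polynomial.natDegree_sum_le_of_forall_le
      (Finset.range (d + 1)) (fun j => Polynomial.C (P.coeff j * x ^ (d - j)) * Polynomial.X ^ j)
      ?_) ?_)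
    · intro j hj
      refine (Polynomial.natDegree_C_mul_X_pow_le _ _).trans ?_
      exact Nat.lt_succ_iff.1 (Finset.mem_range.1 hj)
    · exact (Polynomial.natDegree_C b).le.trans (Nat.zero_le _)
  refine le_trans (Polynomial.card_le_degree_of_subset_roots (p := F) ?_) hdeg
  intro y hy
  rw [Polynomial.mem_roots hF0, Polynomial.IsRoot.def, hF, Polynomial.eval_sub,
    Polynomial.eval_finsetSum, Polynomial.eval_C]
  have h2 : ∑ j ∈ Finset.range (d + 1), Polynomial.eval y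
      (Polynomial.C (P.coeff j * x ^ (d - j)) * Polynomial.X ^ j) = hom d P x y := by
    unfold hom
    refine Finset.sum_congr rfl fun j _ => ?_
    rw [Polynomial.eval_mul, Polynomial.eval_C, Polynomial.eval_pow, Polynomial.eval_X]
  have hy' : y ∈ S := hy
  rw [h2, hS y hy', sub_self]

end FD120
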