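import Pool.Agent.W_fd120a_h34.Defs

set_option autoImplicit false

open Finset
open scoped Classical

namespace FD120

/-- the arithmetic of the plane through `p, q` -/
theorem inj_arith {Q L a0 A' B' B p q w1 l : ℤ} (hQ : 0 < Q) (ha0 : Prime a0) (h1 : 1 < a0) (h2 : a0 < L)
    (hB : 2 * L + a0 ^ 2 ≤ a0 * B) (hB' : 2 * a0 * Q ≤ L * B') (hA' : 2 * Q + a0 * B' ≤ a0 * A')
    (hp1 : Q ≤ p) (hp2 : p < 2 * Q) (hq1 : Q ≤ q) (hq2 : q < 2 * Q) (hw1 : 1 ≤ w1) (hw2 : w1 < a0)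
    (hl1 : L ≤ l) (hl2 : l < 2 * L) (hl : Prime l) (hd : l ∣ a0 * q - w1 * p) :
    ∃ α β m w2 : ℤ, -A' ≤ α ∧ α ≤ A' ∧ -B' ≤ β ∧ β ≤ B' ∧ 1 ≤ m ∧ m < a0 ∧ 1 ≤ w2 ∧ w2 ≤ B ∧
      a0 * w2 - m * w1 = l ∧ a0 * α + m * β = p ∧ w1 * α + w2 * β = q := by
  have ha0l : ¬ a0 ∣ l := by
    intro h
    have h3 : Associated a0 l := ha0.associated_of_dvd hl h
    rcases Int.associated_iff.1 h3 with h4 | h4 <;> omega
  have hw : IsCoprime a0 w1 := by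
    refine (ha0.coprime_iff_not_dvd).2 fun h => ?_
    have := Int.le_of_dvd (by omega) h
    omega
  obtain ⟨u, v, huv⟩ := hw
  -- `u * a0 + v * w1 = 1`
  obtain ⟨m, hm0, hm1, hmd⟩ : ∃ m : ℤ, 0 ≤ m ∧ m < a0 ∧ a0 ∣ l + m * w1 := by
    refine ⟨(-l * v) % a0, Int.emod_nonneg _ (by omega), Int.emod_lt_of_pos _ (by omega), ?_⟩
    have h3 : a0 ∣ (-l * v) - (-l * v) % a0 := Int.dvd_self_sub_emod
    obtain ⟨c, hc⟩ := h3
    refine ⟨l * u - c * w1, ?_⟩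
    linear_combination (-l) * huv - w1 * hc
  have hm : 1 ≤ m := by
    rcases hm0.lt_or_eq with h | h
    · omega
    · exfalso
      apply ha0l
      rw [← h, zero_mul, add_zero] at hmd
      exact hmd
  obtain ⟨w2, hw2'⟩ := hmd
  obtain ⟨β, hβ⟩ := hd
  have hα : l ∣ w2 * p - m * q := by
    have h3 : l ∣ a0 * (w2 * p - m * q) := ⟨p - m * β, by linear_combination (-p) * hw2' - m * hβ⟩
    rcases hl.dvd_or_dvd h3 with h4 | h4
    · exfalso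
      have := Int.le_of_dvd (by omega) h4
      omega
    · exact h4
  obtain ⟨α, hα⟩ := hα
  have hl0 : l ≠ 0 := by omega
  have e1 : a0 * α + m * β = p := by
    apply mul_left_cancel₀ hl0
    linear_combination (-a0) * hα - m * hβ - p * hw2'
  have e2 : w1 * α + w2 * β = q := by
    apply mul_left_cancel₀ hl0
    linear_combination (-w1) * hα - w2 * hβ - q * hw2'
  have hmw : 0 ≤ m * w1 := by positivity
  have hmw2 : m * w1 ≤ a0 ^ 2 := by nlinarith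
  have hB1 : l * β < 2 * a0 * Q := by nlinarith
  have hB2 : -(2 * a0 * Q) < l * β := by nlinarith
  have hβ1 : β ≤ B' := by
    by_contra hc
    push Not at hc
    have hB'0 : 0 < B' := by
      by_contra hc'
      nlinarith
    nlinarith
  have hβ2 : -B' ≤ β := by
    by_contra hc
    push Not at hc
    have hB'0 : 0 < B' := by
      by_contra hc'
      nlinarith
    nlinarith
  refine ⟨α, β, m, w2, ?_, ?_, hβ2, hβ1, hm, hm1, ?_, ?_, ?_, e1, e2⟩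
  · by_contra hc
    push Not at hc
    nlinarith
  · by_contra hc
    push Not at hc
    nlinarith
  · by_contra hc
    push Not at hc
    nlinarith
  · by_contra hc
    push Not at hc
    nlinarith
  · linarith

/-- Every `(p, q) ∈ EE`, `(w₁, ℓ)` counted by `FF` comes from an incidence in a plane: take
`m ∈ [1, a0)` with `a0 ∣ ℓ + m w₁`, `w₂ = (ℓ + m w₁) / a0`, `β = (a0 q - w₁ p) / ℓ`,
`α = (w₂ p - m q) / ℓ`.  (Show that the image of `Inc` under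
`(π, m, w) ↦ ((p, q), (w₁, ℓ))` contains all of them.) -/
theorem sum_FF_le_Inc (N Q L a0 : ℤ) (T : ℕ) (res : ℤ → ℤ) (A' B' B : ℤ)
    (hQ : 0 < Q) (ha0 : Prime a0) (h1 : 1 < a0) (h2 : a0 < L)
    (hB : 2 * L + a0 ^ 2 ≤ a0 * B) (hB' : 2 * a0 * Q ≤ L * B') (hA' : 2 * Q + a0 * B' ≤ a0 * A') :
    ∑ x ∈ EE N Q T res, FF L a0 x.1 x.2 ≤ (Inc N Q L a0 T res A' B' B).card := by
  have e : ∑ x ∈ EE N Q T res, FF L a0 x.1 x.2 = ((EE N Q T res).sigma fun x =>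
      (Finset.Ico 1 a0 ×ˢ PP L).filter (fun y => y.2 ∣ a0 * x.2 - y.1 * x.1)).card := by
    rw [Finset.card_sigma]
    rfl
  rw [e]
  refine le_trans (Finset.card_le_card ?_) (Finset.card_image_le (s := Inc N Q L a0 T res A' B' B)
    (f := fun y : (ℤ × ℤ) × (ℤ × (ℤ × ℤ)) => (⟨(a0 * y.1.1 + y.2.1 * y.1.2,
      y.2.2.1 * y.1.1 + y.2.2.2 * y.1.2), (y.2.2.1, a0 * y.2.2.2 - y.2.1 * y.2.2.1)⟩ :
        (_ : ℤ × ℤ) × (ℤ × ℤ))))
  rintro ⟨⟨p, q⟩, ⟨w1, l⟩⟩ hx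
  rw [Finset.mem_sigma] at hx
  obtain ⟨hE, hF⟩ := hx
  rw [Finset.mem_filter, Finset.mem_product, Finset.mem_Ico] at hF
  obtain ⟨⟨⟨hw1, hw2⟩, hl⟩, hd⟩ := hF
  have hE' := hE
  unfold EE at hE'
  rw [Finset.mem_filter, Finset.mem_product] at hE'
  obtain ⟨⟨hp, hq⟩, -⟩ := hE'
  unfold PP at hp hq hl
  rw [Finset.mem_filter, Finset.mem_Ico] at hp hq hl
  obtain ⟨α, β, m, w2, g1, g2, g3, g4, g5, g6, g7, g8, g9, g10, g11⟩ := inj_arith hQ ha0 h1 h2 hB hB' hA'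
    hp.1.1 hp.1.2 hq.1.1 hq.1.2 hw1 hw2 hl.1.1 hl.1.2 hl.2 hd
  rw [Finset.mem_image]
  refine ⟨((α, β), (m, (w1, w2))), ?_, ?_⟩
  · unfold Inc
    rw [Finset.mem_filter]
    refine ⟨?_, ?_, ?_⟩
    · simp only [Box, WW, Finset.mem_product, Finset.mem_Icc, Finset.mem_Ico]
      exact ⟨⟨⟨g1, g2⟩, g3, g4⟩, ⟨g5, g6⟩, ⟨hw1, hw2⟩, g7, g8⟩
    · change a0 * w2 - m * w1 ∈ PP L
      rw [g9]
      unfold PP
      rw [Finset.mem_filter, Finset.mem_Ico]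
      exact hl
    · change (a0 * α + m * β, w1 * α + w2 * β) ∈ EE N Q T res
      rw [g10, g11]
      exact hE
  · change (⟨(a0 * α + m * β, w1 * α + w2 * β), (w1, a0 * w2 - m * w1)⟩ : (_ : ℤ × ℤ) × (ℤ × ℤ)) = _
    rw [g9, g10, g11]

end FD120
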