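import Pool.Agent.W_fd120a_h34.Defs

set_option autoImplicit false

open Finset
open scoped Classical

namespace FD120

theorem PP_mem {Q p : ℤ} (h : p ∈ PP Q) : Q ≤ p ∧ p < 2 * Q ∧ Prime p := by
  unfold PP at h
  rw [mem_filter, mem_Ico] at h
  exact ⟨h.1.1, h.1.2, h.2⟩

/-- The number of elements of a residue class. -/
theorem cls_card (N p r : ℤ) (hp : 0 < p) (hN : 0 ≤ N) :
    N - p < p * (((Finset.Icc 1 N).filter (fun n => p ∣ n - r)).card : ℤ) ∧
      p * (((Finset.Icc 1 N).filter (fun n => p ∣ n - r)).card : ℤ) < N + p := by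
  have h1 : (Finset.Icc 1 N).filter (fun n => p ∣ n - r) =
      (Finset.Ioc 0 N).filter (fun n => n ≡ r [ZMOD p]) := by
    ext n
    rw [mem_filter, mem_filter, mem_Icc, mem_Ioc, Int.modEq_comm, Int.modEq_iff_dvd]
    constructor
    · rintro ⟨⟨h1, h2⟩, h3⟩
      exact ⟨⟨by omega, h2⟩, h3⟩
    · rintro ⟨⟨h1, h2⟩, h3⟩
      exact ⟨⟨by omega, h2⟩, h3⟩
  have h2 := Int.Ioc_filter_modEq_card 0 N hp r
  rw [← h1] at h2
  have hpq : (0 : ℚ) < p := by exact_mod_cast hp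
  have hNq : (0 : ℚ) ≤ N := by exact_mod_cast hN
  obtain ⟨A, hA⟩ : ∃ A, A = ⌊((N : ℚ) - r) / p⌋ := ⟨_, rfl⟩
  obtain ⟨B, hB⟩ : ∃ B, B = ⌊(((0 : ℤ) : ℚ) - r) / p⌋ := ⟨_, rfl⟩
  rw [← hA, ← hB] at h2
  have e1 : (A : ℚ) ≤ ((N : ℚ) - r) / p := by
    rw [hA]
    exact Int.floor_le _
  have e2 : ((N : ℚ) - r) / p < A + 1 := by
    rw [hA]
    exact Int.lt_floor_add_one _
  have e3 : (B : ℚ) ≤ (((0 : ℤ) : ℚ) - r) / p := by
    rw [hB]
    exact Int.floor_le _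
  have e4 : (((0 : ℤ) : ℚ) - r) / p < B + 1 := by
    rw [hB]
    exact Int.lt_floor_add_one _
  rw [le_div_iff₀ hpq] at e1 e3
  rw [div_lt_iff₀ hpq] at e2 e4
  have f1 : A * p ≤ N - r := by exact_mod_cast e1
  have f2 : N - r < (A + 1) * p := by exact_mod_cast e2
  have f3 : B * p ≤ 0 - r := by exact_mod_cast e3
  have f4 : 0 - r < (B + 1) * p := by exact_mod_cast e4
  rcases le_total 0 (A - B) with h | h
  · rw [max_eq_left h] at h2
    rw [h2]
    constructor <;> nlinarith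
  · rw [max_eq_right h] at h2
    rw [h2]
    constructor
    · nlinarith
    · linarith

theorem II_lower (N Q : ℤ) (res : ℤ → ℤ) (hQ : 0 < Q) (hN : 4 * Q ≤ N) :
    ((PP Q).card : ℤ) * N ≤ 4 * Q * (II N Q res : ℤ) := by
  unfold II
  rw [Nat.cast_sum, mul_sum, Finset.cast_card, sum_mul]
  refine sum_le_sum fun p hp => ?_
  obtain ⟨h1, h2, h3⟩ := PP_mem hp
  obtain ⟨h4, -⟩ := cls_card N p (res p) (by linarith) (by linarith)
  obtain ⟨k, hk⟩ : ∃ k : ℤ, k = (((Finset.Icc 1 N).filter (fun n => p ∣ n - res p)).card : ℤ) :=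
    ⟨_, rfl⟩
  have hk0 : 0 ≤ k := by
    rw [hk]
    exact Int.natCast_nonneg _
  rw [← hk] at h4 ⊢
  nlinarith

theorem II_upper (N Q : ℤ) (res : ℤ → ℤ) (hQ : 0 < Q) (hN : Q ≤ N) :
    Q * (II N Q res : ℤ) ≤ 2 * N * ((PP Q).card : ℤ) := by
  unfold II
  rw [Nat.cast_sum, mul_sum, Finset.cast_card, mul_sum]
  refine sum_le_sum fun p hp => ?_
  obtain ⟨h1, h2, h3⟩ := PP_mem hp
  obtain ⟨-, h4⟩ := cls_card N p (res p) (by linarith) (by linarith)
  obtain ⟨k, hk⟩ : ∃ k : ℤ, k = (((Finset.Icc 1 N).filter (fun n => p ∣ n - res p)).card : ℤ) :=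
    ⟨_, rfl⟩
  have hk0 : 0 ≤ k := by
    rw [hk]
    exact Int.natCast_nonneg _
  rw [← hk] at h4 ⊢
  rcases hk0.eq_or_lt with h0 | h0
  · rw [← h0]
    linarith
  · nlinarith

/-- double counting: the incidences are also `∑ n, rr n` -/
theorem II_eq (N Q : ℤ) (res : ℤ → ℤ) :
    II N Q res = ∑ n ∈ Finset.Icc 1 N, rr Q res n := by
  unfold II rr
  simp only [card_filter]
  exact sum_comm

/-- The primes whose class contains `n`. -/
noncomputable def CC (Q : ℤ) (res : ℤ → ℤ) (n : ℤ) : Finset ℤ :=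
  (PP Q).filter (fun p => p ∣ n - res p)

theorem CC_unique {N Q : ℤ} {res : ℤ → ℤ} (hQ : 0 < Q) (hN : N ≤ Q ^ 2) {n n' : ℤ}
    (hn : n ∈ Finset.Icc 1 N) (hn' : n' ∈ Finset.Icc 1 N) {x : ℤ × ℤ}
    (hx : x ∈ (CC Q res n).offDiag) (hx' : x ∈ (CC Q res n').offDiag) : n = n' := by
  unfold CC at hx hx'
  rw [mem_offDiag, mem_filter, mem_filter] at hx hx'
  obtain ⟨⟨h1, h2⟩, ⟨h3, h4⟩, h5⟩ := hx
  obtain ⟨⟨-, h6⟩, ⟨-, h7⟩, -⟩ := hx'
  obtain ⟨p, q⟩ := x
  simp only at h1 h2 h3 h4 h5 h6 h7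
  obtain ⟨a1, a2, a3⟩ := PP_mem h1
  obtain ⟨b1, b2, b3⟩ := PP_mem h3
  have hp : p ∣ n - n' := by
    have h := dvd_sub h2 h6
    rwa [sub_sub_sub_cancel_right] at h
  have hq : q ∣ n - n' := by
    have h := dvd_sub h4 h7
    rwa [sub_sub_sub_cancel_right] at h
  have hcop : IsCoprime p q := by
    rw [Int.isCoprime_iff_gcd_eq_one, Int.gcd]
    refine (Nat.coprime_primes (Int.prime_iff_natAbs_prime.1 a3)
      (Int.prime_iff_natAbs_prime.1 b3)).2 fun h => h5 ?_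
    omega
  have hpq : p * q ∣ n - n' := hcop.mul_dvd hp hq
  by_contra hne
  rw [mem_Icc] at hn hn'
  have hle : |p * q| ≤ |n - n'| := by
    rw [← abs_dvd_abs] at hpq
    exact Int.le_of_dvd (abs_pos.2 (sub_ne_zero.2 hne)) hpq
  have h8 : |n - n'| < N := by
    rw [abs_lt]
    constructor <;> linarith [hn.1, hn.2, hn'.1, hn'.2]
  have h9 : p * q ≤ |p * q| := le_abs_self _
  nlinarith

theorem pairs_le (N Q : ℤ) (res : ℤ → ℤ) (hQ : 0 < Q) (hN : N ≤ Q ^ 2) :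
    ∑ n ∈ Finset.Icc 1 N, ((CC Q res n).offDiag).card ≤ (PP Q).card ^ 2 := by
  rw [← card_biUnion, sq, ← card_product]
  · refine card_le_card fun x hx => ?_
    rw [mem_biUnion] at hx
    obtain ⟨n, -, hx⟩ := hx
    rw [mem_offDiag] at hx
    exact mem_product.2 ⟨(mem_filter.1 hx.1).1, (mem_filter.1 hx.2.1).1⟩
  · intro n hn n' hn' hne
    rw [Function.onFun, disjoint_left]
    intro x hx hx'
    exact hne (CC_unique hQ hN hn hn' hx hx')

theorem pairs_EE (N Q : ℤ) (T : ℕ) (res : ℤ → ℤ) (hQ : 0 < Q) (hN : N ≤ Q ^ 2) :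
    ∑ n ∈ (Finset.Icc 1 N).filter (fun n => rr Q res n ≤ T), ((CC Q res n).offDiag).card ≤
      (EE N Q T res).card := by
  rw [← card_biUnion]
  · refine card_le_card fun x hx => ?_
    rw [mem_biUnion] at hx
    obtain ⟨n, hn, hx⟩ := hx
    rw [mem_filter, mem_Icc] at hn
    rw [mem_offDiag] at hx
    obtain ⟨h1, h2⟩ := mem_filter.1 hx.1
    obtain ⟨h3, h4⟩ := mem_filter.1 hx.2.1
    unfold EE
    exact mem_filter.2 ⟨mem_product.2 ⟨h1, h3⟩, hx.2.2, n, hn.1.1, hn.1.2, h2, h4, hn.2⟩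
  · intro n hn n' hn' hne
    rw [Function.onFun, disjoint_left]
    intro x hx hx'
    exact hne (CC_unique hQ hN (mem_filter.1 hn).1 (mem_filter.1 hn').1 hx hx')

/-- Many good pairs if the sieved set is small. -/
theorem lemA (N Q : ℤ) (T : ℕ) (res : ℤ → ℤ) (hQ : 0 < Q) (hN : N ≤ Q ^ 2)
    (hT : 4 * (PP Q).card ^ 2 ≤ T * II N Q res) (hS : 8 * (SS N Q res).card ≤ II N Q res) :
    (II N Q res) ^ 2 ≤ 4 * (SS N Q res).card * (EE N Q T res).card := by
  obtain ⟨J, hJ⟩ : ∃ J : Finset ℤ, J = (Finset.Icc 1 N).filter (fun n => rr Q res n ≤ T) :=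
    ⟨_, rfl⟩
  have hoff : ∀ n, ((((CC Q res n).offDiag).card : ℕ) : ℝ) = (rr Q res n : ℝ) ^ 2 - rr Q res n := by
    intro n
    have h1 : (CC Q res n).card = rr Q res n := rfl
    rw [offDiag_card, h1, Nat.cast_sub (Nat.le_mul_self _), Nat.cast_mul]
    ring
  have hII : (II N Q res : ℝ) = ∑ n ∈ Finset.Icc 1 N, (rr Q res n : ℝ) := by
    rw [II_eq, Nat.cast_sum]
  -- the incidences of multiplicity at most `T`
  obtain ⟨A, hA⟩ : ∃ A : ℝ, A = ∑ n ∈ J, (rr Q res n : ℝ) := ⟨_, rfl⟩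
  have hA0 : 0 ≤ A := by
    rw [hA]
    exact sum_nonneg fun n _ => Nat.cast_nonneg _
  have hP := pairs_le N Q res hQ hN
  have hP' : ∑ n ∈ Finset.Icc 1 N, ((rr Q res n : ℝ) ^ 2 - rr Q res n) ≤ ((PP Q).card : ℝ) ^ 2 := by
    have h : ((∑ n ∈ Finset.Icc 1 N, ((CC Q res n).offDiag).card : ℕ) : ℝ) ≤
        (((PP Q).card ^ 2 : ℕ) : ℝ) := by exact_mod_cast hP
    rw [Nat.cast_sum, Nat.cast_pow] at h
    simpa only [hoff] using h
  have hE := pairs_EE N Q T res hQ hN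
  have hE' : ∑ n ∈ J, ((rr Q res n : ℝ) ^ 2 - rr Q res n) ≤ ((EE N Q T res).card : ℝ) := by
    have h : ((∑ n ∈ (Finset.Icc 1 N).filter (fun n => rr Q res n ≤ T),
        ((CC Q res n).offDiag).card : ℕ) : ℝ) ≤ ((EE N Q T res).card : ℝ) := by exact_mod_cast hE
    rw [← hJ, Nat.cast_sum] at h
    simpa only [hoff] using h
  have hTr : 4 * ((PP Q).card : ℝ) ^ 2 ≤ T * (II N Q res : ℝ) := by exact_mod_cast hT
  have hSr : 8 * ((SS N Q res).card : ℝ) ≤ (II N Q res : ℝ) := by exact_mod_cast hS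
  have hI0 : (0 : ℝ) ≤ (II N Q res : ℝ) := Nat.cast_nonneg _
  -- `A ≥ 3/4 II`
  have hA34 : 3 * (II N Q res : ℝ) ≤ 4 * A := by
    have h1 : (T : ℝ) * ((II N Q res : ℝ) - A) ≤ ((PP Q).card : ℝ) ^ 2 := by
      refine le_trans ?_ hP'
      have h2 : (II N Q res : ℝ) - A = ∑ n ∈ (Finset.Icc 1 N).filter (fun n => ¬ rr Q res n ≤ T),
          (rr Q res n : ℝ) := by
        rw [hII, hA, hJ, ← sum_filter_add_sum_filter_not (Finset.Icc 1 N)
          (fun n => rr Q res n ≤ T)]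
        ring
      rw [h2, mul_sum]
      refine le_trans (sum_le_sum (g := fun n => (rr Q res n : ℝ) ^ 2 - rr Q res n) ?_)
        (sum_le_sum_of_subset_of_nonneg (filter_subset _ _) ?_)
      · intro n hn
        have h3 : T + 1 ≤ rr Q res n := by
          have := (mem_filter.1 hn).2
          omega
        have h4 : (T : ℝ) + 1 ≤ rr Q res n := by exact_mod_cast h3
        have h5 : (0 : ℝ) ≤ rr Q res n := Nat.cast_nonneg _
        nlinarith
      · intro n _ _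
        rw [← hoff]
        exact Nat.cast_nonneg _
    rcases Nat.eq_zero_or_pos T with h0 | h0
    · have h2 : (PP Q).card = 0 := by
        rw [h0] at hT
        nlinarith
      have h3 : II N Q res = 0 := by
        unfold II
        rw [card_eq_zero.1 h2, sum_empty]
      rw [h3]
      simpa using hA0
    · have hT0 : (0 : ℝ) < T := by exact_mod_cast h0
      have h2 : (T : ℝ) * (4 * ((II N Q res : ℝ) - A)) ≤ T * (II N Q res : ℝ) := by linarith
      have h3 := le_of_mul_le_mul_left h2 hT0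
      linarith
  -- Cauchy-Schwarz
  have hCS : A ^ 2 ≤ ((SS N Q res).card : ℝ) * ∑ n ∈ J, (rr Q res n : ℝ) ^ 2 := by
    have h1 : A = ∑ n ∈ J ∩ SS N Q res, (rr Q res n : ℝ) := by
      rw [hA]
      symm
      refine sum_subset inter_subset_left fun n hn hn' => ?_
      by_contra hne
      apply hn'
      refine mem_inter.2 ⟨hn, ?_⟩
      have h2 : rr Q res n ≠ 0 := fun h => hne (by rw [h, Nat.cast_zero])
      obtain ⟨q, hq⟩ := card_ne_zero.1 h2
      obtain ⟨h3, h4⟩ := mem_filter.1 hq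
      rw [hJ] at hn
      exact mem_filter.2 ⟨(mem_filter.1 hn).1, q, h3, h4⟩
    rw [h1]
    have h2 := sq_sum_le_card_mul_sum_sq (s := J ∩ SS N Q res) (f := fun n => (rr Q res n : ℝ))
    refine h2.trans ?_
    refine mul_le_mul ?_ ?_ (sum_nonneg fun n _ => sq_nonneg _) (Nat.cast_nonneg _)
    · exact_mod_cast card_le_card inter_subset_right
    · exact sum_le_sum_of_subset_of_nonneg inter_subset_left fun n _ _ => sq_nonneg _
  rw [sum_sub_distrib, ← hA] at hE'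
  have hS0 : (0 : ℝ) ≤ ((SS N Q res).card : ℝ) := Nat.cast_nonneg _
  have h1 : A ^ 2 - A * ((SS N Q res).card : ℝ) ≤
      ((SS N Q res).card : ℝ) * ((EE N Q T res).card : ℝ) := by
    have h2 : ((SS N Q res).card : ℝ) * (∑ n ∈ J, (rr Q res n : ℝ) ^ 2 - A) ≤
        ((SS N Q res).card : ℝ) * ((EE N Q T res).card : ℝ) := mul_le_mul_of_nonneg_left hE' hS0
    nlinarith
  have h3 : (II N Q res : ℝ) ^ 2 ≤ 4 * ((SS N Q res).card : ℝ) * ((EE N Q T res).card : ℝ) := by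
    have h4 : (3 / 4 * (II N Q res : ℝ)) * (5 / 8 * (II N Q res : ℝ)) ≤
        A * (A - ((SS N Q res).card : ℝ)) := by
      refine mul_le_mul (by linarith) (by linarith) (by positivity) hA0
    nlinarith
  exact_mod_cast h3

end FD120
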