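import Pool.Agent.W_fd120a_h34.Mom

set_option autoImplicit false

open Finset
open scoped Classical

namespace FD120

/-- Lower bound for `∑_{(p,q) ∈ E} FF L a0 p q`, from `x ≥ μ/2 - (x - μ)² / (2 μ)`. -/
theorem lower_sum (Q L a0 : ℤ) (hQ : 0 < Q) (ha0 : Prime a0) (h1 : 1 < a0) (h2 : a0 < L)
    (h3 : 2 * L ≤ Q) (hmu : 0 < mu L a0) (E : Finset (ℤ × ℤ)) (hE : E ⊆ PP Q ×ˢ PP Q) :
    (mu L a0 / 2) * (E.card : ℝ)
        - ((PP Q).card : ℝ) * (mu L a0 * Q + 4 * (RR L a0) ^ 2) / (2 * mu L a0)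
      ≤ ((∑ x ∈ E, FF L a0 x.1 x.2 : ℕ) : ℝ) := by
  have hpt : ∀ x : ℝ, mu L a0 / 2 - (x - mu L a0) ^ 2 / (2 * mu L a0) ≤ x := by
    intro x
    have h4 : x - (mu L a0 / 2 - (x - mu L a0) ^ 2 / (2 * mu L a0)) =
        x ^ 2 / (2 * mu L a0) := by
      field_simp
      ring
    have h5 : 0 ≤ x ^ 2 / (2 * mu L a0) := by positivity
    linarith
  have hsum : ∑ x ∈ E, (mu L a0 / 2 - ((FF L a0 x.1 x.2 : ℝ) - mu L a0) ^ 2 / (2 * mu L a0)) ≤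
      ∑ x ∈ E, (FF L a0 x.1 x.2 : ℝ) :=
    Finset.sum_le_sum fun x _ => hpt _
  have hsq : ∑ x ∈ E, ((FF L a0 x.1 x.2 : ℝ) - mu L a0) ^ 2 ≤
      ((PP Q).card : ℝ) * (mu L a0 * Q + 4 * (RR L a0) ^ 2) := by
    have hPI : PP Q ⊆ Finset.Ico Q (2 * Q) := Finset.filter_subset _ _
    have hE2 : E ⊆ PP Q ×ˢ Finset.Ico Q (2 * Q) :=
      hE.trans (Finset.product_subset_product (Finset.Subset.refl _) hPI)
    calc ∑ x ∈ E, ((FF L a0 x.1 x.2 : ℝ) - mu L a0) ^ 2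
        ≤ ∑ x ∈ PP Q ×ˢ Finset.Ico Q (2 * Q), ((FF L a0 x.1 x.2 : ℝ) - mu L a0) ^ 2 :=
          Finset.sum_le_sum_of_subset_of_nonneg hE2 fun x _ _ => sq_nonneg _
      _ = ∑ p ∈ PP Q, ∑ q ∈ Finset.Ico Q (2 * Q), ((FF L a0 p q : ℝ) - mu L a0) ^ 2 :=
          Finset.sum_product _ _ _
      _ ≤ ∑ p ∈ PP Q, (mu L a0 * Q + 4 * (RR L a0) ^ 2) := by
          refine Finset.sum_le_sum fun p hp => ?_
          have hp1 := (Finset.mem_filter.1 hp).2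
          have hp2 := (Finset.mem_Ico.1 (Finset.mem_filter.1 hp).1).1
          exact moment2 Q L a0 p hQ ha0 h1 h2 (h3.trans hp2) hp1
      _ = ((PP Q).card : ℝ) * (mu L a0 * Q + 4 * (RR L a0) ^ 2) := by
          rw [Finset.sum_const, nsmul_eq_mul]
  rw [Finset.sum_sub_distrib, Finset.sum_const, nsmul_eq_mul, ← Finset.sum_div] at hsum
  have hdiv : (∑ x ∈ E, ((FF L a0 x.1 x.2 : ℝ) - mu L a0) ^ 2) / (2 * mu L a0) ≤
      ((PP Q).card : ℝ) * (mu L a0 * Q + 4 * (RR L a0) ^ 2) / (2 * mu L a0) :=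
    div_le_div_of_nonneg_right hsq (by positivity)
  rw [Nat.cast_sum]
  linarith

end FD120
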