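import Pool.Agent.W_fd120a_h34.Step
import Pool.Agent.W_fd120a_h34.Blk
import Pool.Agent.W_fd120a_h34.Blk2
import Pool.Agent.W_fd120a_h34.Div
import Pool.Prelude.Def_F_b2ee6af0

set_option autoImplicit false

open Finset Filter Topology
open scoped Classical

namespace FD120

/-- The sieved set of the block `[⌈N^0.51⌉, 2⌈N^0.51⌉)` is at most one class larger than the sieved
set of `[N^0.51, 2 N^0.51)`. -/
theorem SS_card_le (N : ℕ) (Q : ℕ) (a : ℕ → ℤ) (lo hi : ℝ) (hQ : 2 ≤ Q)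
    (hlo : lo ≤ Q) (hQlo : (Q : ℝ) < lo + 1) (hhi : 2 * lo ≤ hi) (hQN : Q ≤ N) :
    (SS (N : ℤ) (Q : ℤ) (fun z => a z.toNat)).card ≤
      N7c497599.sievedCard N a lo hi + (N / Q + 1) := by
  have hsub : SS (N : ℤ) (Q : ℤ) (fun z => a z.toNat) ⊆ N7c497599.sievedSet N a lo hi ∪
      (Finset.Icc (1 : ℤ) N).filter (fun n => ((2 * Q - 1 : ℕ) : ℤ) ∣ n - a (2 * Q - 1)) := by
    intro n hn
    unfold SS at hn
    rw [Finset.mem_filter] at hn
    obtain ⟨hnI, p, hp, hpn⟩ := hn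
    unfold PP at hp
    rw [Finset.mem_filter, Finset.mem_Ico] at hp
    obtain ⟨⟨hp1, hp2⟩, hpp⟩ := hp
    have hp0 : 0 ≤ p := by
      have : (0 : ℤ) ≤ (Q : ℤ) := by positivity
      linarith
    obtain ⟨q, rfl⟩ := Int.eq_ofNat_of_zero_le hp0
    have hqp : q.Prime := Nat.prime_iff_prime_int.2 hpp
    have hq1 : Q ≤ q := by exact_mod_cast hp1
    have hq2 : q < 2 * Q := by exact_mod_cast hp2
    rw [Finset.mem_union]
    have hpn' : (q : ℤ) ∣ n - a q := by simpa using hpn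
    by_cases h : (q : ℝ) < hi
    · left
      unfold N7c497599.sievedSet
      rw [Finset.mem_filter]
      refine ⟨hnI, q, hqp, ?_, h, hpn'⟩
      have : (Q : ℝ) ≤ q := by exact_mod_cast hq1
      linarith
    · right
      have hq3 : q = 2 * Q - 1 := by
        by_contra hne
        apply h
        have h1 : q + 2 ≤ 2 * Q := by omega
        have h2 : (q : ℝ) + 2 ≤ 2 * Q := by exact_mod_cast h1
        linarith
      rw [Finset.mem_filter]
      refine ⟨hnI, ?_⟩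
      rw [← hq3]
      exact hpn'
  have h1 := Finset.card_le_card hsub
  have h2 := Finset.card_union_le (N7c497599.sievedSet N a lo hi)
    ((Finset.Icc (1 : ℤ) N).filter (fun n => ((2 * Q - 1 : ℕ) : ℤ) ∣ n - a (2 * Q - 1)))
  have h3 : ((Finset.Icc (1 : ℤ) N).filter
      (fun n => ((2 * Q - 1 : ℕ) : ℤ) ∣ n - a (2 * Q - 1))).card ≤ N / Q + 1 := by
    have hp0 : 0 < 2 * Q - 1 := by omega
    have h4 := (cls_card (N : ℤ) ((2 * Q - 1 : ℕ) : ℤ) (a (2 * Q - 1)) (by exact_mod_cast hp0)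
      (by positivity)).2
    set c := ((Finset.Icc (1 : ℤ) N).filter
      (fun n => ((2 * Q - 1 : ℕ) : ℤ) ∣ n - a (2 * Q - 1))).card with hc
    have h5 : (2 * Q - 1) * c < N + (2 * Q - 1) := by exact_mod_cast h4
    have h6 : N / (2 * Q - 1) ≤ N / Q := Nat.div_le_div_left (by omega) (by omega)
    rcases Nat.eq_zero_or_pos c with h0 | hcp
    · rw [h0]; exact Nat.zero_le _
    · have h7 : (c - 1) * (2 * Q - 1) ≤ N := by
        have e : c * (2 * Q - 1) = (c - 1) * (2 * Q - 1) + (2 * Q - 1) := by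
          rw [Nat.sub_mul, one_mul, Nat.sub_add_cancel]
          exact Nat.le_mul_of_pos_left _ hcp
        rw [mul_comm, e] at h5
        omega
      have h8 : c - 1 ≤ N / (2 * Q - 1) := (Nat.le_div_iff_mul_le hp0).2 h7
      have h9 := h8.trans h6
      omega
  have h6 : (N7c497599.sievedSet N a lo hi).card = N7c497599.sievedCard N a lo hi := rfl
  omega

theorem rpow_block (l y c : ℝ) (hy : 0 < y) (hyl : y ≤ Real.exp l)
    (h : y ^ (1 - (1e-8 : ℝ)) ≤ c) : y / Real.exp (1e-8 * l) ≤ c := by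
  refine le_trans ?_ h
  rw [Real.rpow_sub hy, Real.rpow_one]
  apply div_le_div_of_nonneg_left hy.le (Real.rpow_pos_of_pos hy _)
  have h1 : y ^ (1e-8 : ℝ) ≤ (Real.exp l) ^ (1e-8 : ℝ) :=
    Real.rpow_le_rpow hy.le hyl (by norm_num)
  rw [← Real.exp_mul] at h1
  refine h1.trans (le_of_eq ?_)
  congr 1; ring

/-- Main theorem. -/
theorem main : ∀ᶠ N : ℕ in atTop, ∀ (a : ℕ → ℤ) (hi : ℝ), 2 * (N : ℝ) ^ (0.51 : ℝ) ≤ hi →
    (N : ℝ) ^ (0.9800025 : ℝ) ≤
      (N7c497599.sievedCard N a ((N : ℝ) ^ (0.51 : ℝ)) hi : ℝ) := by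
  obtain ⟨C, hC0, hdivC⟩ := divisor_bound (1.25e-12 : ℝ) (by norm_num)
  have hcast : Tendsto (fun N : ℕ => (N : ℝ)) atTop atTop := tendsto_natCast_atTop_atTop
  have hlog : Tendsto (fun N : ℕ => Real.log (N : ℝ)) atTop atTop :=
    Real.tendsto_log_atTop.comp hcast
  have E1 : ∀ᶠ N : ℕ in atTop, (10 : ℝ) ^ 12 ≤ Real.log N := hlog.eventually_ge_atTop _
  have E2 : ∀ᶠ N : ℕ in atTop, C + 1 ≤ Real.exp (0.5e-8 * Real.log N) := by
    have h1 : Tendsto (fun N : ℕ => Real.exp (0.5e-8 * Real.log (N : ℝ))) atTop atTop :=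
      Real.tendsto_exp_atTop.comp (hlog.const_mul_atTop (by norm_num))
    exact h1.eventually_ge_atTop _
  have t3 : Tendsto (fun N : ℕ => ⌈(N : ℝ) ^ (0.51 : ℝ)⌉₊) atTop atTop :=
    tendsto_nat_ceil_atTop.comp ((tendsto_rpow_atTop (by norm_num)).comp hcast)
  have E3 := t3.eventually (prime_block2 (1e-8 : ℝ) (by norm_num))
  have t4 : Tendsto (fun N : ℕ => ⌊(N : ℝ) ^ (0.02 : ℝ) / 100⌋₊) atTop atTop := by
    apply tendsto_nat_floor_atTop.comp
    apply Tendsto.atTop_div_const (by norm_num)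
    exact (tendsto_rpow_atTop (by norm_num)).comp hcast
  have E4 := t4.eventually (prime_block (1e-8 : ℝ) (by norm_num))
  filter_upwards [E1, E2, E3, E4, eventually_ge_atTop 1] with N e1 e2 e3 e4 hN1
  intro a hi hhi
  by_contra hcon
  rw [not_le] at hcon
  have hN0 : (0 : ℝ) < N := by exact_mod_cast hN1
  set l := Real.log (N : ℝ) with hl
  have hpow : ∀ e : ℝ, (N : ℝ) ^ e = Real.exp (e * l) := by
    intro e
    rw [Real.rpow_def_of_pos hN0, mul_comm]
  have hNexp : (N : ℝ) = Real.exp l := by rw [hl, Real.exp_log hN0]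
  simp only [hpow] at hcon
  rw [hpow] at e3 e4
  obtain ⟨y, hy1, hy2, hy3⟩ := e4
  set Q := ⌈Real.exp (0.51 * l)⌉₊ with hQdef
  have hE051 : (10 : ℝ) ^ 5 ≤ Real.exp (0.51 * l) := by
    have := Real.add_one_le_exp (0.51 * l); nlinarith
  have hE049 : (10 : ℝ) ^ 5 ≤ Real.exp (0.49 * l) := by
    have := Real.add_one_le_exp (0.49 * l); nlinarith
  have hE002 : (10 : ℝ) ^ 5 ≤ Real.exp (0.02 * l) := by
    have := Real.add_one_le_exp (0.02 * l); nlinarith
  have hNe : (N : ℝ) = Real.exp (0.51 * l) * Real.exp (0.49 * l) := by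
    rw [hNexp, ← Real.exp_add]; congr 1; ring
  have hQ1 : Real.exp (0.51 * l) ≤ Q := Nat.le_ceil _
  have hQ2 : (Q : ℝ) < Real.exp (0.51 * l) + 1 := Nat.ceil_lt_add_one (Real.exp_pos _).le
  have hQN : (Q : ℝ) ≤ N := by
    rw [hNe]; nlinarith [Real.exp_pos (0.51 * l)]
  have hQNn : Q ≤ N := by exact_mod_cast hQN
  have hQ2n : 2 ≤ Q := by
    have : (2 : ℝ) ≤ Q := by linarith
    exact_mod_cast this
  -- y
  have hyR1 : Real.exp (0.02 * l) / 100 - 1 < (y : ℝ) := by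
    have h1 := Nat.sub_one_lt_floor (Real.exp (0.02 * l) / 100)
    have h2 : ((⌊Real.exp (0.02 * l) / 100⌋₊ : ℕ) : ℝ) ≤ (y : ℝ) := by exact_mod_cast hy1
    linarith
  have hyR2 : (y : ℝ) ≤ Real.exp (0.02 * l) / 50 := by
    have h1 := Nat.floor_le (by positivity : 0 ≤ Real.exp (0.02 * l) / 100)
    have h2 : (y : ℝ) ≤ 2 * ((⌊Real.exp (0.02 * l) / 100⌋₊ : ℕ) : ℝ) := by exact_mod_cast hy2
    linarith
  have hyR3 : Real.exp (0.02 * l) ≤ 200 * (y : ℝ) := by linarith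
  have hy0 : (0 : ℝ) < y := by linarith
  have hyN : (y : ℝ) ≤ Real.exp l := by
    have : Real.exp (0.02 * l) ≤ Real.exp l := by apply Real.exp_le_exp.2; linarith
    linarith
  -- the sieved set of the block
  have hS := SS_card_le N Q a (Real.exp (0.51 * l)) hi hQ2n hQ1 hQ2 (by rwa [hpow] at hhi) hQNn
  have hSR : ((SS (N : ℤ) (Q : ℤ) (fun z => a z.toNat)).card : ℝ)
      ≤ (N7c497599.sievedCard N a (Real.exp (0.51 * l)) hi : ℝ) + (((N / Q : ℕ) : ℝ) + 1) := by
    exact_mod_cast hS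
  have hNQ : ((N / Q : ℕ) : ℝ) ≤ Real.exp (0.49 * l) := by
    refine (Nat.cast_div_le).trans ?_
    rw [div_le_iff₀ (by linarith), hNe]
    nlinarith [Real.exp_pos (0.49 * l)]
  have hfinal : ((SS (N : ℤ) (Q : ℤ) (fun z => a z.toNat)).card : ℝ)
      < Real.exp (0.9800026 * l) := by
    have h1 : Real.exp (0.9800026 * l) = Real.exp (0.9800025 * l) * Real.exp (1e-7 * l) := by
      rw [← Real.exp_add]; congr 1; ring
    have h2 : (10 : ℝ) ^ 5 ≤ Real.exp (1e-7 * l) := by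
      have := Real.add_one_le_exp (1e-7 * l); nlinarith
    have h3 : Real.exp (0.49 * l) ≤ Real.exp (0.9800025 * l) := by
      apply Real.exp_le_exp.2; nlinarith
    have h4 := Real.exp_pos (0.9800025 * l)
    nlinarith
  exact main_step l C (N : ℤ) (Q : ℤ) (y : ℤ) e1 (by push_cast; exact hNexp) hC0 hdivC e2
    (by push_cast; exact hQ1) (by push_cast; linarith) (by push_cast; exact hyR3)
    (by push_cast; exact hyR2)
    (by
      push_cast
      exact rpow_block l Q _ (by linarith) (by rw [← hNexp]; exact hQN) e3)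
    (by
      push_cast
      exact rpow_block l y _ hy0 hyN hy3)
    (fun z => a z.toNat) hfinal

end FD120
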