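import Pool.Agent.W_fd120a_h34.Defs

set_option autoImplicit false

open Finset
open scoped Classical

namespace FD120

/-- the number of elements of `[Q, 2Q)` in one class mod `m` -/
theorem mom_class (m Q c : ℤ) (hm : 0 < m) (hQ : 0 < Q) :
    (Q : ℝ) / m - 1 ≤ (((Finset.Ico Q (2 * Q)).filter (fun q => m ∣ q - c)).card : ℝ) ∧
    (((Finset.Ico Q (2 * Q)).filter (fun q => m ∣ q - c)).card : ℝ) ≤ (Q : ℝ) / m + 1 := by
  have hset : (Finset.Ico Q (2 * Q)).filter (fun q => m ∣ q - c) =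
      (Finset.Ico Q (2 * Q)).filter (fun q => q ≡ c [ZMOD m]) := by
    apply Finset.filter_congr
    intro q _
    rw [Int.modEq_comm, Int.modEq_iff_dvd]
  have hcard := Int.Ico_filter_modEq_card Q (2 * Q) hm c
  rw [hset]
  have hmQ : (0 : ℚ) < m := by exact_mod_cast hm
  have hQQ : (0 : ℚ) < Q := by exact_mod_cast hQ
  set A : ℤ := ⌈((2 * Q : ℤ) - c : ℚ) / (m : ℚ)⌉ with hA
  set B : ℤ := ⌈((Q : ℤ) - c : ℚ) / (m : ℚ)⌉ with hB
  have hA1 : (((2 * Q : ℤ) - c : ℚ) / (m : ℚ)) ≤ A := Int.le_ceil _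
  have hA2 : (A : ℚ) < (((2 * Q : ℤ) - c : ℚ) / (m : ℚ)) + 1 := Int.ceil_lt_add_one _
  have hB1 : (((Q : ℤ) - c : ℚ) / (m : ℚ)) ≤ B := Int.le_ceil _
  have hB2 : (B : ℚ) < (((Q : ℤ) - c : ℚ) / (m : ℚ)) + 1 := Int.ceil_lt_add_one _
  have hdiff : (((2 * Q : ℤ) - c : ℚ) / (m : ℚ)) - (((Q : ℤ) - c : ℚ) / (m : ℚ)) = Q / m := by
    push_cast
    rw [← sub_div]
    congr 1
    ring
  have hAB : B ≤ A := by
    rw [hA, hB]
    apply Int.ceil_le_ceil
    apply div_le_div_of_nonneg_right _ hmQ.le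
    push_cast
    linarith
  have hmax : max (A - B) 0 = A - B := max_eq_left (by omega)
  have hcard2 : (((Finset.Ico Q (2 * Q)).filter (fun q => q ≡ c [ZMOD m])).card : ℤ) = A - B := by
    rw [← hmax]
    convert hcard
  have hcard3 : (((Finset.Ico Q (2 * Q)).filter (fun q => q ≡ c [ZMOD m])).card : ℚ) = A - B := by
    exact_mod_cast hcard2
  have e1 : (Q : ℚ) / m - 1 ≤ (((Finset.Ico Q (2 * Q)).filter (fun q => q ≡ c [ZMOD m])).card : ℚ) := by
    rw [hcard3]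
    linarith
  have e2 : (((Finset.Ico Q (2 * Q)).filter (fun q => q ≡ c [ZMOD m])).card : ℚ) ≤ (Q : ℚ) / m + 1 := by
    rw [hcard3]
    linarith
  constructor
  · have e3 : (((Q : ℚ) / m - 1 : ℚ) : ℝ) ≤
        ((((Finset.Ico Q (2 * Q)).filter (fun q => q ≡ c [ZMOD m])).card : ℚ) : ℝ) := by
      exact_mod_cast e1
    push_cast at e3
    exact e3
  · have e3 : ((((Finset.Ico Q (2 * Q)).filter (fun q => q ≡ c [ZMOD m])).card : ℚ) : ℝ) ≤
        (((Q : ℚ) / m + 1 : ℚ) : ℝ) := by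
      exact_mod_cast e2
    push_cast at e3
    exact e3

/-- at most `Q / m + 1` elements if all differences are divisible by `m` -/
theorem mom_up (m Q : ℤ) (hm : 0 < m) (hQ : 0 < Q) (P : ℤ → Prop) [DecidablePred P]
    (hP : ∀ q q', P q → P q' → m ∣ q - q') :
    (((Finset.Ico Q (2 * Q)).filter P).card : ℝ) ≤ (Q : ℝ) / m + 1 := by
  by_cases h : ((Finset.Ico Q (2 * Q)).filter P).Nonempty
  · obtain ⟨c, hc⟩ := h
    have hc' := (Finset.mem_filter.1 hc).2
    have hsub : (Finset.Ico Q (2 * Q)).filter P ⊆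
        (Finset.Ico Q (2 * Q)).filter (fun q => m ∣ q - c) := by
      intro q hq
      rw [Finset.mem_filter] at hq ⊢
      exact ⟨hq.1, hP q c hq.2 hc'⟩
    have h1 : (((Finset.Ico Q (2 * Q)).filter P).card : ℝ) ≤
        (((Finset.Ico Q (2 * Q)).filter (fun q => m ∣ q - c)).card : ℝ) := by
      exact_mod_cast Finset.card_le_card hsub
    exact h1.trans (mom_class m Q c hm hQ).2
  · rw [Finset.not_nonempty_iff_eq_empty] at h
    rw [h, Finset.card_empty]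
    have hmR : (0 : ℝ) < m := by exact_mod_cast hm
    have hQR : (0 : ℝ) < Q := by exact_mod_cast hQ
    push_cast
    positivity

theorem mom_PP {L l : ℤ} (h : l ∈ PP L) : L ≤ l ∧ l < 2 * L ∧ Prime l := by
  unfold PP at h
  rw [Finset.mem_filter, Finset.mem_Ico] at h
  exact ⟨h.1.1, h.1.2, h.2⟩

/-- Second moment of `FF L a0 p` over the integers `q ∈ [Q, 2Q)`.
For `ℓ ≠ ℓ'` the two divisibilities are one class mod `ℓ ℓ'`: at most `Q/(ℓ ℓ') + 1` values of `q`;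
for `ℓ = ℓ'`, `w₁ ≠ w₁'` there is no `q`; diagonal: `Q/ℓ + 1`. -/
theorem moment2 (Q L a0 p : ℤ) (hQ : 0 < Q) (ha0 : Prime a0) (h1 : 1 < a0) (h2 : a0 < L)
    (h3 : 2 * L ≤ p) (hp : Prime p) :
    ∑ q ∈ Finset.Ico Q (2 * Q), ((FF L a0 p q : ℝ) - mu L a0) ^ 2
      ≤ mu L a0 * Q + 4 * (RR L a0) ^ 2 := by
  have hQR : (0 : ℝ) < Q := by exact_mod_cast hQ
  obtain ⟨X, hX⟩ : ∃ X : Finset (ℤ × ℤ), X = Finset.Ico 1 a0 ×ˢ PP L := ⟨_, rfl⟩
  obtain ⟨ind, hind⟩ : ∃ ind : ℤ × ℤ → ℤ → ℝ,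
      ind = fun x q => if x.2 ∣ a0 * q - x.1 * p then 1 else 0 := ⟨_, rfl⟩
  have hXm : ∀ x ∈ X, 1 ≤ x.1 ∧ x.1 < a0 ∧ L ≤ x.2 ∧ x.2 < 2 * L ∧ Prime x.2 := by
    intro x hx
    rw [hX, Finset.mem_product, Finset.mem_Ico] at hx
    obtain ⟨e1, e2, e3⟩ := mom_PP hx.2
    exact ⟨hx.1.1, hx.1.2, e1, e2, e3⟩
  have hFF : ∀ q, (FF L a0 p q : ℝ) = ∑ x ∈ X, ind x q := by
    intro q
    unfold FF
    rw [Finset.card_filter, hX, hind]
    push_cast
    rfl
  have hca : ((Finset.Ico 1 a0).card : ℝ) = (a0 : ℝ) - 1 := by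
    rw [Int.card_Ico]
    have e : ((a0 - 1).toNat : ℤ) = a0 - 1 := Int.toNat_of_nonneg (by omega)
    have e' : (((a0 - 1).toNat : ℤ) : ℝ) = ((a0 - 1 : ℤ) : ℝ) := by rw [e]
    push_cast at e'
    exact e'
  obtain ⟨μ, hμ⟩ : ∃ μ : ℝ, μ = mu L a0 := ⟨_, rfl⟩
  obtain ⟨R, hR⟩ : ∃ R : ℝ, R = RR L a0 := ⟨_, rfl⟩
  have hmu : μ = ∑ x ∈ X, 1 / (x.2 : ℝ) := by
    rw [hμ, hX, Finset.sum_product]
    change mu L a0 = ∑ x ∈ Finset.Ico 1 a0, ∑ y ∈ PP L, 1 / (y : ℝ)
    rw [Finset.sum_const, nsmul_eq_mul, hca]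
    rfl
  have hRR : R = (X.card : ℝ) := by
    rw [hR, hX, Finset.card_product]
    push_cast
    rw [hca]
    rfl
  -- arithmetic facts
  have hndvd : ∀ x ∈ X, ¬ x.2 ∣ a0 := by
    intro x hx hd
    obtain ⟨e1, e2, e3, e4, e5⟩ := hXm x hx
    have := Int.le_of_dvd (by omega) hd
    omega
  have hndvdp : ∀ x ∈ X, ¬ x.2 ∣ p := by
    intro x hx hd
    obtain ⟨e1, e2, e3, e4, e5⟩ := hXm x hx
    have hass := (e5.dvd_prime_iff_associated hp).1 hd
    rw [Int.associated_iff] at hass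
    omega
  have hdiv : ∀ x ∈ X, ∀ q q', x.2 ∣ a0 * q - x.1 * p → x.2 ∣ a0 * q' - x.1 * p → x.2 ∣ q - q' := by
    intro x hx q q' hq hq'
    have hd : x.2 ∣ a0 * (q - q') := by
      have := dvd_sub hq hq'
      have e : a0 * q - x.1 * p - (a0 * q' - x.1 * p) = a0 * (q - q') := by ring
      rwa [e] at this
    exact ((hXm x hx).2.2.2.2.dvd_or_dvd hd).resolve_left (hndvd x hx)
  -- lower bound of the first moment of one indicator
  have hlow : ∀ x ∈ X, (Q : ℝ) / x.2 - 1 ≤ ∑ q ∈ Finset.Ico Q (2 * Q), ind x q := by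
    intro x hx
    obtain ⟨e1, e2, e3, e4, e5⟩ := hXm x hx
    have hcop : IsCoprime x.2 a0 := (Prime.coprime_iff_not_dvd e5).2 (hndvd x hx)
    obtain ⟨u, v, huv⟩ := hcop
    have hsub : (Finset.Ico Q (2 * Q)).filter (fun q => x.2 ∣ q - v * x.1 * p) ⊆
        (Finset.Ico Q (2 * Q)).filter (fun q => x.2 ∣ a0 * q - x.1 * p) := by
      intro q hq
      rw [Finset.mem_filter] at hq ⊢
      refine ⟨hq.1, ?_⟩
      have e : a0 * q - x.1 * p = a0 * (q - v * x.1 * p) - x.2 * (u * x.1 * p) := by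
        linear_combination (x.1 * p) * huv
      rw [e]
      exact dvd_sub (hq.2.mul_left a0) (dvd_mul_right _ _)
    have hcl := (mom_class x.2 Q (v * x.1 * p) (by omega) hQ).1
    have hle : (((Finset.Ico Q (2 * Q)).filter (fun q => x.2 ∣ q - v * x.1 * p)).card : ℝ) ≤
        (((Finset.Ico Q (2 * Q)).filter (fun q => x.2 ∣ a0 * q - x.1 * p)).card : ℝ) := by
      exact_mod_cast Finset.card_le_card hsub
    have heq : ∑ q ∈ Finset.Ico Q (2 * Q), ind x q =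
        (((Finset.Ico Q (2 * Q)).filter (fun q => x.2 ∣ a0 * q - x.1 * p)).card : ℝ) := by
      rw [Finset.card_filter, hind]
      push_cast
      rfl
    rw [heq]
    exact hcl.trans hle
  -- upper bound of the correlation of two indicators
  have hcor : ∀ x ∈ X, ∀ y ∈ X, ∑ q ∈ Finset.Ico Q (2 * Q), ind x q * ind y q ≤
      (if x = y then (Q : ℝ) / x.2 else 0) + Q * (1 / (x.2 : ℝ)) * (1 / (y.2 : ℝ)) + 1 := by
    intro x hx y hy
    obtain ⟨e1, e2, e3, e4, e5⟩ := hXm x hx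
    obtain ⟨f1, f2, f3, f4, f5⟩ := hXm y hy
    have hx0 : (0 : ℝ) < x.2 := by
      have : 0 < x.2 := by omega
      exact_mod_cast this
    have hy0 : (0 : ℝ) < y.2 := by
      have : 0 < y.2 := by omega
      exact_mod_cast this
    have heq : ∑ q ∈ Finset.Ico Q (2 * Q), ind x q * ind y q =
        (((Finset.Ico Q (2 * Q)).filter (fun q => x.2 ∣ a0 * q - x.1 * p ∧
          y.2 ∣ a0 * q - y.1 * p)).card : ℝ) := by
      rw [Finset.card_filter, hind]
      push_cast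
      apply Finset.sum_congr rfl
      intro q _
      by_cases g1 : x.2 ∣ a0 * q - x.1 * p
      · by_cases g2 : y.2 ∣ a0 * q - y.1 * p
        · simp [g1, g2]
        · simp [g1, g2]
      · simp [g1]
    rw [heq]
    have hpos : 0 ≤ (Q : ℝ) * (1 / (x.2 : ℝ)) * (1 / (y.2 : ℝ)) := by positivity
    by_cases hxy : x = y
    · rw [if_pos hxy]
      have hb := mom_up x.2 Q (by omega) hQ (fun q => x.2 ∣ a0 * q - x.1 * p ∧
          y.2 ∣ a0 * q - y.1 * p) (fun q q' hq hq' => hdiv x hx q q' hq.1 hq'.1)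
      linarith
    · rw [if_neg hxy]
      by_cases hl : x.2 = y.2
      · -- no common point
        have hempty : (Finset.Ico Q (2 * Q)).filter (fun q => x.2 ∣ a0 * q - x.1 * p ∧
          y.2 ∣ a0 * q - y.1 * p) = ∅ := by
          rw [Finset.filter_eq_empty_iff]
          rintro q _ ⟨g1, g2⟩
          rw [← hl] at g2
          have hd : x.2 ∣ (x.1 - y.1) * p := by
            have := dvd_sub g2 g1
            have e : a0 * q - y.1 * p - (a0 * q - x.1 * p) = (x.1 - y.1) * p := by ring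
            rwa [e] at this
          have hd2 : x.2 ∣ x.1 - y.1 := (e5.dvd_or_dvd hd).resolve_right (hndvdp x hx)
          have h0 : x.1 - y.1 = 0 := by
            apply Int.eq_zero_of_abs_lt_dvd hd2
            rw [abs_lt]
            constructor <;> omega
          apply hxy
          ext
          · omega
          · exact hl
        rw [hempty, Finset.card_empty]
        push_cast
        linarith
      · have hcop : IsCoprime x.2 y.2 := by
          rw [Prime.coprime_iff_not_dvd e5]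
          intro hd
          have hd2 : x.2 ∣ y.2 - x.2 := dvd_sub hd dvd_rfl
          have h0 : y.2 - x.2 = 0 := by
            apply Int.eq_zero_of_abs_lt_dvd hd2
            rw [abs_lt]
            constructor <;> omega
          apply hl
          omega
        have hb := mom_up (x.2 * y.2) Q (mul_pos (by omega) (by omega)) hQ
          (fun q => x.2 ∣ a0 * q - x.1 * p ∧ y.2 ∣ a0 * q - y.1 * p)
          (fun q q' hq hq' => hcop.mul_dvd (hdiv x hx q q' hq.1 hq'.1) (hdiv y hy q q' hq.2 hq'.2))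
        have e : (Q : ℝ) / ((x.2 * y.2 : ℤ) : ℝ) = Q * (1 / (x.2 : ℝ)) * (1 / (y.2 : ℝ)) := by
          push_cast
          field_simp
        rw [e] at hb
        linarith
  -- second moment
  have hsq : ∑ q ∈ Finset.Ico Q (2 * Q), (FF L a0 p q : ℝ) ^ 2 ≤ μ * Q + Q * μ ^ 2 + R ^ 2 := by
    have e1 : ∑ q ∈ Finset.Ico Q (2 * Q), (FF L a0 p q : ℝ) ^ 2 =
        ∑ x ∈ X, ∑ y ∈ X, ∑ q ∈ Finset.Ico Q (2 * Q), ind x q * ind y q := by
      have e2 : ∀ q ∈ Finset.Ico Q (2 * Q), (FF L a0 p q : ℝ) ^ 2 =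
          ∑ x ∈ X, ∑ y ∈ X, ind x q * ind y q := by
        intro q _
        rw [hFF, pow_two, Finset.sum_mul_sum]
      rw [Finset.sum_congr rfl e2, Finset.sum_comm]
      apply Finset.sum_congr rfl
      intro x _
      rw [Finset.sum_comm]
    rw [e1]
    have e3 : ∑ x ∈ X, ∑ y ∈ X, ∑ q ∈ Finset.Ico Q (2 * Q), ind x q * ind y q ≤
        ∑ x ∈ X, ∑ y ∈ X, ((if x = y then (Q : ℝ) / x.2 else 0) +
          Q * (1 / (x.2 : ℝ)) * (1 / (y.2 : ℝ)) + 1) :=
      Finset.sum_le_sum fun x hx => Finset.sum_le_sum fun y hy => hcor x hx y hy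
    refine e3.trans (le_of_eq ?_)
    have e4 : ∀ x ∈ X, ∑ y ∈ X, ((if x = y then (Q : ℝ) / x.2 else 0) +
          Q * (1 / (x.2 : ℝ)) * (1 / (y.2 : ℝ)) + 1) =
        (Q : ℝ) * (1 / (x.2 : ℝ)) + (1 / (x.2 : ℝ)) * (Q * μ) + R := by
      intro x hx
      rw [Finset.sum_add_distrib, Finset.sum_add_distrib, Finset.sum_ite_eq, if_pos hx,
        ← Finset.mul_sum, ← hmu, Finset.sum_const, nsmul_eq_mul, mul_one, ← hRR]
      ring
    rw [Finset.sum_congr rfl e4, Finset.sum_add_distrib, Finset.sum_add_distrib, ← Finset.mul_sum,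
      ← Finset.sum_mul, ← hmu, Finset.sum_const, nsmul_eq_mul, ← hRR]
    ring
  -- first moment
  have hfirst : μ * Q - R ≤ ∑ q ∈ Finset.Ico Q (2 * Q), (FF L a0 p q : ℝ) := by
    have e1 : ∑ q ∈ Finset.Ico Q (2 * Q), (FF L a0 p q : ℝ) =
        ∑ x ∈ X, ∑ q ∈ Finset.Ico Q (2 * Q), ind x q := by
      rw [Finset.sum_congr rfl (fun q _ => hFF q), Finset.sum_comm]
    rw [e1]
    have e2 : ∑ x ∈ X, ((Q : ℝ) / x.2 - 1) ≤ ∑ x ∈ X, ∑ q ∈ Finset.Ico Q (2 * Q), ind x q :=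
      Finset.sum_le_sum hlow
    have e3 : ∑ x ∈ X, ((Q : ℝ) / x.2 - 1) = μ * Q - R := by
      rw [Finset.sum_sub_distrib, Finset.sum_const, nsmul_eq_mul, mul_one, ← hRR, hmu,
        Finset.sum_mul]
      congr 1
      apply Finset.sum_congr rfl
      intro x _
      ring
    linarith
  have hμR : μ ≤ R := by
    rw [hmu, hRR]
    have : ∑ x ∈ X, 1 / (x.2 : ℝ) ≤ ∑ x ∈ X, (1 : ℝ) := by
      apply Finset.sum_le_sum
      intro x hx
      obtain ⟨e1, e2, e3, e4, e5⟩ := hXm x hx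
      have hx1 : (1 : ℝ) ≤ x.2 := by
        have : 1 ≤ x.2 := by omega
        exact_mod_cast this
      rw [div_le_one (by linarith)]
      exact hx1
    simpa using this
  have hμ0 : 0 ≤ μ := by
    rw [hmu]
    apply Finset.sum_nonneg
    intro x hx
    obtain ⟨e1, e2, e3, e4, e5⟩ := hXm x hx
    have hx1 : (0 : ℝ) < x.2 := by
      have : 0 < x.2 := by omega
      exact_mod_cast this
    positivity
  have hR0 : 0 ≤ R := hμ0.trans hμR
  rw [← hμ, ← hR]
  have hexp : ∑ q ∈ Finset.Ico Q (2 * Q), ((FF L a0 p q : ℝ) - μ) ^ 2 =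
      ∑ q ∈ Finset.Ico Q (2 * Q), (FF L a0 p q : ℝ) ^ 2 -
        2 * μ * ∑ q ∈ Finset.Ico Q (2 * Q), (FF L a0 p q : ℝ) + Q * μ ^ 2 := by
    have e1 : ∀ q ∈ Finset.Ico Q (2 * Q), ((FF L a0 p q : ℝ) - μ) ^ 2 =
        (FF L a0 p q : ℝ) ^ 2 - 2 * μ * (FF L a0 p q : ℝ) + μ ^ 2 := by
      intro q _
      ring
    rw [Finset.sum_congr rfl e1, Finset.sum_add_distrib, Finset.sum_sub_distrib, ← Finset.mul_sum,
      Finset.sum_const, nsmul_eq_mul, Int.card_Ico]
    have e : ((2 * Q - Q).toNat : ℤ) = Q := by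
      rw [Int.toNat_of_nonneg (by omega)]
      ring
    have e' : (((2 * Q - Q).toNat : ℤ) : ℝ) = (Q : ℝ) := by rw [e]
    have e'' : ((2 * Q - Q).toNat : ℝ) = (Q : ℝ) := by exact_mod_cast e'
    rw [e'']
  rw [hexp]
  have hm1 : 2 * μ * (μ * Q - R) ≤ 2 * μ * ∑ q ∈ Finset.Ico Q (2 * Q), (FF L a0 p q : ℝ) :=
    mul_le_mul_of_nonneg_left hfirst (by linarith)
  have hm2 : μ * R ≤ R * R := mul_le_mul_of_nonneg_right hμR hR0
  have hm3 : 0 ≤ R * R := mul_nonneg hR0 hR0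
  nlinarith

end FD120
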