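import Pool.Agent.W_fd120a_h34.Num

set_option autoImplicit false

/-! More real-number lemmas for the assembly. -/

namespace FD120

theorem X_big (l : ℝ) (hl : 10 ^ 12 ≤ l) : (10 : ℝ) ^ 12 ≤ Real.exp (1e-8 * l) := by
  have h1 : (1000 : ℝ) ≤ Real.exp 1000 := by
    have := Real.add_one_le_exp (1000 : ℝ); linarith
  have h2 : Real.exp 4000 ≤ Real.exp (1e-8 * l) := by
    apply Real.exp_le_exp.2; linarith
  have h3 : Real.exp 4000 = Real.exp 1000 ^ 4 := by
    rw [← Real.exp_nat_mul]; norm_num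
  have h4 : (1000 : ℝ) ^ 4 ≤ Real.exp 1000 ^ 4 := pow_le_pow_left₀ (by norm_num) h1 4
  calc (10 : ℝ) ^ 12 = 1000 ^ 4 := by norm_num
    _ ≤ Real.exp 1000 ^ 4 := h4
    _ = Real.exp 4000 := h3.symm
    _ ≤ _ := h2

/-- the size of `Z` -/
theorem Z_log (l K L a : ℝ) (hl : 10 ^ 12 ≤ l) (hK : 1 ≤ K) (hL : 1 ≤ L) (ha : 1 ≤ a)
    (hK' : K ≤ 2 * Real.exp (0.49 * l))
    (hL2 : L ≤ Real.exp (0.02 * l)) (ha2 : a ≤ 2 * Real.exp (0.0033 * l)) :
    (2 * 449 * (6 * 150 * (2 * L * K) * a ^ 449) ^ 2) ^ 898 * a ^ 898 ≤ Real.exp (4000 * l) := by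
  have hlog2 : Real.log 2 ≤ 1 := by
    have := Real.log_two_lt_d9; linarith
  have lK : Real.log K ≤ 1 + 0.49 * l := by
    have h := Real.log_le_log (by positivity) hK'
    rw [Real.log_mul (by norm_num) (by positivity), Real.log_exp] at h
    linarith
  have lL2 : Real.log L ≤ 0.02 * l := by
    have h := Real.log_le_log (by positivity) hL2
    rwa [Real.log_exp] at h
  have la2 : Real.log a ≤ 1 + 0.0033 * l := by
    have h := Real.log_le_log (by positivity) ha2
    rw [Real.log_mul (by norm_num) (by positivity), Real.log_exp] at h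
    linarith
  have l900 : Real.log 900 ≤ 10 := by
    have : Real.log 900 ≤ Real.log (2 ^ 10) := Real.log_le_log (by norm_num) (by norm_num)
    rw [Real.log_pow] at this
    push_cast at this
    linarith
  have l898 : Real.log 898 ≤ 10 := by
    have : Real.log 898 ≤ Real.log (2 ^ 10) := Real.log_le_log (by norm_num) (by norm_num)
    rw [Real.log_pow] at this
    push_cast at this
    linarith
  have e1 : (2 * 449 * (6 * 150 * (2 * L * K) * a ^ 449) ^ 2) ^ 898 * a ^ 898
      = (898 * ((900 * ((2 * L) * K)) * a ^ 449) ^ 2) ^ 898 * a ^ 898 := by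
    norm_num
  have e2 : Real.log ((898 * ((900 * ((2 * L) * K)) * a ^ 449) ^ 2) ^ 898 * a ^ 898)
      = 898 * (Real.log 898 + 2 * (Real.log 900 + (Real.log 2 + Real.log L
        + Real.log K) + 449 * Real.log a)) + 898 * Real.log a := by
    rw [Real.log_mul (by positivity) (by positivity), Real.log_pow,
      Real.log_mul (by norm_num) (by positivity), Real.log_pow,
      Real.log_mul (by positivity) (by positivity), Real.log_mul (by norm_num) (by positivity),
      Real.log_mul (by positivity) (by positivity), Real.log_mul (by norm_num) (by positivity),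
      Real.log_pow, Real.log_pow]
    push_cast
    ring
  rw [← Real.log_le_iff_le_exp (by positivity), e1, e2]
  nlinarith

/-- lower bound for the number of incidences -/
theorem J_lower (l Q L a mu R E I S p J : ℝ) (hl : 10 ^ 12 ≤ l)
    (hQ1 : Real.exp (0.51 * l) ≤ Q) (hQ2 : Q ≤ Real.exp (0.51 * l) * Real.exp (1e-8 * l))
    (hL : 1 ≤ L) (hL2 : L ≤ Real.exp (0.02 * l)) (haL : a ^ 2 ≤ L)
    (ha1 : Real.exp (0.0033 * l) ≤ a)
    (hmu : a / (4 * Real.exp (1e-8 * l)) ≤ mu) (hR0 : 0 ≤ R) (hR : R ≤ a * L)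
    (hI : Real.exp l / (4 * Real.exp (1e-8 * l)) ≤ I)
    (hS : S < Real.exp (0.9800026 * l)) (hS0 : 0 ≤ S) (hE0 : 0 ≤ E) (hE : I ^ 2 ≤ 4 * S * E)
    (hp0 : 0 ≤ p) (hp : p ≤ Q)
    (hJ : mu / 2 * E - p * (mu * Q + 4 * R ^ 2) / (2 * mu) ≤ J) :
    a * Real.exp (1.0199974 * l) / (1024 * Real.exp (1e-8 * l) ^ 3) ≤ J := by
  set X := Real.exp (1e-8 * l) with hX
  have hXb := X_big l hl
  rw [← hX] at hXb
  have hX0 : 0 < X := Real.exp_pos _
  have ha0 : 0 < a := lt_of_lt_of_le (Real.exp_pos _) ha1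
  have hQ0 : 0 < Q := lt_of_lt_of_le (Real.exp_pos _) hQ1
  have hmu0 : 0 < mu := lt_of_lt_of_le (by positivity) hmu
  -- mu ≥ 1
  have hXa : 4 * X ≤ a := by
    have h1 : X * 4 ≤ X * X := by nlinarith
    have h2 : X * X = Real.exp (2e-8 * l) := by
      rw [hX, ← Real.exp_add]; ring_nf
    have h3 : Real.exp (2e-8 * l) ≤ Real.exp (0.0033 * l) := by
      apply Real.exp_le_exp.2; nlinarith
    linarith
  have hmu1 : 1 ≤ mu := by
    refine le_trans ?_ hmu
    rw [le_div_iff₀ (by positivity)]; linarith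
  -- 4 R^2 ≤ mu Q
  have h4R : 4 * R ^ 2 ≤ mu * Q := by
    have h1 : R ^ 2 ≤ (a * L) ^ 2 := by
      apply pow_le_pow_left₀ hR0 hR
    have h2 : (a * L) ^ 2 ≤ L ^ 3 := by
      have : (a * L) ^ 2 = a ^ 2 * L ^ 2 := by ring
      rw [this]
      nlinarith [sq_nonneg L]
    have h3 : L ^ 3 ≤ Real.exp (0.06 * l) := by
      have := pow_le_pow_left₀ (by linarith) hL2 3
      rw [← Real.exp_nat_mul] at this
      have e : ((3 : ℕ) : ℝ) * (0.02 * l) = 0.06 * l := by push_cast; ring
      rwa [e] at this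
    have h4 : 4 * Real.exp (0.06 * l) ≤ Real.exp (0.51 * l) := by
      have e : Real.exp (0.51 * l) = Real.exp (0.06 * l) * Real.exp (0.45 * l) := by
        rw [← Real.exp_add]; ring_nf
      rw [e]
      have : (4 : ℝ) ≤ Real.exp (0.45 * l) := by
        have := Real.add_one_le_exp (0.45 * l)
        nlinarith
      nlinarith [Real.exp_pos (0.06 * l)]
    nlinarith
  -- second term
  have h2nd : p * (mu * Q + 4 * R ^ 2) / (2 * mu) ≤ Q ^ 2 := by
    rw [div_le_iff₀ (by positivity)]
    have : p * (mu * Q + 4 * R ^ 2) ≤ Q * (mu * Q + mu * Q) := by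
      apply mul_le_mul hp (by linarith) (by positivity) (by positivity)
    nlinarith
  have hQsq : Q ^ 2 ≤ Real.exp (1.02 * l) * X ^ 2 := by
    have := pow_le_pow_left₀ hQ0.le hQ2 2
    rw [mul_pow, ← Real.exp_nat_mul (0.51 * l)] at this
    have e : ((2 : ℕ) : ℝ) * (0.51 * l) = 1.02 * l := by push_cast; ring
    rwa [e] at this
  -- E lower
  have hElow : Real.exp (1.0199974 * l) / (64 * X ^ 2) ≤ E := by
    rw [div_le_iff₀ (by positivity)]
    have h1 : (Real.exp l / (4 * X)) ^ 2 ≤ I ^ 2 := pow_le_pow_left₀ (by positivity) hI 2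
    have h2 : 4 * S * E ≤ 4 * Real.exp (0.9800026 * l) * E := by
      apply mul_le_mul_of_nonneg_right _ hE0
      linarith
    have h3 : (Real.exp l / (4 * X)) ^ 2 ≤ 4 * Real.exp (0.9800026 * l) * E := by linarith
    rw [div_pow, div_le_iff₀ (by positivity)] at h3
    have e : Real.exp l ^ 2 = Real.exp (1.0199974 * l) * Real.exp (0.9800026 * l) := by
      rw [← Real.exp_nat_mul, ← Real.exp_add]; congr 1; push_cast; ring
    rw [e] at h3
    have h5 : 0 < Real.exp (0.9800026 * l) := Real.exp_pos _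
    have h6 : Real.exp (1.0199974 * l) * Real.exp (0.9800026 * l)
        ≤ (E * (64 * X ^ 2)) * Real.exp (0.9800026 * l) := by
      refine h3.trans (le_of_eq ?_); ring
    exact le_of_mul_le_mul_right h6 h5
  have hmain : a * Real.exp (1.0199974 * l) / (512 * X ^ 3) ≤ mu / 2 * E := by
    have h1 : a / (8 * X) ≤ mu / 2 := by
      have : a / (8 * X) = (a / (4 * X)) / 2 := by field_simp; norm_num
      rw [this]; linarith
    have := mul_le_mul h1 hElow (by positivity) (by positivity)
    refine le_trans (le_of_eq ?_) this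
    field_simp
    norm_num
  -- Q^2 small
  have hsmall : Real.exp (1.02 * l) * X ^ 2 ≤ a * Real.exp (1.0199974 * l) / (1024 * X ^ 3) := by
    rw [le_div_iff₀ (by positivity)]
    have h1 : Real.exp (1.02 * l) = Real.exp (1.0199974 * l) * Real.exp (0.0000026 * l) := by
      rw [← Real.exp_add]; congr 1; ring
    have h2 : 1024 * X ^ 5 * Real.exp (0.0000026 * l) ≤ a := by
      have h3 : 1024 * X ^ 5 ≤ X ^ 6 := by
        have : X ^ 6 = X * X ^ 5 := by ring
        rw [this]
        apply mul_le_mul_of_nonneg_right _ (by positivity)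
        linarith
      have h4 : X ^ 6 * Real.exp (0.0000026 * l) = Real.exp (0.00000266 * l) := by
        rw [hX, ← Real.exp_nat_mul, ← Real.exp_add]; congr 1; push_cast; ring
      have h5 : Real.exp (0.00000266 * l) ≤ Real.exp (0.0033 * l) := by
        apply Real.exp_le_exp.2; nlinarith
      have h6 : 1024 * X ^ 5 * Real.exp (0.0000026 * l)
          ≤ X ^ 6 * Real.exp (0.0000026 * l) :=
        mul_le_mul_of_nonneg_right h3 (Real.exp_pos _).le
      linarith
    rw [h1]
    have h7 : Real.exp (1.0199974 * l) * (1024 * X ^ 5 * Real.exp (0.0000026 * l))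
        ≤ Real.exp (1.0199974 * l) * a := mul_le_mul_of_nonneg_left h2 (Real.exp_pos _).le
    nlinarith
  have e2 : a * Real.exp (1.0199974 * l) / (512 * X ^ 3)
      = 2 * (a * Real.exp (1.0199974 * l) / (1024 * X ^ 3)) := by
    field_simp; norm_num
  rw [e2] at hmain
  linarith

end FD120
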