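import Pool.Agent.W_fd120a_h34.Num2

set_option autoImplicit false

/-! The final numerical contradiction. -/

namespace FD120

theorem final_num (l Q L a B P v w J τ Y T I : ℝ) (hl : 10 ^ 12 ≤ l)
    (hQ1 : Real.exp (0.51 * l) ≤ Q) (hQ2 : Q ≤ Real.exp (0.51 * l) * Real.exp (1e-8 * l))
    (hL : 1 ≤ L) (hL1 : Real.exp (0.02 * l) ≤ 200 * L)
    (ha1 : Real.exp (0.0033 * l) ≤ a) (hB : 1 ≤ B)
    (hJ : a * Real.exp (1.0199974 * l) / (1024 * Real.exp (1e-8 * l) ^ 3) ≤ J)
    (hP0 : 0 < P) (hP1 : P * L ≤ 162 * Q ^ 2) (hP2 : 16 * Q ^ 2 ≤ P * L)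
    (hv : v = a - 1) (hw1 : w ≤ 4 * L) (hw2 : L ≤ w) (hw3 : a * B / 2 ≤ w)
    (hτ : τ ≤ Real.exp (1e-8 * l)) (hY : Y ≤ 10 ^ 4 * τ * B)
    (hT0 : 0 ≤ T) (hT : T * Real.exp l ≤ 17 * Q ^ 2) (hI0 : 0 ≤ I) (hI : I ≤ 2 * Real.exp l)
    (hfin : (J / (P * v * w)) ^ (2 * (600 + 1)) ≤
      601 ^ 2 / v + Y / w + (T ^ 2 * I) / (P * v * w ^ 2)) : False := by
  set X := Real.exp (1e-8 * l) with hX
  have hXb := X_big l hl
  rw [← hX] at hXb
  have hX0 : 0 < X := Real.exp_pos _
  have ha0 : 0 < a := lt_of_lt_of_le (Real.exp_pos _) ha1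
  have hQ0 : 0 < Q := lt_of_lt_of_le (Real.exp_pos _) hQ1
  have ha2 : 2 ≤ a := by
    have := Real.add_one_le_exp (0.0033 * l)
    nlinarith
  have hv0 : 0 < v := by rw [hv]; linarith
  have hva : a / 2 ≤ v := by rw [hv]; linarith
  have hva' : v ≤ a := by rw [hv]; linarith
  have hL0 : 0 < L := by linarith
  have hw0 : 0 < w := by linarith
  have hQsq : Q ^ 2 ≤ Real.exp (1.02 * l) * X ^ 2 := by
    have := pow_le_pow_left₀ hQ0.le hQ2 2
    rw [mul_pow, ← Real.exp_nat_mul (0.51 * l)] at this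
    have e : ((2 : ℕ) : ℝ) * (0.51 * l) = 1.02 * l := by push_cast; ring
    rwa [e] at this
  -- lower bound for delta
  have hPvw : P * v * w ≤ 648 * Q ^ 2 * a := by
    have h1 : P * v * w ≤ P * a * (4 * L) := by
      apply mul_le_mul _ hw1 hw0.le (by positivity)
      exact mul_le_mul_of_nonneg_left hva' hP0.le
    have h2 : P * a * (4 * L) = (P * L) * (4 * a) := by ring
    rw [h2] at h1
    have h3 : (P * L) * (4 * a) ≤ (162 * Q ^ 2) * (4 * a) :=
      mul_le_mul_of_nonneg_right hP1 (by positivity)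
    linarith
  have hδ : Real.exp (-0.00000266 * l) ≤ J / (P * v * w) := by
    rw [le_div_iff₀ (by positivity)]
    refine le_trans ?_ hJ
    rw [le_div_iff₀ (by positivity)]
    have h1 : Real.exp (-0.00000266 * l) * (P * v * w) * (1024 * X ^ 3)
        ≤ Real.exp (-0.00000266 * l) * (648 * (Real.exp (1.02 * l) * X ^ 2) * a)
          * (1024 * X ^ 3) := by
      apply mul_le_mul_of_nonneg_right _ (by positivity)
      apply mul_le_mul_of_nonneg_left _ (Real.exp_pos _).le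
      refine hPvw.trans ?_
      apply mul_le_mul_of_nonneg_right _ ha0.le
      linarith
    refine h1.trans ?_
    have h2 : Real.exp (-0.00000266 * l) * (648 * (Real.exp (1.02 * l) * X ^ 2) * a)
          * (1024 * X ^ 3) = (663552 * X ^ 5) * (a * (Real.exp (-0.00000266 * l)
            * Real.exp (1.02 * l))) := by ring
    rw [h2]
    have h3 : 663552 * X ^ 5 ≤ X ^ 6 := by
      have : X ^ 6 = X * X ^ 5 := by ring
      rw [this]
      apply mul_le_mul_of_nonneg_right _ (by positivity)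
      linarith
    have h4 : X ^ 6 * (Real.exp (-0.00000266 * l) * Real.exp (1.02 * l))
        = Real.exp (1.0199974 * l) := by
      rw [hX, ← Real.exp_nat_mul, ← Real.exp_add, ← Real.exp_add]; congr 1; push_cast; ring
    calc (663552 * X ^ 5) * (a * (Real.exp (-0.00000266 * l) * Real.exp (1.02 * l)))
        ≤ X ^ 6 * (a * (Real.exp (-0.00000266 * l) * Real.exp (1.02 * l))) :=
          mul_le_mul_of_nonneg_right h3 (by positivity)
      _ = a * (X ^ 6 * (Real.exp (-0.00000266 * l) * Real.exp (1.02 * l))) := by ring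
      _ = a * Real.exp (1.0199974 * l) := by rw [h4]
  have hpow : Real.exp (-0.00319732 * l) ≤ (J / (P * v * w)) ^ (2 * (600 + 1)) := by
    have h1 := pow_le_pow_left₀ (Real.exp_pos _).le hδ (2 * (600 + 1))
    rw [← Real.exp_nat_mul] at h1
    have e : ((2 * (600 + 1) : ℕ) : ℝ) * (-0.00000266 * l) = -0.00319732 * l := by
      push_cast; ring
    rwa [e] at h1
  -- first term
  have t1 : 601 ^ 2 / v ≤ X ^ 3 / a := by
    rw [div_le_div_iff₀ hv0 ha0]
    have h1 : (601 : ℝ) ^ 2 * a ≤ 601 ^ 2 * (2 * v) := by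
      apply mul_le_mul_of_nonneg_left _ (by norm_num); linarith
    have h2 : (601 : ℝ) ^ 2 * 2 ≤ X ^ 3 := by
      have : (10 ^ 12 : ℝ) ^ 3 ≤ X ^ 3 := pow_le_pow_left₀ (by norm_num) hXb 3
      refine le_trans ?_ this
      norm_num
    nlinarith
  -- second term
  have t2 : Y / w ≤ X ^ 3 / a := by
    rw [div_le_div_iff₀ hw0 ha0]
    have h1 : Y * a ≤ (10 ^ 4 * τ * B) * a := mul_le_mul_of_nonneg_right hY ha0.le
    have h2 : (10 ^ 4 * τ * B) * a ≤ (10 ^ 4 * X * B) * a := by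
      apply mul_le_mul_of_nonneg_right _ ha0.le
      apply mul_le_mul_of_nonneg_right _ (by linarith)
      linarith
    have h3 : (10 ^ 4 * X * B) * a = (2 * 10 ^ 4 * X) * (a * B / 2) := by ring
    have h4 : (2 * 10 ^ 4 * X) * (a * B / 2) ≤ (2 * 10 ^ 4 * X) * w :=
      mul_le_mul_of_nonneg_left hw3 (by positivity)
    have h5 : 2 * 10 ^ 4 * X ≤ X ^ 3 := by
      have e : X ^ 3 = X ^ 2 * X := by ring
      rw [e]
      apply mul_le_mul_of_nonneg_right _ hX0.le
      have : (10 ^ 12 : ℝ) ^ 2 ≤ X ^ 2 := pow_le_pow_left₀ (by norm_num) hXb 2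
      refine le_trans ?_ this
      norm_num
    have h6 := mul_le_mul_of_nonneg_right h5 hw0.le
    linarith
  -- third term
  have t3 : (T ^ 2 * I) / (P * v * w ^ 2) ≤ X ^ 3 / a := by
    rw [div_le_div_iff₀ (by positivity) ha0]
    set n := Real.exp l with hn
    have hn0 : 0 < n := Real.exp_pos _
    -- T^2 I n <= 578 Q^4
    have h1 : T ^ 2 * I * n ≤ 578 * Q ^ 4 := by
      have h11 : (T * n) ^ 2 ≤ (17 * Q ^ 2) ^ 2 := pow_le_pow_left₀ (by positivity) hT 2
      have h12 : T ^ 2 * I ≤ T ^ 2 * (2 * n) := mul_le_mul_of_nonneg_left hI (by positivity)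
      have h13 : T ^ 2 * I * n ≤ T ^ 2 * (2 * n) * n := mul_le_mul_of_nonneg_right h12 hn0.le
      nlinarith
    -- 8 Q^2 a L <= P v w^2
    have h2 : 8 * Q ^ 2 * a * L ≤ P * v * w ^ 2 := by
      have h21 : L ^ 2 ≤ w ^ 2 := pow_le_pow_left₀ hL0.le hw2 2
      have h22 : P * (a / 2) * L ^ 2 ≤ P * v * w ^ 2 := by
        apply mul_le_mul _ h21 (by positivity) (by positivity)
        exact mul_le_mul_of_nonneg_left hva hP0.le
      have h23 : P * (a / 2) * L ^ 2 = (P * L) * (a * L / 2) := by ring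
      have h24 : (16 * Q ^ 2) * (a * L / 2) ≤ (P * L) * (a * L / 2) :=
        mul_le_mul_of_nonneg_right hP2 (by positivity)
      nlinarith
    -- Q^2 <= 200 X^2 L n
    have h3 : Q ^ 2 ≤ 200 * L * X ^ 2 * n := by
      have e : Real.exp (1.02 * l) = Real.exp (0.02 * l) * n := by
        rw [hn, ← Real.exp_add]; congr 1; ring
      rw [e] at hQsq
      have : Real.exp (0.02 * l) * (n * X ^ 2) ≤ 200 * L * (n * X ^ 2) :=
        mul_le_mul_of_nonneg_right hL1 (by positivity)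
      nlinarith
    -- conclude
    have h4 : 578 * 25 ≤ X := by linarith
    have h5 : T ^ 2 * I * a * n ≤ 578 * Q ^ 4 * a := by
      have := mul_le_mul_of_nonneg_right h1 ha0.le
      nlinarith
    have h6 : 578 * Q ^ 4 * a ≤ X ^ 3 * (8 * Q ^ 2 * a * L) * n := by
      have e : 578 * Q ^ 4 * a = (578 * Q ^ 2 * a) * Q ^ 2 := by ring
      rw [e]
      have h61 : (578 * Q ^ 2 * a) * Q ^ 2 ≤ (578 * Q ^ 2 * a) * (200 * L * X ^ 2 * n) :=
        mul_le_mul_of_nonneg_left h3 (by positivity)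
      refine h61.trans ?_
      have e2 : (578 * Q ^ 2 * a) * (200 * L * X ^ 2 * n)
          = (578 * 25) * (8 * Q ^ 2 * a * L * X ^ 2 * n) := by ring
      have e3 : X ^ 3 * (8 * Q ^ 2 * a * L) * n = X * (8 * Q ^ 2 * a * L * X ^ 2 * n) := by ring
      rw [e2, e3]
      exact mul_le_mul_of_nonneg_right h4 (by positivity)
    have h7 : X ^ 3 * (8 * Q ^ 2 * a * L) * n ≤ X ^ 3 * (P * v * w ^ 2) * n := by
      apply mul_le_mul_of_nonneg_right _ hn0.le
      exact mul_le_mul_of_nonneg_left h2 (by positivity)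
    have h8 : T ^ 2 * I * a * n ≤ X ^ 3 * (P * v * w ^ 2) * n := by linarith
    exact le_of_mul_le_mul_right h8 hn0
  have hsum : Real.exp (-0.00319732 * l) ≤ 3 * (X ^ 3 / a) := by linarith
  have h9 : 3 * (X ^ 3 / a) ≤ Real.exp (-0.00329996 * l) := by
    have h91 : X ^ 3 / a ≤ X ^ 3 / Real.exp (0.0033 * l) := by
      apply div_le_div_of_nonneg_left (by positivity) (Real.exp_pos _) ha1
    have h92 : X ^ 4 / Real.exp (0.0033 * l) = Real.exp (-0.00329996 * l) := by
      rw [hX, ← Real.exp_nat_mul, ← Real.exp_sub]; congr 1; push_cast; ring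
    have h93 : 3 * (X ^ 3 / Real.exp (0.0033 * l)) ≤ X ^ 4 / Real.exp (0.0033 * l) := by
      rw [← mul_div_assoc]
      apply div_le_div_of_nonneg_right _ (Real.exp_pos _).le
      have : X ^ 4 = X * X ^ 3 := by ring
      rw [this]
      apply mul_le_mul_of_nonneg_right _ (by positivity)
      linarith
    linarith
  have h10 : Real.exp (-0.00329996 * l) < Real.exp (-0.00319732 * l) := by
    apply Real.exp_lt_exp.2; nlinarith
  linarith

end FD120
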