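import Pool.Agent.W_fd120a_h34.LemA
import Pool.Agent.W_fd120a_h34.Num2
import Pool.Agent.W_fd120a_h34.Par

set_option autoImplicit false

/-! Existence of the parameters. -/

open Finset
open scoped Classical

namespace FD120

theorem exists_a0 (l : ℝ) (hl : 10 ^ 12 ≤ l) : ∃ a0 : ℤ, Prime a0 ∧
    Real.exp (0.0033 * l) ≤ (a0 : ℝ) ∧ (a0 : ℝ) ≤ 2 * Real.exp (0.0033 * l) ∧ 2 ≤ a0 := by
  obtain ⟨a0n, ha0p, ha0l, ha0u⟩ := Nat.exists_prime_lt_and_le_two_mul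
    ⌊Real.exp (0.0033 * l)⌋₊ (by
      have : 1 ≤ ⌊Real.exp (0.0033 * l)⌋₊ := by
        apply Nat.le_floor
        have := Real.add_one_le_exp (0.0033 * l)
        push_cast
        nlinarith
      omega)
  have ha1 : Real.exp (0.0033 * l) ≤ (a0n : ℝ) := by
    have h1 := Nat.lt_floor_add_one (Real.exp (0.0033 * l))
    have h2 : ((⌊Real.exp (0.0033 * l)⌋₊ + 1 : ℕ) : ℝ) ≤ (a0n : ℝ) := by exact_mod_cast ha0l
    push_cast at h2
    linarith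
  have ha2 : (a0n : ℝ) ≤ 2 * Real.exp (0.0033 * l) := by
    have h1 := Nat.floor_le (Real.exp_pos (0.0033 * l)).le
    have h2 : (a0n : ℝ) ≤ ((2 * ⌊Real.exp (0.0033 * l)⌋₊ : ℕ) : ℝ) := by exact_mod_cast ha0u
    push_cast at h2
    linarith
  refine ⟨(a0n : ℤ), Nat.prime_iff_prime_int.1 ha0p, ?_, ?_, ?_⟩
  · push_cast; exact ha1
  · push_cast; exact ha2
  · exact_mod_cast ha0p.two_le

theorem a0_sq_le (l : ℝ) (L a0 : ℤ) (hl : 10 ^ 12 ≤ l)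
    (hL1 : Real.exp (0.02 * l) ≤ 200 * (L : ℝ)) (ha : 2 ≤ a0)
    (ha2 : (a0 : ℝ) ≤ 2 * Real.exp (0.0033 * l)) : a0 ^ 2 ≤ L := by
  have haR : (2 : ℝ) ≤ a0 := by exact_mod_cast ha
  have : (a0 : ℝ) ^ 2 ≤ L := by
    have h1 : (a0 : ℝ) ^ 2 ≤ (2 * Real.exp (0.0033 * l)) ^ 2 :=
      pow_le_pow_left₀ (by linarith) ha2 2
    have h2 : (2 * Real.exp (0.0033 * l)) ^ 2 = 4 * Real.exp (0.0066 * l) := by
      rw [mul_pow, ← Real.exp_nat_mul]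
      have : ((2 : ℕ) : ℝ) * (0.0033 * l) = 0.0066 * l := by push_cast; ring
      rw [this]; norm_num
    have h3 : Real.exp (0.02 * l) = Real.exp (0.0066 * l) * Real.exp (0.0134 * l) := by
      rw [← Real.exp_add]; congr 1; ring
    have h4 : (800 : ℝ) ≤ Real.exp (0.0134 * l) := by
      have := Real.add_one_le_exp (0.0134 * l); nlinarith
    have h5 := Real.exp_pos (0.0066 * l)
    nlinarith
  exact_mod_cast this

theorem exists_K (l : ℝ) (N Q : ℤ) (hQ0 : 0 < Q) (hN0 : 0 < N)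
    (hNe : (N : ℝ) = Real.exp (0.51 * l) * Real.exp (0.49 * l))
    (hE049 : 1 ≤ Real.exp (0.49 * l)) (hQ1 : Real.exp (0.51 * l) ≤ Q) :
    ∃ K : ℤ, N ≤ K * Q ∧ 1 ≤ K ∧ (K : ℝ) ≤ 2 * Real.exp (0.49 * l) := by
  have hKdiv : N / Q * Q ≤ N := Int.ediv_mul_le N hQ0.ne'
  have hKdiv2 : N < (N / Q + 1) * Q := Int.lt_ediv_add_one_mul_self N hQ0
  have hKnn : 0 ≤ N / Q := Int.ediv_nonneg hN0.le hQ0.le
  refine ⟨N / Q + 1, hKdiv2.le, by linarith, ?_⟩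
  have h0 : (0 : ℝ) ≤ ((N / Q : ℤ) : ℝ) := by exact_mod_cast hKnn
  have h1 : ((N / Q : ℤ) : ℝ) * Q ≤ N := by exact_mod_cast hKdiv
  have h2 : ((N / Q : ℤ) : ℝ) * Real.exp (0.51 * l)
      ≤ Real.exp (0.51 * l) * Real.exp (0.49 * l) := by
    rw [← hNe]
    refine le_trans ?_ h1
    exact mul_le_mul_of_nonneg_left hQ1 h0
  have h3 : ((N / Q : ℤ) : ℝ) ≤ Real.exp (0.49 * l) := by
    have h5 := Real.exp_pos (0.51 * l)
    exact le_of_mul_le_mul_right (by linarith) h5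
  rw [Int.cast_add, Int.cast_one]
  linarith

theorem five_LK (l : ℝ) (Q L K : ℤ) (hQ1 : Real.exp (0.51 * l) ≤ Q) (hK1 : 1 ≤ K)
    (hL2 : (L : ℝ) ≤ Real.exp (0.02 * l) / 50) (hKu : (K : ℝ) ≤ 2 * Real.exp (0.49 * l)) :
    5 * L * K ≤ Q := by
  have hK1R : (1 : ℝ) ≤ K := by exact_mod_cast hK1
  have : 5 * (L : ℝ) * K ≤ Q := by
    have h1 : 5 * (L : ℝ) * K ≤ 5 * (Real.exp (0.02 * l) / 50) * (2 * Real.exp (0.49 * l)) := by
      apply mul_le_mul _ hKu (by linarith) (by positivity)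
      linarith
    have h2 : Real.exp (0.02 * l) * Real.exp (0.49 * l) = Real.exp (0.51 * l) := by
      rw [← Real.exp_add]; congr 1; ring
    have h3 := Real.exp_pos (0.51 * l)
    nlinarith
  exact_mod_cast this

theorem exists_B (L a0 : ℤ) (ha : 2 ≤ a0) (ha0sq : a0 ^ 2 ≤ L) :
    ∃ B : ℤ, 2 * L + a0 ^ 2 ≤ a0 * B ∧ a0 * B ≤ 4 * L ∧ a0 ≤ B := by
  have ha0pos : 0 < a0 := by linarith
  have h1 := Int.lt_ediv_add_one_mul_self (2 * L + a0 ^ 2) ha0pos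
  have h2 := Int.ediv_mul_le (2 * L + a0 ^ 2) ha0pos.ne'
  have haL : a0 ≤ L := by nlinarith
  have hlow : 2 * L + a0 ^ 2 ≤ a0 * ((2 * L + a0 ^ 2) / a0 + 1) := by linarith
  refine ⟨(2 * L + a0 ^ 2) / a0 + 1, hlow, by nlinarith, ?_⟩
  have : a0 * a0 ≤ a0 * ((2 * L + a0 ^ 2) / a0 + 1) := by nlinarith
  exact le_of_mul_le_mul_left this ha0pos

theorem exists_AB (Q L a0 : ℤ) (hQ0 : 0 < Q) (hLpos : 0 < L) (ha : 2 ≤ a0) (ha0sq : a0 ^ 2 ≤ L)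
    (hLQ : L ≤ Q) : ∃ A' B' : ℤ, 1 ≤ A' ∧ 1 ≤ B' ∧ 2 * a0 * Q ≤ L * B' ∧ L * B' ≤ 3 * a0 * Q ∧
      2 * Q + a0 * B' ≤ a0 * A' ∧ a0 * A' ≤ 6 * Q := by
  have ha0pos : 0 < a0 := by linarith
  have haL : a0 ≤ L := by nlinarith
  obtain ⟨B', hB'e⟩ : ∃ B' : ℤ, B' = (2 * a0 * Q) / L + 1 := ⟨_, rfl⟩
  have hB'low : 2 * a0 * Q ≤ L * B' := by
    have := Int.lt_ediv_add_one_mul_self (2 * a0 * Q) hLpos
    rw [hB'e]; linarith
  have hB'up : L * B' ≤ 3 * a0 * Q := by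
    have h1 := Int.ediv_mul_le (2 * a0 * Q) hLpos.ne'
    have h2 : L * 1 ≤ a0 * Q := by nlinarith
    rw [hB'e, mul_add]
    linarith
  have hB'1 : 1 ≤ B' := by
    have : 0 ≤ (2 * a0 * Q) / L := Int.ediv_nonneg (by positivity) hLpos.le
    rw [hB'e]; linarith
  have haB'Q : a0 * B' ≤ 3 * Q := by
    have h1 : L * (a0 * B') ≤ L * (3 * Q) := by
      have h2 : a0 * (L * B') ≤ a0 * (3 * a0 * Q) := mul_le_mul_of_nonneg_left hB'up ha0pos.le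
      have h3 : (a0 ^ 2) * (3 * Q) ≤ L * (3 * Q) := mul_le_mul_of_nonneg_right ha0sq (by linarith)
      linarith [h2, h3, (by ring : a0 * (L * B') = L * (a0 * B')),
        (by ring : a0 * (3 * a0 * Q) = (a0 ^ 2) * (3 * Q))]
    exact le_of_mul_le_mul_left h1 hLpos
  obtain ⟨A', hA'e⟩ : ∃ A' : ℤ, A' = (2 * Q) / a0 + 1 + B' := ⟨_, rfl⟩
  have hA'low : 2 * Q + a0 * B' ≤ a0 * A' := by
    have := Int.lt_ediv_add_one_mul_self (2 * Q) ha0pos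
    rw [hA'e]; linarith
  have hA'up : a0 * A' ≤ 6 * Q := by
    have := Int.ediv_mul_le (2 * Q) ha0pos.ne'
    rw [hA'e]
    have h2 : a0 ≤ Q := by linarith
    linarith
  have hA'1 : 1 ≤ A' := by
    have : 0 ≤ (2 * Q) / a0 := Int.ediv_nonneg (by positivity) ha0pos.le
    rw [hA'e]; linarith
  exact ⟨A', B', hA'1, hB'1, hB'low, hB'up, hA'low, hA'up⟩

theorem exists_T (N Q : ℤ) (hN0 : 0 < N) (hNQ : N ≤ Q ^ 2) :
    ∃ T : ℕ, 16 * Q ^ 2 ≤ (T : ℤ) * N ∧ (T : ℤ) * N ≤ 17 * Q ^ 2 := by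
  have h1 := Int.lt_ediv_add_one_mul_self (16 * Q ^ 2) hN0
  have h2 := Int.ediv_mul_le (16 * Q ^ 2) hN0.ne'
  have h3 : 0 ≤ (16 * Q ^ 2) / N := Int.ediv_nonneg (by positivity) hN0.le
  refine ⟨((16 * Q ^ 2) / N + 1).toNat, ?_, ?_⟩
  · rw [Int.toNat_of_nonneg (by linarith)]; linarith
  · rw [Int.toNat_of_nonneg (by linarith)]; linarith

theorem exists_tau (l C : ℝ) (hC0 : 0 < C) (hC : C + 1 ≤ Real.exp (0.5e-8 * l))
    (hdivC : ∀ n : ℕ, 0 < n → (n.divisors.card : ℝ) ≤ C * (n : ℝ) ^ (1.25e-12 : ℝ))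
    (Z : ℕ) (hZR : (Z : ℝ) ≤ Real.exp (4000 * l)) :
    ∃ τ : ℕ, 1 ≤ τ ∧ (τ : ℝ) ≤ Real.exp (1e-8 * l) ∧
      ∀ n : ℕ, 0 < n → n ≤ Z → n.divisors.card ≤ τ := by
  refine ⟨⌈C * Real.exp (0.5e-8 * l)⌉₊, Nat.one_le_ceil_iff.2 (by positivity), ?_, ?_⟩
  · have h1 : ((⌈C * Real.exp (0.5e-8 * l)⌉₊ : ℕ) : ℝ) < C * Real.exp (0.5e-8 * l) + 1 :=
      Nat.ceil_lt_add_one (by positivity)
    have h2 : Real.exp (1e-8 * l) = Real.exp (0.5e-8 * l) * Real.exp (0.5e-8 * l) := by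
      rw [← Real.exp_add]; congr 1; ring
    have h3 : (1 : ℝ) ≤ Real.exp (0.5e-8 * l) := by linarith
    nlinarith
  · intro n hn hnZ
    have h1 := hdivC n hn
    have h2 : (n : ℝ) ^ (1.25e-12 : ℝ) ≤ (Real.exp (4000 * l)) ^ (1.25e-12 : ℝ) := by
      apply Real.rpow_le_rpow (by positivity) _ (by norm_num)
      exact le_trans (by exact_mod_cast hnZ) hZR
    have h3 : (Real.exp (4000 * l)) ^ (1.25e-12 : ℝ) = Real.exp (0.5e-8 * l) := by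
      rw [← Real.exp_mul]; congr 1; ring
    rw [h3] at h2
    have h4 : (n.divisors.card : ℝ) ≤ ((⌈C * Real.exp (0.5e-8 * l)⌉₊ : ℕ) : ℝ) := by
      refine h1.trans ((mul_le_mul_of_nonneg_left h2 hC0.le).trans ?_)
      exact Nat.le_ceil _
    exact_mod_cast h4

theorem exists_Y0 (a0 B : ℤ) (τ : ℕ) (hτ1 : 1 ≤ τ) (ha : 2 ≤ a0) (haB : a0 ≤ B) :
    ∃ Y0 : ℕ, 2 * ((3 * 150 - 1 : ℕ) : ℤ) * τ * (a0 + B) + ((3 * 150 - 1 : ℕ) : ℤ) ≤ (Y0 : ℤ) ∧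
      ((2 * Y0 + 1 : ℕ) : ℝ) ≤ 10 ^ 4 * (τ : ℝ) * B := by
  have hB : 2 ≤ B := by linarith
  obtain ⟨Y0, hY0e⟩ : ∃ Y0 : ℕ, (Y0 : ℤ) = 2 * ((3 * 150 - 1 : ℕ) : ℤ) * τ * (a0 + B)
      + ((3 * 150 - 1 : ℕ) : ℤ) := ⟨_, Int.toNat_of_nonneg (by positivity)⟩
  refine ⟨Y0, hY0e.ge, ?_⟩
  have h1 : (2 * (Y0 : ℤ) + 1) ≤ 10 ^ 4 * (τ : ℤ) * B := by
    rw [hY0e]
    have h2 : (1 : ℤ) ≤ τ := by exact_mod_cast hτ1
    have h3' : (τ : ℤ) * a0 ≤ τ * B := mul_le_mul_of_nonneg_left haB (by positivity)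
    have h4' : 1 ≤ (τ : ℤ) * B := by nlinarith
    have e1 : ((3 * 150 - 1 : ℕ) : ℤ) = 449 := by norm_num
    rw [e1]
    nlinarith
  have h2 : ((2 * (Y0 : ℤ) + 1 : ℤ) : ℝ) ≤ ((10 ^ 4 * (τ : ℤ) * B : ℤ) : ℝ) := by
    exact_mod_cast h1
  push_cast at h2
  push_cast
  linarith

theorem P_bounds (P Q L a A' B' : ℝ) (hQ : 0 < Q) (hL : 0 < L) (ha : 0 < a) (hA'R : 1 ≤ A')
    (hB'R : 1 ≤ B') (hPP : P = (2 * A' + 1) * (2 * B' + 1)) (hA'up : a * A' ≤ 6 * Q)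
    (hB'up : L * B' ≤ 3 * a * Q) (hA'low : 2 * Q + a * B' ≤ a * A')
    (hB'low : 2 * a * Q ≤ L * B') : P * L ≤ 162 * Q ^ 2 ∧ 16 * Q ^ 2 ≤ P * L := by
  constructor
  · rw [hPP]
    have h1 : (2 * A' + 1) * (2 * B' + 1) ≤ (3 * A') * (3 * B') := by
      apply mul_le_mul <;> linarith
    have h2 : (2 * A' + 1) * (2 * B' + 1) * L ≤ (3 * A') * (3 * B') * L :=
      mul_le_mul_of_nonneg_right h1 (by linarith)
    have h3' : (3 * A') * (3 * B') * L = 9 * A' * (L * B') := by ring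
    have h4' : 9 * A' * (L * B') ≤ 9 * A' * (3 * a * Q) :=
      mul_le_mul_of_nonneg_left hB'up (by linarith)
    have h5' : 9 * A' * (3 * a * Q) = 27 * Q * (a * A') := by ring
    have h6' : 27 * Q * (a * A') ≤ 27 * Q * (6 * Q) :=
      mul_le_mul_of_nonneg_left hA'up (by positivity)
    nlinarith
  · rw [hPP]
    have h1 : (2 * A') * (2 * B') ≤ (2 * A' + 1) * (2 * B' + 1) := by
      apply mul_le_mul <;> linarith
    have h2 : (2 * A') * (2 * B') * L ≤ (2 * A' + 1) * (2 * B' + 1) * L :=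
      mul_le_mul_of_nonneg_right h1 (by linarith)
    have h3' : (2 * A') * (2 * B') * L = 4 * A' * (L * B') := by ring
    have h4' : 4 * A' * (2 * a * Q) ≤ 4 * A' * (L * B') :=
      mul_le_mul_of_nonneg_left hB'low (by linarith)
    have h5' : 4 * A' * (2 * a * Q) = 8 * Q * (a * A') := by ring
    have h7' : 2 * Q ≤ a * A' := by
      have : 0 ≤ a * B' := by positivity
      linarith
    have h6' : 8 * Q * (2 * Q) ≤ 8 * Q * (a * A') :=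
      mul_le_mul_of_nonneg_left h7' (by positivity)
    nlinarith

theorem T4 (N Q : ℤ) (T : ℕ) (res : ℤ → ℤ) (hQ0 : 0 < Q) (hN0 : 0 < N) (h4QN : 4 * Q ≤ N)
    (hTlow : 16 * Q ^ 2 ≤ (T : ℤ) * N) : 4 * (PP Q).card ^ 2 ≤ T * II N Q res := by
  have hIlow := II_lower N Q res hQ0 h4QN
  have hPPQ := PP_card_le Q hQ0.le
  have h1 : (4 * ((PP Q).card : ℤ) ^ 2) * N ≤ ((T : ℤ) * II N Q res) * N := by
    have h2 : (16 * Q ^ 2) * (II N Q res : ℤ) ≤ ((T : ℤ) * N) * II N Q res :=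
      mul_le_mul_of_nonneg_right hTlow (by positivity)
    have h3' : 4 * Q * (((PP Q).card : ℤ) * N) ≤ 4 * Q * (4 * Q * (II N Q res : ℤ)) :=
      mul_le_mul_of_nonneg_left hIlow (by positivity)
    have h4' : 4 * ((PP Q).card : ℤ) * (((PP Q).card : ℤ) * N)
        ≤ 4 * Q * (((PP Q).card : ℤ) * N) := by
      apply mul_le_mul_of_nonneg_right _ (by positivity)
      linarith
    nlinarith
  have := le_of_mul_le_mul_right h1 hN0
  exact_mod_cast this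

theorem I_bounds (l X : ℝ) (hX0 : 0 < X) (N Q : ℤ) (res : ℤ → ℤ) (hQ0 : 0 < Q)
    (hNl : (N : ℝ) = Real.exp l) (h4QN : 4 * Q ≤ N)
    (hPQ : (Q : ℝ) / X ≤ ((PP Q).card : ℝ)) :
    (II N Q res : ℝ) ≤ 2 * Real.exp l ∧ Real.exp l / (4 * X) ≤ (II N Q res : ℝ) := by
  have hIlow := II_lower N Q res hQ0 h4QN
  have hIup := II_upper N Q res hQ0 (by linarith)
  have hPPQ := PP_card_le Q hQ0.le
  have hQ0R : (0 : ℝ) < Q := by exact_mod_cast hQ0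
  have hN0R : (0 : ℝ) < N := by rw [hNl]; exact Real.exp_pos _
  have hN0 : 0 < N := by exact_mod_cast hN0R
  constructor
  · have h1 : Q * (II N Q res : ℤ) ≤ Q * (2 * N) := by
      refine hIup.trans ?_
      nlinarith
    have h2 : (II N Q res : ℤ) ≤ 2 * N := le_of_mul_le_mul_left h1 hQ0
    rw [← hNl]
    exact_mod_cast h2
  · have h1 : ((PP Q).card : ℝ) * N ≤ 4 * Q * (II N Q res : ℝ) := by exact_mod_cast hIlow
    have h2 : (Q : ℝ) / X * N ≤ 4 * Q * (II N Q res : ℝ) :=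
      (mul_le_mul_of_nonneg_right hPQ hN0R.le).trans h1
    rw [div_le_iff₀ (by positivity), ← hNl]
    have h3' : (Q : ℝ) / X * N = Q * (N / X) := by ring
    rw [h3'] at h2
    have h4' : (Q : ℝ) * (N / X) ≤ Q * (4 * (II N Q res : ℝ)) := by linarith
    have h5' := le_of_mul_le_mul_left h4' hQ0R
    rw [div_le_iff₀ hX0] at h5'
    linarith

theorem S8 (l : ℝ) (hl : 10 ^ 12 ≤ l) (s I : ℕ) (hs : (s : ℝ) < Real.exp (0.9800026 * l))
    (hIl : Real.exp l / (4 * Real.exp (1e-8 * l)) ≤ (I : ℝ)) : 8 * s ≤ I := by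
  set X := Real.exp (1e-8 * l) with hX
  have hXb := X_big l hl
  rw [← hX] at hXb
  have hX0 : 0 < X := Real.exp_pos _
  have h1 : 8 * (s : ℝ) ≤ (I : ℝ) := by
    refine le_trans ?_ hIl
    rw [le_div_iff₀ (by positivity)]
    have h2 : Real.exp l = Real.exp (0.9800026 * l) * Real.exp (0.0199974 * l) := by
      rw [← Real.exp_add]; congr 1; ring
    have h3' : 32 * X ≤ Real.exp (0.0199974 * l) := by
      have h31 : 32 * X ≤ X * X := by nlinarith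
      have h32 : X * X = Real.exp (2e-8 * l) := by
        rw [hX, ← Real.exp_add]; congr 1; ring
      have h33 : Real.exp (2e-8 * l) ≤ Real.exp (0.0199974 * l) := by
        apply Real.exp_le_exp.2; nlinarith
      linarith
    have h4' : 8 * (s : ℝ) * (4 * X) ≤ Real.exp (0.9800026 * l) * (32 * X) := by nlinarith
    have h5' := mul_le_mul_of_nonneg_left h3' (Real.exp_pos (0.9800026 * l)).le
    linarith
  exact_mod_cast h1

end FD120
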