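import Pool.Agent.W_fd120a_h34.Main
import Pool.Prelude.Def_F_b2ee6af0

set_option autoImplicit false

open Filter Topology

namespace Pool.Agent.W_fd120a_h34.PowerSavingOld

/-- For all large `N`, every choice of residues `a` and every upper end `hi ≥ 2 N^0.51` (for
instance `hi = N^0.52`, the set of the problem, or `hi = 2 N^0.51`), the integers `n ∈ [1, N]` with
`n ≡ a p mod p` for some prime `N^0.51 ≤ p < hi` number at least `N^(0.98 + 2.5 * 10^(-6))`. -/
theorem result :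
    ∀ᶠ N : ℕ in atTop, ∀ (a : ℕ → ℤ) (hi : ℝ), 2 * (N : ℝ) ^ (0.51 : ℝ) ≤ hi →
      (N : ℝ) ^ (0.9800025 : ℝ) ≤
        (N7c497599.sievedCard N a ((N : ℝ) ^ (0.51 : ℝ)) hi : ℝ) :=
  FD120.main

end Pool.Agent.W_fd120a_h34.PowerSavingOld
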