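import Pool.Agent.W_fd120a_h34.Defs

set_option autoImplicit false

open Finset Polynomial
open scoped Classical

namespace FD120

attribute [local instance] Matrix.seminormedAddCommGroup

/-- Siegel's lemma for `D2 - 1` equations in `D2` unknowns, over `ℤ`. -/
theorem sie2_siegel {α β : Type} [Fintype α] [Fintype β] (A : Matrix α β ℤ) (H : ℤ) (hH : 1 ≤ H)
    (hA : ∀ i j, |A i j| ≤ H) (hαβ : Fintype.card β = Fintype.card α + 1)
    (hα : 0 < Fintype.card α) :
    ∃ t : β → ℤ, t ≠ 0 ∧ A.mulVec t = 0 ∧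
      ∀ j, |t j| ≤ ((Fintype.card β : ℤ) * H) ^ Fintype.card α := by
  obtain ⟨t, ht0, htA, ht⟩ := Int.Matrix.exists_ne_zero_int_vec_norm_le A (by omega) hα
  refine ⟨t, ht0, htA, fun j => ?_⟩
  have hHr : (1 : ℝ) ≤ H := by exact_mod_cast hH
  have hnorm : ‖A‖ ≤ (H : ℝ) := by
    rw [Matrix.norm_le_iff (by linarith)]
    intro i j
    rw [Int.norm_eq_abs]
    exact_mod_cast hA i j
  have h1 : ((Fintype.card α : ℕ) : ℝ) / ((Fintype.card β : ℝ) - Fintype.card α) =
      (Fintype.card α : ℕ) := by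
    rw [hαβ]
    push_cast
    rw [add_sub_cancel_left, div_one]
  rw [h1, Real.rpow_natCast] at ht
  have h2 : ‖t j‖ ≤ ‖t‖ := norm_le_pi_norm t j
  rw [Int.norm_eq_abs] at h2
  have h3 : ((|t j| : ℤ) : ℝ) ≤ (((Fintype.card β : ℤ) * H : ℤ) : ℝ) ^ Fintype.card α := by
    push_cast
    refine (h2.trans ht).trans ?_
    gcongr
    exact max_le hHr hnorm
  exact_mod_cast h3

/-- The entries of the matrix of the linear system. -/
theorem sie2_entry (P : ℤ[X]) (H : ℤ) (hH : 1 ≤ H) (hP : ∀ j, |P.coeff j| ≤ H) (j n : ℕ) :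
    |(X ^ j * P).coeff n| ≤ H := by
  rw [Polynomial.coeff_X_pow_mul']
  split_ifs
  · exact hP _
  · rw [abs_zero]
    linarith

theorem sie2_coeff_sum {D : ℕ} (t : Fin D → ℤ) (P : ℤ[X]) (n : ℕ) :
    ((∑ j : Fin D, Polynomial.C (t j) * X ^ (j : ℕ)) * P).coeff n =
      ∑ j : Fin D, t j * (X ^ (j : ℕ) * P).coeff n := by
  rw [Finset.sum_mul, Polynomial.finsetSum_coeff]
  refine Finset.sum_congr rfl fun j _ => ?_
  rw [mul_assoc, Polynomial.coeff_C_mul]

theorem sie2_coeff {D : ℕ} (t : Fin D → ℤ) (i : Fin D) :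
    (∑ j : Fin D, Polynomial.C (t j) * X ^ (j : ℕ)).coeff (i : ℕ) = t i := by
  rw [Polynomial.finsetSum_coeff, Finset.sum_eq_single i]
  · rw [Polynomial.coeff_C_mul, Polynomial.coeff_X_pow, if_pos rfl, mul_one]
  · intro j _ hj
    rw [Polynomial.coeff_C_mul, Polynomial.coeff_X_pow, if_neg, mul_zero]
    intro h
    exact hj (Fin.ext h.symm)
  · intro h
    exact absurd (Finset.mem_univ i) h

theorem sie2_natDegree {D : ℕ} (t : Fin D → ℤ) :
    (∑ j : Fin D, Polynomial.C (t j) * X ^ (j : ℕ)).natDegree ≤ D - 1 := by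
  apply Polynomial.natDegree_sum_le_of_forall_le
  intro j _
  refine (Polynomial.natDegree_C_mul_X_pow_le _ _).trans ?_
  have := j.2
  omega

/-- Second use of Siegel's lemma (`2D` unknowns, `2D - 1` equations): a small Bezout constant for
the coprime parts `P0`, `R0` of `P = G P0`, `R = G R0`.  Kill the coefficients of index
`g + 1, …, 2D + g - 1` of `U P + V R`, `g = deg G`. -/
theorem siegel2 (d : ℕ) (H : ℤ) (hH : 1 ≤ H) (P R P0 R0 G : ℤ[X]) (hP : G * P0 = P)
    (hR : G * R0 = R) (hrel : IsRelPrime R0 P0) (hG : G ≠ 0) (hP0 : P0 ≠ 0) (hR0 : R0 ≠ 0)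
    (hPd : P.natDegree ≤ d) (hRd : R.natDegree ≤ d)
    (hPH : ∀ j, |P.coeff j| ≤ H) (hRH : ∀ j, |R.coeff j| ≤ H)
    (D : ℕ) (hD : D = max P0.natDegree R0.natDegree) (hD1 : 1 ≤ D) :
    ∃ (U V : ℤ[X]) (M : ℤ), M ≠ 0 ∧ |M| ≤ (2 * (d : ℤ) * H) ^ (2 * d) ∧
      U.natDegree ≤ D - 1 ∧ V.natDegree ≤ D - 1 ∧ U * P0 + V * R0 = Polynomial.C M := by
  set g := G.natDegree with hg
  have hPdeg : P.natDegree = g + P0.natDegree := by rw [← hP, Polynomial.natDegree_mul hG hP0]
  have hRdeg : R.natDegree = g + R0.natDegree := by rw [← hR, Polynomial.natDegree_mul hG hR0]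
  have hPD : P.natDegree ≤ g + D := by
    have := le_max_left P0.natDegree R0.natDegree
    omega
  have hRD : R.natDegree ≤ g + D := by
    have := le_max_right P0.natDegree R0.natDegree
    omega
  have hDd : D ≤ d := by
    rcases max_choice P0.natDegree R0.natDegree with h | h <;> omega
  -- the system
  let A : Matrix (Fin (2 * D - 1)) (Fin D ⊕ Fin D) ℤ := Matrix.of fun i b =>
    match b with
    | Sum.inl j => (X ^ (j : ℕ) * P).coeff (g + 1 + i)
    | Sum.inr j => (X ^ (j : ℕ) * R).coeff (g + 1 + i)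
  have hA : ∀ i j, |A i j| ≤ H := by
    rintro i (j | j)
    · exact sie2_entry P H hH hPH _ _
    · exact sie2_entry R H hH hRH _ _
  have hcβ : Fintype.card (Fin D ⊕ Fin D) = 2 * D := by
    rw [Fintype.card_sum, Fintype.card_fin]
    ring
  obtain ⟨t, ht0, htA, htB⟩ := sie2_siegel A H hH hA (by
    rw [hcβ, Fintype.card_fin]
    omega) (by
    rw [Fintype.card_fin]
    omega)
  rw [hcβ, Fintype.card_fin] at htB
  set B : ℤ := (((2 * D : ℕ) : ℤ) * H) ^ (2 * D - 1) with hB
  have hB0 : 0 ≤ B := by positivity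
  set U : ℤ[X] := ∑ j : Fin D, Polynomial.C (t (Sum.inl j)) * X ^ (j : ℕ) with hU
  set V : ℤ[X] := ∑ j : Fin D, Polynomial.C (t (Sum.inr j)) * X ^ (j : ℕ) with hV
  have hUd : U.natDegree ≤ D - 1 := sie2_natDegree _
  have hVd : V.natDegree ≤ D - 1 := sie2_natDegree _
  have hcoeff : ∀ n, (U * P + V * R).coeff n =
      ∑ j : Fin D, t (Sum.inl j) * (X ^ (j : ℕ) * P).coeff n +
      ∑ j : Fin D, t (Sum.inr j) * (X ^ (j : ℕ) * R).coeff n := by
    intro n
    rw [Polynomial.coeff_add, hU, hV, sie2_coeff_sum (fun j => t (Sum.inl j)) P n,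
      sie2_coeff_sum (fun j => t (Sum.inr j)) R n]
  have hkill : ∀ i : Fin (2 * D - 1), (U * P + V * R).coeff (g + 1 + i) = 0 := by
    intro i
    have h1 := congrFun htA i
    rw [Matrix.mulVec, dotProduct, Fintype.sum_sum_type] at h1
    rw [hcoeff]
    rw [Pi.zero_apply] at h1
    rw [← h1]
    congr 1 <;> exact Finset.sum_congr rfl fun j _ => mul_comm _ _
  have hdeg1 : (U * P + V * R).natDegree ≤ g + 2 * D - 1 := by
    refine (Polynomial.natDegree_add_le _ _).trans (max_le ?_ ?_)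
    · refine Polynomial.natDegree_mul_le.trans ?_
      omega
    · refine Polynomial.natDegree_mul_le.trans ?_
      omega
  have hdeg2 : (U * P + V * R).natDegree ≤ g := by
    rw [Polynomial.natDegree_le_iff_coeff_eq_zero]
    intro n hn
    rcases le_or_gt n (g + 2 * D - 1) with h | h
    · have h2 := hkill ⟨n - (g + 1), by omega⟩
      have h3 : g + 1 + (n - (g + 1)) = n := by omega
      simpa only [h3] using h2
    · exact Polynomial.coeff_eq_zero_of_natDegree_lt (by omega)
  set W : ℤ[X] := U * P0 + V * R0 with hW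
  have hGW : G * W = U * P + V * R := by
    rw [hW, ← hP, ← hR]
    ring
  have hWdeg : W.natDegree = 0 := by
    by_cases hW0 : W = 0
    · rw [hW0, Polynomial.natDegree_zero]
    · have h2 : (G * W).natDegree = g + W.natDegree := Polynomial.natDegree_mul hG hW0
      rw [hGW] at h2
      omega
  have hWC : W = Polynomial.C (W.coeff 0) := Polynomial.eq_C_of_natDegree_eq_zero hWdeg
  refine ⟨U, V, W.coeff 0, ?_, ?_, hUd, hVd, hWC⟩
  · intro hM
    rw [hM, Polynomial.C_0] at hWC
    have h1 : U * P0 = -(V * R0) := eq_neg_of_add_eq_zero_left (hW ▸ hWC)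
    have hboth : U = 0 ∧ V = 0 := by
      rcases max_choice P0.natDegree R0.natDegree with h | h
      · have hdvd : P0 ∣ V := by
          have h2 : P0 ∣ V * R0 := by
            rw [← dvd_neg, ← h1]
            exact dvd_mul_left _ _
          exact hrel.symm.dvd_of_dvd_mul_right h2
        have hV0 : V = 0 := by
          by_contra hne
          have := Polynomial.natDegree_le_of_dvd hdvd hne
          omega
        rw [hV0, zero_mul, neg_zero] at h1
        exact ⟨(mul_eq_zero.1 h1).resolve_right hP0, hV0⟩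
      · have hdvd : R0 ∣ U := by
          have h2 : R0 ∣ U * P0 := by
            rw [h1, dvd_neg]
            exact dvd_mul_left _ _
          exact hrel.dvd_of_dvd_mul_right h2
        have hU0 : U = 0 := by
          by_contra hne
          have := Polynomial.natDegree_le_of_dvd hdvd hne
          omega
        rw [hU0, zero_mul] at h1
        exact ⟨hU0, (mul_eq_zero.1 (neg_eq_zero.1 h1.symm)).resolve_right hR0⟩
    apply ht0
    funext b
    rcases b with j | j
    · rw [← sie2_coeff (fun j => t (Sum.inl j)) j, ← hU, hboth.1]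
      simp
    · rw [← sie2_coeff (fun j => t (Sum.inr j)) j, ← hV, hboth.2]
      simp
  · have h1 : (U * P + V * R).coeff g = G.leadingCoeff * W.coeff 0 := by
      rw [← hGW]
      conv_lhs => rw [hWC]
      rw [Polynomial.coeff_mul_C]
      rfl
    have h2 : |W.coeff 0| ≤ |(U * P + V * R).coeff g| := by
      rw [h1, abs_mul]
      have h3 : 1 ≤ |G.leadingCoeff| :=
        Int.one_le_abs (Polynomial.leadingCoeff_ne_zero.2 hG)
      nlinarith [abs_nonneg (W.coeff 0)]
    have hs : ∀ (Q : ℤ[X]) (hQ : ∀ j, |Q.coeff j| ≤ H) (s : Fin D → ℤ) (hs : ∀ j, |s j| ≤ B),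
        |∑ j : Fin D, s j * (X ^ (j : ℕ) * Q).coeff g| ≤ D * (B * H) := by
      intro Q hQ s hs
      refine (Finset.abs_sum_le_sum_abs _ _).trans ?_
      have : ∀ j ∈ (univ : Finset (Fin D)), |s j * (X ^ (j : ℕ) * Q).coeff g| ≤ B * H := by
        intro j _
        rw [abs_mul]
        exact mul_le_mul (hs j) (sie2_entry Q H hH hQ _ _) (abs_nonneg _) hB0
      refine (Finset.sum_le_card_nsmul _ _ _ this).trans ?_
      rw [Finset.card_univ, Fintype.card_fin, nsmul_eq_mul]
    have h4 : |(U * P + V * R).coeff g| ≤ (((2 * D : ℕ) : ℤ) * H) ^ (2 * D) := by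
      rw [hcoeff]
      refine (abs_add_le _ _).trans ?_
      have e1 := hs P hPH (fun j => t (Sum.inl j)) (fun j => htB _)
      have e2 := hs R hRH (fun j => t (Sum.inr j)) (fun j => htB _)
      refine (add_le_add e1 e2).trans (le_of_eq ?_)
      have h5 : 2 * D = (2 * D - 1) + 1 := by omega
      rw [h5, pow_succ]
      have h6 : (2 * D - 1 + 1) = 2 * D := by omega
      rw [h6, ← hB]
      push_cast
      ring
    refine (h2.trans h4).trans ?_
    have h7 : (((2 * D : ℕ) : ℤ) * H) ≤ 2 * (d : ℤ) * H := by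
      have : ((2 * D : ℕ) : ℤ) ≤ 2 * (d : ℤ) := by
        push_cast
        have : (D : ℤ) ≤ d := by exact_mod_cast hDd
        linarith
      exact mul_le_mul_of_nonneg_right this (by linarith)
    have h8 : 1 ≤ 2 * (d : ℤ) * H := by
      have : (1 : ℤ) ≤ d := by exact_mod_cast hD1.trans hDd
      nlinarith
    calc (((2 * D : ℕ) : ℤ) * H) ^ (2 * D) ≤ (2 * (d : ℤ) * H) ^ (2 * D) :=
          pow_le_pow_left₀ (by positivity) h7 _
      _ ≤ (2 * (d : ℤ) * H) ^ (2 * d) := pow_le_pow_right₀ h8 (by omega)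

end FD120
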