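import Pool.Agent.W_fd120a_h34.Hom
import Pool.Agent.W_fd120a_h34.Sie2

set_option autoImplicit false

open Finset Polynomial
open scoped Classical

namespace FD120

theorem ratB_card_divs (n : ℕ) (hn : n ≠ 0) (T : Finset ℤ) (hT : ∀ b ∈ T, b.natAbs ∣ n) :
    T.card ≤ 2 * n.divisors.card := by
  have hsub : T ⊆ (n.divisors.image (fun k : ℕ => (k : ℤ))) ∪
      (n.divisors.image (fun k : ℕ => -(k : ℤ))) := by
    intro b hb
    have h1 := hT b hb
    rw [Finset.mem_union, Finset.mem_image, Finset.mem_image]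
    rcases Int.natAbs_eq b with h | h
    · left
      exact ⟨b.natAbs, Nat.mem_divisors.2 ⟨h1, hn⟩, h.symm⟩
    · right
      exact ⟨b.natAbs, Nat.mem_divisors.2 ⟨h1, hn⟩, h.symm⟩
  calc T.card ≤ ((n.divisors.image (fun k : ℕ => (k : ℤ))) ∪
      (n.divisors.image (fun k : ℕ => -(k : ℤ)))).card := Finset.card_le_card hsub
    _ ≤ _ := Finset.card_union_le _ _
    _ ≤ n.divisors.card + n.divisors.card := add_le_add Finset.card_image_le Finset.card_image_le
    _ = 2 * n.divisors.card := by ring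

theorem ratB_case1 (D : ℕ) (a0 B : ℤ) (ha0 : 1 ≤ a0) (τ : ℕ) (R0 : ℤ[X])
    (h1 : 1 ≤ R0.natDegree) (hd : R0.natDegree ≤ D)
    (T : Finset (ℤ × ℤ)) (hT : T ⊆ WW a0 B)
    (N : ℤ → ℕ) (hN : ∀ x, 1 ≤ x → x < a0 → N x ≠ 0 ∧ (N x).divisors.card ≤ τ)
    (hdv : ∀ w ∈ T, (hom D R0 w.1 w.2).natAbs ∣ N w.1) :
    (T.card : ℤ) ≤ 2 * D * τ * a0 := by
  have key : ∀ x ∈ T.image Prod.fst, (T.filter (fun w => w.1 = x)).card ≤ D * (2 * τ) := by
    intro x hx
    obtain ⟨w0, hw0, rfl⟩ := Finset.mem_image.1 hx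
    have hw0' := hT hw0
    rw [WW, Finset.mem_product, Finset.mem_Ico] at hw0'
    obtain ⟨⟨hx1, hx2⟩, -⟩ := hw0'
    obtain ⟨hN0, hNτ⟩ := hN w0.1 hx1 hx2
    set F := T.filter (fun w => w.1 = w0.1) with hF
    have hFim : (F.image (fun w => hom D R0 w.1 w.2)).card ≤ 2 * τ := by
      refine (ratB_card_divs (N w0.1) hN0 _ ?_).trans (Nat.mul_le_mul_left 2 hNτ)
      intro b hb
      obtain ⟨w, hw, rfl⟩ := Finset.mem_image.1 hb
      rw [hF, Finset.mem_filter] at hw
      have := hdv w hw.1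
      rw [hw.2] at this ⊢
      exact this
    have hFcard : F.card ≤ D * (F.image (fun w => hom D R0 w.1 w.2)).card := by
      refine Finset.card_le_mul_card_image F D ?_
      intro b hb
      have hinj : Set.InjOn (Prod.snd : ℤ × ℤ → ℤ)
          ((F.filter (fun w => hom D R0 w.1 w.2 = b) : Finset (ℤ × ℤ)) : Set (ℤ × ℤ)) := by
        intro w hw v hv hwv
        rw [Finset.mem_coe, Finset.mem_filter, hF, Finset.mem_filter] at hw hv
        exact Prod.ext (hw.1.2.trans hv.1.2.symm) hwv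
      rw [← Finset.card_image_of_injOn hinj]
      refine hom_fibre D R0 h1 hd w0.1 b (by omega) _ ?_
      intro y hy
      obtain ⟨w, hw, rfl⟩ := Finset.mem_image.1 hy
      rw [Finset.mem_filter, hF, Finset.mem_filter] at hw
      rw [← hw.1.2]
      exact hw.2
    exact hFcard.trans (Nat.mul_le_mul_left D hFim)
  have hT1 : T.card ≤ D * (2 * τ) * (T.image Prod.fst).card := Finset.card_le_mul_card_image T _ key
  have hT2 : (T.image Prod.fst).card ≤ (a0 - 1).toNat := by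
    have hsub : T.image Prod.fst ⊆ Finset.Ico 1 a0 := by
      intro x hx
      obtain ⟨w, hw, rfl⟩ := Finset.mem_image.1 hx
      have := hT hw
      rw [WW, Finset.mem_product] at this
      exact this.1
    have := Finset.card_le_card hsub
    rwa [Int.card_Ico] at this
  have hT3 : ((T.image Prod.fst).card : ℤ) ≤ a0 := by
    have : (((a0 - 1).toNat : ℕ) : ℤ) = a0 - 1 := Int.toNat_of_nonneg (by omega)
    have h5 : ((T.image Prod.fst).card : ℤ) ≤ (((a0 - 1).toNat : ℕ) : ℤ) := by exact_mod_cast hT2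
    omega
  calc (T.card : ℤ) ≤ ((D * (2 * τ) * (T.image Prod.fst).card : ℕ) : ℤ) := by exact_mod_cast hT1
    _ = (2 * D * τ) * ((T.image Prod.fst).card : ℤ) := by push_cast; ring
    _ ≤ 2 * D * τ * a0 := mul_le_mul_of_nonneg_left hT3 (by positivity)

theorem ratB_case2 (a0 B : ℤ) (hB : 1 ≤ B) (τ n : ℕ) (hn : n ≠ 0) (hτ : n.divisors.card ≤ τ)
    (T : Finset (ℤ × ℤ)) (hT : T ⊆ WW a0 B) (hdv : ∀ w ∈ T, w.1.natAbs ∣ n) :
    (T.card : ℤ) ≤ τ * B := by
  have hsub : T ⊆ (n.divisors.image (fun k : ℕ => (k : ℤ))) ×ˢ Finset.Icc 1 B := by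
    intro w hw
    have h1 := hT hw
    rw [WW, Finset.mem_product, Finset.mem_Ico] at h1
    rw [Finset.mem_product, Finset.mem_image]
    refine ⟨⟨w.1.natAbs, Nat.mem_divisors.2 ⟨hdv w hw, hn⟩, ?_⟩, h1.2⟩
    have := h1.1.1
    omega
  have h1 : T.card ≤ τ * B.toNat := by
    calc T.card ≤ _ := Finset.card_le_card hsub
      _ = (n.divisors.image (fun k : ℕ => (k : ℤ))).card * (Finset.Icc 1 B).card :=
        Finset.card_product _ _
      _ ≤ τ * B.toNat := by
        refine Nat.mul_le_mul (Finset.card_image_le.trans hτ) ?_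
        rw [Int.card_Icc]
        apply le_of_eq
        congr 1
        ring
  have h2 : ((B.toNat : ℕ) : ℤ) = B := Int.toNat_of_nonneg (by omega)
  calc (T.card : ℤ) ≤ ((τ * B.toNat : ℕ) : ℤ) := by exact_mod_cast h1
    _ = τ * B := by push_cast; rw [h2]

theorem ratB_lead (D : ℕ) (P0 : ℤ[X]) (x y c : ℤ)
    (hcop : IsCoprime x y) (h : hom D P0 x y = c * x) (hD : P0.natDegree = D) :
    x ∣ P0.leadingCoeff := by
  have h1 : x ∣ P0.coeff D * y ^ D := by
    have h2 : hom D P0 x y = (∑ j ∈ Finset.range D, P0.coeff j * x ^ (D - j) * y ^ j) +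
        P0.coeff D * x ^ (D - D) * y ^ D := by
      rw [hom, Finset.sum_range_succ]
    have h3 : x ∣ ∑ j ∈ Finset.range D, P0.coeff j * x ^ (D - j) * y ^ j := by
      refine Finset.dvd_sum fun j hj => ?_
      have hj' := Finset.mem_range.1 hj
      refine Dvd.dvd.mul_right (Dvd.dvd.mul_left ?_ _) _
      exact dvd_pow_self x (by omega)
    rw [Nat.sub_self, pow_zero, mul_one] at h2
    have h4 : P0.coeff D * y ^ D = c * x -
      ∑ j ∈ Finset.range D, P0.coeff j * x ^ (D - j) * y ^ j := by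
      rw [← h, h2]; ring
    rw [h4]
    exact dvd_sub (dvd_mul_left x c) h3
  have h5 : IsCoprime x (y ^ D) := hcop.pow_right
  have h6 := h5.dvd_of_dvd_mul_right h1
  rw [Polynomial.leadingCoeff, hD]
  exact h6

/-- A homogeneous rational function of small height that takes integral values `h w` on the coprime
points of `S` takes only one value outside a small set. -/
theorem ratB (d : ℕ) (hd : 1 ≤ d) (H a0 B : ℤ) (hH : 1 ≤ H) (ha0 : 1 ≤ a0) (hB : 1 ≤ B)
    (Z τ : ℕ) (P R : ℤ[X]) (hPR : P ≠ 0 ∨ R ≠ 0)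
    (hPd : P.natDegree ≤ d) (hRd : R.natDegree ≤ d)
    (hPH : ∀ j, |P.coeff j| ≤ H) (hRH : ∀ j, |R.coeff j| ≤ H)
    (hZ : (2 * (d : ℤ) * H) ^ (2 * d) * a0 ^ (2 * d) ≤ (Z : ℤ))
    (hdiv : ∀ n : ℕ, 0 < n → n ≤ Z → n.divisors.card ≤ τ)
    (S : Finset (ℤ × ℤ)) (hS : S ⊆ WW a0 B) (hcop : ∀ w ∈ S, IsCoprime w.1 w.2)
    (h : ℤ × ℤ → ℤ) (hh : ∀ w ∈ S, hom d P w.1 w.2 = h w * hom d R w.1 w.2) :
    ∃ h0 : ℤ, ((S.filter (fun w => h w ≠ h0)).card : ℤ) ≤ 2 * d * τ * (a0 + B) + d := by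
  have hτ0 : (0 : ℤ) ≤ 2 * d * τ * (a0 + B) := by
    have : (0 : ℤ) ≤ a0 + B := by omega
    positivity
  have hSw : ∀ w ∈ S, 1 ≤ w.1 ∧ w.1 < a0 ∧ 1 ≤ w.2 ∧ w.2 ≤ B := by
    intro w hw
    have h1 := hS hw
    rw [WW, Finset.mem_product, Finset.mem_Ico, Finset.mem_Icc] at h1
    exact ⟨h1.1.1, h1.1.2, h1.2.1, h1.2.2⟩
  by_cases hR0 : R = 0
  · have hP0 : P ≠ 0 := by
      rcases hPR with h1 | h1
      · exact h1
      · exact absurd hR0 h1
    refine ⟨0, ?_⟩
    have h1 : S.card ≤ d := by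
      refine hom_roots d P hP0 hPd S ?_
      intro w hw
      refine ⟨by have := (hSw w hw).1; omega, hcop w hw, ?_⟩
      rw [hh w hw, hR0]
      simp [hom]
    have h2 : (S.filter (fun w => h w ≠ 0)).card ≤ d :=
      (Finset.card_le_card (Finset.filter_subset _ _)).trans h1
    have h3 : ((S.filter (fun w => h w ≠ 0)).card : ℤ) ≤ d := by exact_mod_cast h2
    linarith
  obtain ⟨R0, P0, G, hrel, hGR, hGP⟩ := UniqueFactorizationMonoid.exists_reduced_factors R hR0 P
  have hG : G ≠ 0 := by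
    rintro rfl
    rw [zero_mul] at hGR
    exact hR0 hGR.symm
  have hR00 : R0 ≠ 0 := by
    rintro rfl
    rw [mul_zero] at hGR
    exact hR0 hGR.symm
  by_cases hP00 : P0 = 0
  · have hP0 : P = 0 := by rw [← hGP, hP00, mul_zero]
    refine ⟨0, ?_⟩
    have h1 : (S.filter (fun w => h w ≠ 0)).card ≤ d := by
      refine hom_roots d R hR0 hRd _ ?_
      intro w hw
      rw [Finset.mem_filter] at hw
      refine ⟨by have := (hSw w hw.1).1; omega, hcop w hw.1, ?_⟩
      have h2 := hh w hw.1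
      rw [hP0] at h2
      have h3 : hom d (0 : ℤ[X]) w.1 w.2 = 0 := by simp [hom]
      rw [h3] at h2
      exact (mul_eq_zero.1 h2.symm).resolve_left hw.2
    have h3 : ((S.filter (fun w => h w ≠ 0)).card : ℤ) ≤ d := by exact_mod_cast h1
    linarith
  obtain ⟨D, hD⟩ : ∃ D : ℕ, D = max P0.natDegree R0.natDegree := ⟨_, rfl⟩
  have hP0D : P0.natDegree ≤ D := by rw [hD]; exact le_max_left _ _
  have hR0D : R0.natDegree ≤ D := by rw [hD]; exact le_max_right _ _
  have hPdeg : P.natDegree = G.natDegree + P0.natDegree := by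
    rw [← hGP, Polynomial.natDegree_mul hG hP00]
  have hRdeg : R.natDegree = G.natDegree + R0.natDegree := by
    rw [← hGR, Polynomial.natDegree_mul hG hR00]
  have hGD : G.natDegree + D ≤ d := by
    rcases le_total P0.natDegree R0.natDegree with h1 | h1
    · rw [hD, max_eq_right h1]; omega
    · rw [hD, max_eq_left h1]; omega
  have hGd : G.natDegree ≤ d - D := by omega
  have hdD : d - D + D = d := by omega
  -- the zeros of `G`
  set S0 := S.filter (fun w => hom (d - D) G w.1 w.2 = 0) with hS0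
  set S1 := S.filter (fun w => hom (d - D) G w.1 w.2 ≠ 0) with hS1
  have hS0c : S0.card ≤ d := by
    refine (hom_roots (d - D) G hG hGd S0 ?_).trans (Nat.sub_le _ _)
    intro w hw
    rw [hS0, Finset.mem_filter] at hw
    exact ⟨by have := (hSw w hw.1).1; omega, hcop w hw.1, hw.2⟩
  have hS1h : ∀ w ∈ S1, hom D P0 w.1 w.2 = h w * hom D R0 w.1 w.2 := by
    intro w hw
    rw [hS1, Finset.mem_filter] at hw
    have hx : w.1 ≠ 0 := by have := (hSw w hw.1).1; omega
    have h1 := hh w hw.1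
    have h2 := hom_mul (d - D) D G P0 hGd hP0D w.1 w.2 hx
    have h3 := hom_mul (d - D) D G R0 hGd hR0D w.1 w.2 hx
    rw [hdD, hGP] at h2
    rw [hdD, hGR] at h3
    rw [h2, h3] at h1
    have h4 : hom (d - D) G w.1 w.2 * hom D P0 w.1 w.2 =
        hom (d - D) G w.1 w.2 * (h w * hom D R0 w.1 w.2) := by rw [h1]; ring
    exact mul_left_cancel₀ hw.2 h4
  have hsplit : ∀ h0 : ℤ, ((S.filter (fun w => h w ≠ h0)).card : ℤ) ≤
      d + ((S1.filter (fun w => h w ≠ h0)).card : ℤ) := by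
    intro h0
    have hsub : S.filter (fun w => h w ≠ h0) ⊆ S0 ∪ S1.filter (fun w => h w ≠ h0) := by
      intro w hw
      rw [Finset.mem_filter] at hw
      rw [Finset.mem_union, hS0, hS1, Finset.mem_filter, Finset.mem_filter, Finset.mem_filter]
      by_cases h1 : hom (d - D) G w.1 w.2 = 0
      · exact Or.inl ⟨hw.1, h1⟩
      · exact Or.inr ⟨⟨hw.1, h1⟩, hw.2⟩
    have h1 : (S.filter (fun w => h w ≠ h0)).card ≤ d + (S1.filter (fun w => h w ≠ h0)).card :=
      (Finset.card_le_card hsub).trans ((Finset.card_union_le _ _).trans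
        (Nat.add_le_add_right hS0c _))
    exact_mod_cast h1
  rcases Nat.eq_zero_or_pos D with hD0 | hD1
  · -- both constant
    have hr : R0.natDegree = 0 := by omega
    have hrc := Polynomial.eq_C_of_natDegree_eq_zero hr
    have hr0 : R0.coeff 0 ≠ 0 := by
      intro h0
      rw [h0, Polynomial.C_0] at hrc
      exact hR00 hrc
    have hval : ∀ w ∈ S1, P0.coeff 0 = h w * R0.coeff 0 := by
      intro w hw
      have h1 := hS1h w hw
      rw [hD0] at h1
      simpa [hom] using h1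
    by_cases hS1e : S1 = ∅
    · refine ⟨0, (hsplit 0).trans ?_⟩
      rw [hS1e, Finset.filter_empty, Finset.card_empty]
      push_cast
      linarith
    · obtain ⟨w1, hw1⟩ := Finset.nonempty_iff_ne_empty.2 hS1e
      refine ⟨h w1, (hsplit (h w1)).trans ?_⟩
      have h2 : S1.filter (fun w => h w ≠ h w1) = ∅ := by
        rw [Finset.filter_eq_empty_iff]
        intro w hw
        rw [not_not]
        exact mul_right_cancel₀ hr0 ((hval w hw).symm.trans (hval w1 hw1))
      rw [h2, Finset.card_empty]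
      push_cast
      linarith
  -- `D ≥ 1`
  refine ⟨0, (hsplit 0).trans ?_⟩
  obtain ⟨T, hT⟩ : ∃ T : Finset (ℤ × ℤ), T = S1.filter (fun w => h w ≠ 0) := ⟨_, rfl⟩
  rw [← hT]
  have hTS1 : ∀ w ∈ T, w ∈ S1 := by
    intro w hw
    rw [hT, Finset.mem_filter] at hw
    exact hw.1
  have hTS : ∀ w ∈ T, w ∈ S := by
    intro w hw
    have := hTS1 w hw
    rw [hS1, Finset.mem_filter] at this
    exact this.1
  have hTW : T ⊆ WW a0 B := fun w hw => hS (hTS w hw)
  have hDd : D ≤ d := by omega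
  have hdZ : (1 : ℤ) ≤ d := by exact_mod_cast hd
  have hHd : (1 : ℤ) ≤ 2 * (d : ℤ) * H := by nlinarith
  suffices hmain : (T.card : ℤ) ≤ 2 * d * τ * (a0 + B) by linarith
  rcases Nat.eq_zero_or_pos R0.natDegree with hr | hr
  · -- `R0` is constant
    have hPD : P0.natDegree = D := by
      rw [hD, hr, Nat.max_zero]
    have hrc := Polynomial.eq_C_of_natDegree_eq_zero hr
    have hlc0 : P0.leadingCoeff ≠ 0 := Polynomial.leadingCoeff_ne_zero.2 hP00
    have hlcdvd : P0.leadingCoeff ∣ P.leadingCoeff := by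
      rw [← hGP, Polynomial.leadingCoeff_mul]
      exact dvd_mul_left _ _
    have hPne : P ≠ 0 := by
      rw [← hGP]
      exact mul_ne_zero hG hP00
    have hlcP0 : P.leadingCoeff ≠ 0 := Polynomial.leadingCoeff_ne_zero.2 hPne
    have hlcP : |P.leadingCoeff| ≤ H := hPH _
    have hHZ : H ≤ (Z : ℤ) := by
      refine le_trans ?_ hZ
      have h1 : H ≤ 2 * (d : ℤ) * H := by nlinarith
      have h2 : 2 * (d : ℤ) * H ≤ (2 * (d : ℤ) * H) ^ (2 * d) := le_self_pow₀ hHd (by omega)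
      have h3 : (1 : ℤ) ≤ a0 ^ (2 * d) := one_le_pow₀ ha0
      have h4 : (2 * (d : ℤ) * H) ^ (2 * d) ≤ (2 * (d : ℤ) * H) ^ (2 * d) * a0 ^ (2 * d) :=
        le_mul_of_one_le_right (by positivity) h3
      linarith
    have hnZ : P0.leadingCoeff.natAbs ≤ Z := by
      have h1 : P0.leadingCoeff.natAbs ≤ P.leadingCoeff.natAbs :=
        Nat.le_of_dvd (Int.natAbs_pos.2 hlcP0) (Int.natAbs_dvd_natAbs.2 hlcdvd)
      have h2 : ((P.leadingCoeff.natAbs : ℕ) : ℤ) ≤ (Z : ℤ) := by
        rw [Int.natCast_natAbs]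
        exact hlcP.trans hHZ
      have h3 : P.leadingCoeff.natAbs ≤ Z := by exact_mod_cast h2
      exact h1.trans h3
    have h5 := ratB_case2 a0 B hB τ P0.leadingCoeff.natAbs (Int.natAbs_ne_zero.2 hlc0)
      (hdiv _ (Int.natAbs_pos.2 hlc0) hnZ) T hTW (by
        intro w hw
        rw [Int.natAbs_dvd_natAbs]
        have h6 := hS1h w (hTS1 w hw)
        rw [hrc, hom_C] at h6
        refine ratB_lead D P0 w.1 w.2 (h w * R0.coeff 0 * w.1 ^ (D - 1)) (hcop w (hTS w hw)) ?_ hPD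
        have h7 : w.1 ^ D = w.1 ^ (D - 1) * w.1 := by
          rw [← pow_succ]
          congr 1
          omega
        rw [h6, h7]
        ring)
    have h6 : (τ : ℤ) * B ≤ 2 * d * τ * (a0 + B) := by
      have h7 : (0 : ℤ) ≤ τ := Int.natCast_nonneg τ
      have h8 : (0 : ℤ) ≤ B := by omega
      have h9 : (0 : ℤ) ≤ τ * B := mul_nonneg h7 h8
      have h10 : (0 : ℤ) ≤ τ * a0 := mul_nonneg h7 (by omega)
      have h11 : (2 * (d : ℤ)) * τ * (a0 + B) = 2 * d * (τ * a0) + 2 * d * (τ * B) := by ring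
      rw [h11]
      nlinarith
    exact h5.trans h6
  · obtain ⟨U, V, M, hM0, hMle, hU, hV, hUV⟩ := siegel2 d H hH P R P0 R0 G hGP hGR hrel hG hP00 hR00
      hPd hRd hPH hRH D hD hD1
    have hdvd : ∀ w ∈ T, hom D R0 w.1 w.2 ∣ M * w.1 ^ (D - 1 + D) := by
      intro w hw
      have hx : w.1 ≠ 0 := by have := (hSw w (hTS w hw)).1; omega
      have h1 := hom_mul (D - 1) D U P0 hU hP0D w.1 w.2 hx
      have h2 := hom_mul (D - 1) D V R0 hV hR0D w.1 w.2 hx
      have h3 := hom_add (D - 1 + D) (U * P0) (V * R0) w.1 w.2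
      rw [hUV, hom_C, h1, h2, hS1h w (hTS1 w hw)] at h3
      rw [h3]
      exact dvd_add ((dvd_mul_left _ _).mul_left _) (dvd_mul_left _ _)
    have h5 := ratB_case1 D a0 B ha0 τ R0 hr hR0D T hTW
      (fun x => (M * x ^ (D - 1 + D)).natAbs) (by
        intro x hx1 hx2
        have hne : M * x ^ (D - 1 + D) ≠ 0 := mul_ne_zero hM0 (pow_ne_zero _ (by omega))
        refine ⟨Int.natAbs_ne_zero.2 hne, hdiv _ (Int.natAbs_pos.2 hne) ?_⟩
        have h6 : |M * x ^ (D - 1 + D)| ≤ (Z : ℤ) := by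
          refine le_trans ?_ hZ
          rw [abs_mul, abs_pow, abs_of_pos (by omega : (0 : ℤ) < x)]
          have h7 : x ^ (D - 1 + D) ≤ a0 ^ (2 * d) := by
            calc x ^ (D - 1 + D) ≤ a0 ^ (D - 1 + D) :=
                  pow_le_pow_left₀ (by omega) hx2.le _
              _ ≤ a0 ^ (2 * d) := pow_le_pow_right₀ ha0 (by omega)
          have h8 : (0 : ℤ) ≤ x ^ (D - 1 + D) := pow_nonneg (by omega) _
          exact mul_le_mul hMle h7 h8 ((abs_nonneg M).trans hMle)
        have h9 : (((M * x ^ (D - 1 + D)).natAbs : ℕ) : ℤ) ≤ (Z : ℤ) := by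
          rw [Int.natCast_natAbs]
          exact h6
        exact_mod_cast h9) (by
        intro w hw
        exact Int.natAbs_dvd_natAbs.2 (hdvd w hw))
    have h6 : (2 : ℤ) * D * τ * a0 ≤ 2 * d * τ * (a0 + B) := by
      have hDd' : (D : ℤ) ≤ d := by exact_mod_cast hDd
      have h7 : (0 : ℤ) ≤ τ := Int.natCast_nonneg τ
      have h8 : (0 : ℤ) ≤ τ * a0 := mul_nonneg h7 (by omega)
      have h9 : (0 : ℤ) ≤ τ * B := mul_nonneg h7 (by omega)
      have h10 : (2 : ℤ) * D * τ * a0 = 2 * (D * (τ * a0)) := by ring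
      have h11 : (2 : ℤ) * d * τ * (a0 + B) = 2 * (d * (τ * a0)) + 2 * (d * (τ * B)) := by ring
      have h12 : (D : ℤ) * (τ * a0) ≤ d * (τ * a0) := mul_le_mul_of_nonneg_right hDd' h8
      have h13 : (0 : ℤ) ≤ d * (τ * B) := mul_nonneg (by omega) h9
      rw [h10, h11]
      linarith
    exact h5.trans h6

end FD120
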