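import Pool.Agent.W_fd120a_h34.Defs

set_option autoImplicit false

open Finset
open scoped Classical

namespace FD120

theorem RigA_mem {Q p : ℤ} (h : p ∈ PP Q) : Q ≤ p ∧ p < 2 * Q ∧ Prime p := by
  unfold PP at h
  rw [Finset.mem_filter, Finset.mem_Ico] at h
  exact ⟨h.1.1, h.1.2, h.2⟩

/-- a quotient of a small number is small -/
theorem RigA_quot {N Q K q n n' g : ℤ} (hQ : 0 < Q) (hK : N ≤ K * Q) (hq : Q ≤ q)
    (hn : 1 ≤ n ∧ n ≤ N) (hn' : 1 ≤ n' ∧ n' ≤ N) (hg : n - n' = q * g) : |g| < K := by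
  have h1 : |n - n'| < K * Q := by
    rw [abs_lt]
    constructor <;> linarith [hn.1, hn.2, hn'.1, hn'.2]
  rw [hg, abs_mul, abs_of_pos (lt_of_lt_of_le hQ hq)] at h1
  have h2 : |g| * Q < K * Q := by
    calc |g| * Q ≤ |g| * q := mul_le_mul_of_nonneg_left hq (abs_nonneg g)
      _ = q * |g| := mul_comm _ _
      _ < K * Q := h1
  exact lt_of_mul_lt_mul_right h2 hQ.le

/-- The quantity `D_i(w) g_i(w) + a0 (m_1 - m_i) h(w)` does not depend on `w`.
Identities used: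
`(a0 w2 - mi w1) (a0 α + m1 β) - (a0 w2 - m1 w1) (a0 α + mi β) = a0 (m1 - mi) (w1 α + w2 β)` and
`(a0 w2 - mi w1) (w1' α + w2' β) - (a0 w2' - mi w1') (w1 α + w2 β)
  = (w1' w2 - w1 w2') (a0 α + mi β)`. -/
theorem e_const (N Q L a0 K : ℤ) (hQ : 0 < Q) (hL : 0 < L) (hK : N ≤ K * Q)
    (h5 : 5 * L * K ≤ Q) (ha1 : 1 ≤ a0) (ha : a0 ^ 2 ≤ L)
    (α β m1 mi : ℤ) (hm1 : 1 ≤ m1 ∧ m1 < a0) (hmi : 1 ≤ mi ∧ mi < a0)
    (w w' : ℤ × ℤ)
    (hD : a0 * w.2 - mi * w.1 ∈ PP L) (hD' : a0 * w'.2 - mi * w'.1 ∈ PP L)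
    (hp1 : a0 * α + m1 * β ∈ PP Q) (hpi : a0 * α + mi * β ∈ PP Q)
    (hq : w.1 * α + w.2 * β ∈ PP Q) (hq' : w'.1 * α + w'.2 * β ∈ PP Q)
    (hne : a0 * α + mi * β ≠ w.1 * α + w.2 * β)
    (n1 n1' ni ni' : ℤ) (hn1 : 1 ≤ n1 ∧ n1 ≤ N) (hn1' : 1 ≤ n1' ∧ n1' ≤ N)
    (hni : 1 ≤ ni ∧ ni ≤ N) (hni' : 1 ≤ ni' ∧ ni' ≤ N)
    (hdvd : (a0 * α + mi * β) ∣ ni - ni')
    (g g' : ℤ) (hg : ni - n1 = (w.1 * α + w.2 * β) * g)
    (hg' : ni' - n1' = (w'.1 * α + w'.2 * β) * g')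
    (h h' : ℤ) (hh : n1 - n1' = (a0 * α + m1 * β) * (h - h')) :
    (a0 * w.2 - mi * w.1) * g + a0 * (m1 - mi) * h
      = (a0 * w'.2 - mi * w'.1) * g' + a0 * (m1 - mi) * h' := by
  obtain ⟨d1, d2, -⟩ := RigA_mem hD
  obtain ⟨d1', d2', -⟩ := RigA_mem hD'
  obtain ⟨p1, -, -⟩ := RigA_mem hp1
  obtain ⟨i1, i2, i3⟩ := RigA_mem hpi
  obtain ⟨q1, q2, -⟩ := RigA_mem hq
  obtain ⟨q1', -, -⟩ := RigA_mem hq'
  have hgK : |g| < K := RigA_quot hQ hK q1 hni hn1 hg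
  have hgK' : |g'| < K := RigA_quot hQ hK q1' hni' hn1' hg'
  have hhK : |h - h'| < K := RigA_quot hQ hK p1 hn1 hn1' hh
  set D := a0 * w.2 - mi * w.1 with hDdef
  set D' := a0 * w'.2 - mi * w'.1 with hDdef'
  set Y := (D * g + a0 * (m1 - mi) * h) - (D' * g' + a0 * (m1 - mi) * h') with hY
  have hkey : (a0 * α + mi * β) ∣ (w.1 * α + w.2 * β) * Y := by
    obtain ⟨t, ht⟩ := hdvd
    refine ⟨D * t - (a0 * w.2 - m1 * w.1) * (h - h') + (w'.1 * w.2 - w.1 * w'.2) * g', ?_⟩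
    have e1 : D * (ni - ni') = D * ((a0 * α + mi * β) * t) := by rw [ht]
    rw [hY]
    linear_combination D * hg' - D * hg - D * hh + e1
  have hY0 : Y = 0 := by
    have hdY : (a0 * α + mi * β) ∣ Y := by
      rcases i3.dvd_or_dvd hkey with h1 | h1
      · exfalso
        obtain ⟨c, hc⟩ := h1
        have hpos : 0 < a0 * α + mi * β := lt_of_lt_of_le hQ i1
        have hqpos : 0 < w.1 * α + w.2 * β := lt_of_lt_of_le hQ q1
        have hc0 : 0 < c := by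
          by_contra hcon
          push Not at hcon
          have := mul_nonpos_of_nonneg_of_nonpos hpos.le hcon
          linarith
        have hc2 : c < 2 := by
          by_contra hcon
          push Not at hcon
          have := mul_le_mul_of_nonneg_left hcon hpos.le
          linarith
        have hc1 : c = 1 := by omega
        rw [hc1, mul_one] at hc
        exact hne hc.symm
      · exact h1
    apply Int.eq_zero_of_abs_lt_dvd hdY
    refine lt_of_lt_of_le ?_ i1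
    refine lt_of_lt_of_le ?_ h5
    have hK0 : 0 < K := lt_of_le_of_lt (abs_nonneg g) hgK
    have hDa : |D| < 2 * L := by
      rw [abs_of_pos (lt_of_lt_of_le hL d1)]; exact d2
    have hDa' : |D'| < 2 * L := by
      rw [abs_of_pos (lt_of_lt_of_le hL d1')]; exact d2'
    have hma : |a0 * (m1 - mi)| ≤ L := by
      rw [abs_mul, abs_of_pos (show (0 : ℤ) < a0 by linarith)]
      have h1 : |m1 - mi| ≤ a0 := by
        rw [abs_le]
        constructor <;> linarith [hm1.1, hm1.2, hmi.1, hmi.2]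
      calc a0 * |m1 - mi| ≤ a0 * a0 := mul_le_mul_of_nonneg_left h1 (by linarith)
        _ = a0 ^ 2 := by ring
        _ ≤ L := ha
    have hYe : Y = D * g + a0 * (m1 - mi) * (h - h') - D' * g' := by rw [hY]; ring
    have t1 : |D * g| < 2 * L * K := by
      rw [abs_mul]
      exact mul_lt_mul'' hDa hgK (abs_nonneg _) (abs_nonneg _)
    have t2 : |D' * g'| < 2 * L * K := by
      rw [abs_mul]
      exact mul_lt_mul'' hDa' hgK' (abs_nonneg _) (abs_nonneg _)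
    have t3 : |a0 * (m1 - mi) * (h - h')| ≤ L * K := by
      rw [abs_mul]
      exact mul_le_mul hma hhK.le (abs_nonneg _) hL.le
    have t4 : |Y| ≤ |D * g| + |a0 * (m1 - mi) * (h - h')| + |D' * g'| := by
      rw [hYe]
      exact (abs_sub _ _).trans (add_le_add (abs_add_le _ _) le_rfl)
    nlinarith [t1, t2, t3, t4]
  linarith [hY0, hY]

end FD120
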