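import Pool.Agent.W_fd120a_h34.Sie1

set_option autoImplicit false

open Finset Polynomial
open scoped Classical

namespace FD120

/-- One pair `(P, R)` of forms of degree `3k - 1` interpolates every pair `(w, h)` which satisfies
the `4k` divisibilities `a0 w2 - m_i w1 ∣ e_i + c_i h`, `c_i = a0 (m_i - m1)`. -/
theorem rigC1 (k : ℕ) (hk : 1 ≤ k) (L a0 B A K1 m1 : ℤ) (ha1 : 1 ≤ a0) (haL : a0 < L)
    (haB : a0 ≤ B) (hA : 1 ≤ A) (hK1 : 0 ≤ K1) (hm1 : 1 ≤ m1 ∧ m1 < a0)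
    (m e : Fin (4 * k) → ℤ) (hm : ∀ i, 1 ≤ m i ∧ m i < a0) (hminj : Function.Injective m)
    (hmm : ∀ i, m i ≠ m1)
    (hc : ∀ i, |a0 * (m i - m1)| ≤ A) (he : ∀ i, |e i| ≤ A)
    (hsize : 3 * (k : ℤ) * (1 + K1) * (6 * (k : ℤ) * A * a0 ^ (3 * k - 1)) ^ 2
      * B ^ (3 * k - 1) < L ^ (4 * k)) :
    ∃ P R : ℤ[X], (P ≠ 0 ∨ R ≠ 0) ∧ P.natDegree ≤ 3 * k - 1 ∧ R.natDegree ≤ 3 * k - 1 ∧
      (∀ j, |P.coeff j| ≤ (6 * (k : ℤ) * A * a0 ^ (3 * k - 1)) ^ 2) ∧
      (∀ j, |R.coeff j| ≤ (6 * (k : ℤ) * A * a0 ^ (3 * k - 1)) ^ 2) ∧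
      ∀ w ∈ WW a0 B, ∀ h : ℤ, |h| ≤ K1 →
        (∀ i, a0 * w.2 - m i * w.1 ∈ PP L ∧
          (a0 * w.2 - m i * w.1) ∣ e i + a0 * (m i - m1) * h) →
        hom (3 * k - 1) P w.1 w.2 = h * hom (3 * k - 1) R w.1 w.2 := by
  have hm' : ∀ i, |m i| ≤ a0 := fun i => by
    rw [abs_of_pos (by linarith [(hm i).1])]
    exact (hm i).2.le
  obtain ⟨P, R, hPR, hPd, hRd, hPc, hRc, heq⟩ := siegel1 k hk a0 A ha1 hA m
    (fun i => a0 * (m i - m1)) e hm' hc he
  refine ⟨P, R, hPR, hPd, hRd, hPc, hRc, ?_⟩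
  intro w hw h hh hdiv
  obtain ⟨d, hd⟩ : ∃ d, d = 3 * k - 1 := ⟨_, rfl⟩
  rw [← hd] at heq ⊢
  rw [← hd] at hsize hPc hRc
  obtain ⟨H, hH⟩ : ∃ H, H = (6 * (k : ℤ) * A * a0 ^ d) ^ 2 := ⟨_, rfl⟩
  rw [← hH] at hsize hPc hRc
  have hH0 : 0 ≤ H := by rw [hH]; positivity
  unfold WW at hw
  rw [Finset.mem_product, Finset.mem_Ico, Finset.mem_Icc] at hw
  obtain ⟨⟨hw1, hw1'⟩, hw2, hw2'⟩ := hw
  obtain ⟨l, hl⟩ : ∃ l : Fin (4 * k) → ℤ, l = fun i => a0 * w.2 - m i * w.1 := ⟨_, rfl⟩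
  have hlP : ∀ i, l i ∈ PP L := fun i => by rw [hl]; exact (hdiv i).1
  have hle : ∀ i, l i ∣ e i + a0 * (m i - m1) * h := fun i => by rw [hl]; exact (hdiv i).2
  have hlprime : ∀ i, Prime (l i) := fun i => by
    have h1 := hlP i
    unfold PP at h1
    exact (Finset.mem_filter.1 h1).2
  have hlL : ∀ i, L ≤ l i ∧ l i < 2 * L := fun i => by
    have h1 := hlP i
    unfold PP at h1
    exact Finset.mem_Ico.1 (Finset.mem_filter.1 h1).1
  have hL0 : 0 < L := by linarith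
  obtain ⟨X, hX⟩ : ∃ X, X = hom d P w.1 w.2 - h * hom d R w.1 w.2 := ⟨_, rfl⟩
  -- divisibility
  have hdX : ∀ i, l i ∣ X := by
    intro i
    have hcP : l i ∣ a0 ^ d * hom d P w.1 w.2 - w.1 ^ d * hom d P a0 (m i) :=
      hom_congr d P a0 (m i) w.1 w.2 (l i) (by rw [hl])
    have hcR : l i ∣ a0 ^ d * hom d R w.1 w.2 - w.1 ^ d * hom d R a0 (m i) :=
      hom_congr d R a0 (m i) w.1 w.2 (l i) (by rw [hl])
    have hfull : l i ∣ a0 ^ d * (a0 * (m i - m1)) * X := by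
      have h1 : a0 ^ d * (a0 * (m i - m1)) * X =
          (a0 * (m i - m1)) * (a0 ^ d * hom d P w.1 w.2 - w.1 ^ d * hom d P a0 (m i)) -
          (a0 * (m i - m1)) * h * (a0 ^ d * hom d R w.1 w.2 - w.1 ^ d * hom d R a0 (m i)) -
          (e i + a0 * (m i - m1) * h) * (w.1 ^ d * hom d R a0 (m i)) := by
        rw [hX]
        linear_combination (w.1 ^ d) * heq i
      rw [h1]
      exact dvd_sub (dvd_sub (Dvd.dvd.mul_left hcP _) (Dvd.dvd.mul_left hcR _))
        (Dvd.dvd.mul_right (hle i) _)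
    have hna : ¬ l i ∣ a0 := fun hdv => by
      have h1 := Int.le_of_dvd (by linarith) hdv
      linarith [(hlL i).1]
    have hnm : ¬ l i ∣ m i - m1 := fun hdv => by
      have h1 : |m i - m1| < l i := by
        rw [abs_lt]
        constructor
        · linarith [(hm i).1, hm1.2, (hlL i).1]
        · linarith [(hm i).2, hm1.1, (hlL i).1]
      have h2 := Int.eq_zero_of_abs_lt_dvd hdv h1
      exact hmm i (by linarith)
    rcases (hlprime i).dvd_or_dvd hfull with h1 | h1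
    · rcases (hlprime i).dvd_or_dvd h1 with h2 | h2
      · exact absurd ((hlprime i).dvd_of_dvd_pow h2) hna
      · rcases (hlprime i).dvd_or_dvd h2 with h3 | h3
        · exact absurd h3 hna
        · exact absurd h3 hnm
    · exact h1
  -- the primes are distinct
  have hcop : ((Finset.univ : Finset (Fin (4 * k))) : Set (Fin (4 * k))).Pairwise
      (Function.onFun IsCoprime l) := by
    intro i _ j _ hij
    change IsCoprime (l i) (l j)
    rw [(hlprime i).coprime_iff_not_dvd]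
    rintro ⟨t, ht⟩
    have hne : l i ≠ l j := by
      intro he'
      rw [hl] at he'
      have h1 : (m i - m j) * w.1 = 0 := by
        have h2 : a0 * w.2 - m i * w.1 = a0 * w.2 - m j * w.1 := he'
        linarith
      rcases mul_eq_zero.1 h1 with h2 | h2
      · exact hij (hminj (by linarith))
      · linarith
    have hi := hlL i
    have hj := hlL j
    have ht1 : t = 1 := by
      have h1 : 0 < t := by
        by_contra hcon
        rw [not_lt] at hcon
        have : l i * t ≤ 0 := mul_nonpos_of_nonneg_of_nonpos (by linarith) hcon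
        linarith
      have h2 : t < 2 := by
        by_contra hcon
        rw [not_lt] at hcon
        have : l i * 2 ≤ l i * t := mul_le_mul_of_nonneg_left hcon (by linarith)
        linarith
      omega
    rw [ht1, mul_one] at ht
    exact hne ht.symm
  have hprod : (∏ i, l i) ∣ X :=
    Finset.prod_dvd_of_coprime hcop fun i _ => hdX i
  have hprodge : L ^ (4 * k) ≤ ∏ i, l i := by
    calc L ^ (4 * k) = ∏ _i : Fin (4 * k), L := by
          rw [Finset.prod_const, Finset.card_univ, Fintype.card_fin]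
      _ ≤ ∏ i, l i := Finset.prod_le_prod (fun i _ => hL0.le) fun i _ => (hlL i).1
  have hwB1 : |w.1| ≤ B := by
    rw [abs_of_pos (by linarith)]
    linarith
  have hwB2 : |w.2| ≤ B := by
    rw [abs_of_pos (by linarith)]
    exact hw2'
  have hbP := hom_abs_le d P H B hPc w.1 w.2 hwB1 hwB2
  have hbR := hom_abs_le d R H B hRc w.1 w.2 hwB1 hwB2
  have hd1 : (d : ℤ) + 1 = 3 * k := by
    rw [hd]
    have : 1 ≤ 3 * k := by omega
    push_cast [this]
    ring
  rw [hd1] at hbP hbR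
  have hXb : |X| ≤ 3 * (k : ℤ) * (1 + K1) * H * B ^ d := by
    have h1 : |X| ≤ |hom d P w.1 w.2| + |h * hom d R w.1 w.2| := by
      rw [hX]
      exact abs_sub _ _
    rw [abs_mul] at h1
    have h2 : |h| * |hom d R w.1 w.2| ≤ K1 * (3 * (k : ℤ) * H * B ^ d) :=
      mul_le_mul hh hbR (abs_nonneg _) hK1
    calc |X| ≤ 3 * (k : ℤ) * H * B ^ d + K1 * (3 * (k : ℤ) * H * B ^ d) := by linarith
      _ = _ := by ring
  have hX0 : X = 0 := by
    apply Int.eq_zero_of_abs_lt_dvd hprod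
    linarith
  rw [hX] at hX0
  linarith

end FD120
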