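import Pool.Agent.W_fd120a_h34.RigA
import Pool.Agent.W_fd120a_h34.RigC1
import Pool.Agent.W_fd120a_h34.RatB

set_option autoImplicit false

open Finset Polynomial
open scoped Classical

namespace FD120

theorem rigC_pp {Q p : ℤ} (h : p ∈ PP Q) : Q ≤ p ∧ p < 2 * Q ∧ Prime p := by
  unfold PP at h
  obtain ⟨h1, h2⟩ := Finset.mem_filter.1 h
  exact ⟨(Finset.mem_Ico.1 h1).1, (Finset.mem_Ico.1 h1).2, h2⟩

/-- what `Rel` says -/
theorem rigC_rel {N Q L a0 : ℤ} {T : ℕ} {res : ℤ → ℤ} {π : ℤ × ℤ} {m : ℤ} {w : ℤ × ℤ}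
    (h : Rel N Q L a0 T res π m w) :
    a0 * w.2 - m * w.1 ∈ PP L ∧ a0 * π.1 + m * π.2 ∈ PP Q ∧ w.1 * π.1 + w.2 * π.2 ∈ PP Q ∧
      a0 * π.1 + m * π.2 ≠ w.1 * π.1 + w.2 * π.2 ∧
      Meets N Q T res (a0 * π.1 + m * π.2) (w.1 * π.1 + w.2 * π.2) (nn N Q a0 T res π m w) := by
  obtain ⟨h1, h2⟩ := h
  unfold EE at h2
  obtain ⟨h3, h4, h5⟩ := Finset.mem_filter.1 h2
  obtain ⟨h6, h7⟩ := Finset.mem_product.1 h3
  refine ⟨h1, h6, h7, h4, ?_⟩
  unfold nn pt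
  have h5' : ∃ n, Meets N Q T res (a0 * π.1 + m * π.2) (w.1 * π.1 + w.2 * π.2) n := h5
  rw [dif_pos h5']
  exact h5'.choose_spec

/-- the quotient of a difference of two points by a prime is at most `K` -/
theorem rigC_quot {N Q K p x y g : ℤ} (hQ : 0 < Q) (hK0 : 0 < K) (hK : N ≤ K * Q) (hp : Q ≤ p)
    (hx : 1 ≤ x ∧ x ≤ N) (hy : 1 ≤ y ∧ y ≤ N) (h : x - y = p * g) : |g| ≤ K := by
  by_contra hcon
  rw [not_le] at hcon
  have h1 : |x - y| < N := by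
    rw [abs_lt]
    constructor <;> linarith [hx.1, hx.2, hy.1, hy.2]
  rw [h, abs_mul, abs_of_pos (by linarith : 0 < p)] at h1
  have h2 : Q * K ≤ p * |g| := mul_le_mul hp hcon.le hK0.le (by linarith)
  have h3 : Q * K = K * Q := mul_comm _ _
  linarith

theorem rigC_cop {L a0 B m : ℤ} (haL : a0 < L) {w : ℤ × ℤ} (hw : w ∈ WW a0 B)
    (h : a0 * w.2 - m * w.1 ∈ PP L) : IsCoprime w.1 w.2 := by
  obtain ⟨h1, _, h3⟩ := rigC_pp h
  unfold WW at hw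
  obtain ⟨hw1, _⟩ := Finset.mem_product.1 hw
  obtain ⟨hw2, hw3⟩ := Finset.mem_Ico.1 hw1
  have h4 : ¬ (a0 * w.2 - m * w.1) ∣ w.1 := by
    intro h5
    have h6 := Int.le_of_dvd (by linarith) h5
    linarith
  obtain ⟨u, v, h5⟩ := h3.coprime_iff_not_dvd.2 h4
  exact ⟨v - u * m, u * a0, by linear_combination h5⟩

/-- Rigidity in one plane. -/
theorem rigid (k : ℕ) (hk : 1 ≤ k) (N Q L a0 B K : ℤ) (T Z τ : ℕ) (res : ℤ → ℤ)
    (hQ : 0 < Q) (hN : 1 ≤ N) (hK : N ≤ K * Q) (h5 : 5 * L * K ≤ Q)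
    (ha0 : Prime a0) (ha1 : 1 < a0) (ha : a0 ^ 2 ≤ L) (haB : a0 ≤ B)
    (hsize : 3 * (k : ℤ) * (1 + K) * (6 * (k : ℤ) * (2 * L * K) * a0 ^ (3 * k - 1)) ^ 2
      * B ^ (3 * k - 1) < L ^ (4 * k))
    (hZ : (2 * ((3 * k - 1 : ℕ) : ℤ) * (6 * (k : ℤ) * (2 * L * K) * a0 ^ (3 * k - 1)) ^ 2)
        ^ (2 * (3 * k - 1)) * a0 ^ (2 * (3 * k - 1)) ≤ (Z : ℤ))
    (hdiv : ∀ n : ℕ, 0 < n → n ≤ Z → n.divisors.card ≤ τ)
    (π : ℤ × ℤ) (f : Fin (4 * k + 1) → ℤ) (hf : ∀ i, f i ∈ Finset.Ico 1 a0)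
    (hinj : Function.Injective f) :
    ∃ n0 : ℤ, (((WW a0 B).filter (fun w => (∀ i, Rel N Q L a0 T res π (f i) w) ∧
      nn N Q a0 T res π (f 0) w ≠ n0)).card : ℤ)
      ≤ 2 * ((3 * k - 1 : ℕ) : ℤ) * τ * (a0 + B) + ((3 * k - 1 : ℕ) : ℤ) := by
  obtain ⟨S, hS⟩ : ∃ S, S = (WW a0 B).filter (fun w => ∀ i, Rel N Q L a0 T res π (f i) w) :=
    ⟨_, rfl⟩
  rcases S.eq_empty_or_nonempty with hE | ⟨w0, hw0⟩
  · refine ⟨0, ?_⟩
    have h1 : (WW a0 B).filter (fun w => (∀ i, Rel N Q L a0 T res π (f i) w) ∧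
        nn N Q a0 T res π (f 0) w ≠ 0) = ∅ := by
      rw [Finset.eq_empty_iff_forall_notMem]
      intro w hw
      obtain ⟨h2, h3, _⟩ := Finset.mem_filter.1 hw
      have h4 : w ∈ S := by rw [hS]; exact Finset.mem_filter.2 ⟨h2, h3⟩
      rw [hE] at h4
      exact Finset.notMem_empty w h4
    rw [h1, Finset.card_empty]
    have : (0 : ℤ) ≤ a0 + B := by linarith
    positivity
  have hL0 : 0 < L := lt_of_lt_of_le (by positivity) ha
  have haL : a0 < L := by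
    have : a0 * 1 < a0 * a0 := mul_lt_mul_of_pos_left ha1 (by linarith)
    linarith
  have hK0 : 0 < K := by
    by_contra hcon
    rw [not_lt] at hcon
    have : K * Q ≤ 0 := mul_nonpos_of_nonpos_of_nonneg hcon hQ.le
    linarith
  have hmem : ∀ w ∈ S, w ∈ WW a0 B ∧ ∀ i, Rel N Q L a0 T res π (f i) w := fun w hw => by
    rw [hS] at hw
    exact Finset.mem_filter.1 hw
  obtain ⟨n, hn⟩ : ∃ n : Fin (4 * k + 1) → ℤ × ℤ → ℤ, n = fun i w => nn N Q a0 T res π (f i) w :=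
    ⟨_, rfl⟩
  obtain ⟨p, hp⟩ : ∃ p : Fin (4 * k + 1) → ℤ, p = fun i => a0 * π.1 + f i * π.2 := ⟨_, rfl⟩
  obtain ⟨q, hq⟩ : ∃ q : ℤ × ℤ → ℤ, q = fun w => w.1 * π.1 + w.2 * π.2 := ⟨_, rfl⟩
  have hrel : ∀ w ∈ S, ∀ i, a0 * w.2 - f i * w.1 ∈ PP L ∧ p i ∈ PP Q ∧ q w ∈ PP Q ∧
      p i ≠ q w ∧ Meets N Q T res (p i) (q w) (n i w) := fun w hw i => by
    rw [hp, hq, hn]
    exact rigC_rel ((hmem w hw).2 i)
  -- the quotients
  have hdp : ∀ w ∈ S, ∀ i, p i ∣ n i w - n i w0 := fun w hw i => by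
    have h1 := (hrel w hw i).2.2.2.2.2.2.1
    have h2 := (hrel w0 hw0 i).2.2.2.2.2.2.1
    have h3 : n i w - n i w0 = (n i w - res (p i)) - (n i w0 - res (p i)) := by ring
    rw [h3]
    exact dvd_sub h1 h2
  have hdq : ∀ w ∈ S, ∀ i, q w ∣ n i w - n 0 w := fun w hw i => by
    have h1 := (hrel w hw i).2.2.2.2.2.2.2.1
    have h2 := (hrel w hw 0).2.2.2.2.2.2.2.1
    have h3 : n i w - n 0 w = (n i w - res (q w)) - (n 0 w - res (q w)) := by ring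
    rw [h3]
    exact dvd_sub h1 h2
  obtain ⟨h, hh⟩ : ∃ h : ℤ × ℤ → ℤ, h = fun w => (n 0 w - n 0 w0) / p 0 := ⟨_, rfl⟩
  have hhs : ∀ w ∈ S, n 0 w - n 0 w0 = p 0 * h w := fun w hw => by
    rw [hh]
    exact (Int.mul_ediv_cancel' (hdp w hw 0)).symm
  have hnb : ∀ w ∈ S, ∀ i, 1 ≤ n i w ∧ n i w ≤ N := fun w hw i =>
    ⟨(hrel w hw i).2.2.2.2.1, (hrel w hw i).2.2.2.2.2.1⟩
  have hhb : ∀ w ∈ S, |h w| ≤ K := fun w hw =>
    rigC_quot hQ hK0 hK (rigC_pp (hrel w hw 0).2.1).1 (hnb w hw 0) (hnb w0 hw0 0) (hhs w hw)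
  obtain ⟨e, he⟩ : ∃ e : Fin (4 * k) → ℤ,
      e = fun i => (a0 * w0.2 - f i.succ * w0.1) * ((n i.succ w0 - n 0 w0) / q w0) := ⟨_, rfl⟩
  have hdivs : ∀ w ∈ S, ∀ i : Fin (4 * k), a0 * w.2 - f i.succ * w.1 ∈ PP L ∧
      (a0 * w.2 - f i.succ * w.1) ∣ e i + a0 * (f i.succ - f 0) * h w := by
    intro w hw i
    refine ⟨(hrel w hw i.succ).1, ?_⟩
    have h1 := hrel w hw i.succ
    have h1' := hrel w0 hw0 i.succ
    have h2 := hrel w hw 0
    have hfi := Finset.mem_Ico.1 (hf i.succ)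
    have hf0 := Finset.mem_Ico.1 (hf 0)
    have h3 := e_const N Q L a0 K hQ hL0 hK h5 ha1.le ha π.1 π.2 (f 0) (f i.succ) hf0 hfi w w0
      h1.1 h1'.1 (by have := h2.2.1; rw [hp] at this; exact this)
      (by have := h1.2.1; rw [hp] at this; exact this)
      (by have := h1.2.2.1; rw [hq] at this; exact this)
      (by have := h1'.2.2.1; rw [hq] at this; exact this)
      (by have := h1.2.2.2.1; rw [hp, hq] at this; exact this)
      (n 0 w) (n 0 w0) (n i.succ w) (n i.succ w0) (hnb w hw 0) (hnb w0 hw0 0)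
      (hnb w hw i.succ) (hnb w0 hw0 i.succ)
      (by have := hdp w hw i.succ; rw [hp] at this; exact this)
      ((n i.succ w - n 0 w) / q w) ((n i.succ w0 - n 0 w0) / q w0)
      (by
        have := (Int.mul_ediv_cancel' (hdq w hw i.succ)).symm
        rw [hq] at this ⊢
        exact this)
      (by
        have := (Int.mul_ediv_cancel' (hdq w0 hw0 i.succ)).symm
        rw [hq] at this ⊢
        exact this)
      (h w) 0
      (by
        have := hhs w hw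
        rw [hp] at this
        rw [sub_zero]
        exact this)
    refine ⟨(n i.succ w - n 0 w) / q w, ?_⟩
    rw [he]
    linear_combination -h3
  have hebd : ∀ i, |e i| ≤ 2 * L * K := by
    intro i
    rw [he]
    have h1 := rigC_pp (hrel w0 hw0 i.succ).1
    have h2 := rigC_quot hQ hK0 hK (rigC_pp (hrel w0 hw0 i.succ).2.2.1).1 (hnb w0 hw0 i.succ)
      (hnb w0 hw0 0) (Int.mul_ediv_cancel' (hdq w0 hw0 i.succ)).symm
    rw [abs_mul]
    refine mul_le_mul ?_ h2 (abs_nonneg _) (by linarith)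
    rw [abs_of_pos (by linarith [h1.1])]
    exact h1.2.1.le
  have hA : 1 ≤ 2 * L * K := by
    have : 0 < 2 * L * K := by positivity
    linarith
  have hcb : ∀ i : Fin (4 * k), |a0 * (f i.succ - f 0)| ≤ 2 * L * K := by
    intro i
    have hfi := Finset.mem_Ico.1 (hf i.succ)
    have hf0 := Finset.mem_Ico.1 (hf 0)
    have h1 : |f i.succ - f 0| ≤ a0 := by
      rw [abs_le]
      constructor <;> linarith [hfi.1, hfi.2, hf0.1, hf0.2]
    rw [abs_mul, abs_of_pos (by linarith : 0 < a0)]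
    have h2 : a0 * |f i.succ - f 0| ≤ a0 * a0 := mul_le_mul_of_nonneg_left h1 (by linarith)
    have h3 : 2 * L * 1 ≤ 2 * L * K := mul_le_mul_of_nonneg_left hK0 (by linarith)
    have h4 : a0 * a0 = a0 ^ 2 := by ring
    linarith
  have hf0 := Finset.mem_Ico.1 (hf 0)
  obtain ⟨P, R, hPR, hPd, hRd, hPc, hRc, hmain⟩ := rigC1 k hk L a0 B (2 * L * K) K (f 0)
    ha1.le haL haB hA hK0.le hf0 (fun i => f i.succ) e
    (fun i => Finset.mem_Ico.1 (hf i.succ))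
    (fun i j hij => Fin.succ_injective _ (hinj hij))
    (fun i hi => Fin.succ_ne_zero i (hinj hi)) hcb hebd hsize
  have hH : (1 : ℤ) ≤ (6 * (k : ℤ) * (2 * L * K) * a0 ^ (3 * k - 1)) ^ 2 := by
    have hk' : (0 : ℤ) < k := by exact_mod_cast hk
    have h1 : 0 < a0 := by linarith
    have : 0 < (6 * (k : ℤ) * (2 * L * K) * a0 ^ (3 * k - 1)) ^ 2 := by positivity
    linarith
  obtain ⟨h0, hh0⟩ := ratB (3 * k - 1) (by omega)
    ((6 * (k : ℤ) * (2 * L * K) * a0 ^ (3 * k - 1)) ^ 2) a0 B hH ha1.le (by linarith) Z τ P R hPR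
    hPd hRd hPc hRc hZ hdiv S (fun w hw => (hmem w hw).1)
    (fun w hw => rigC_cop haL (hmem w hw).1 (hrel w hw 0).1) h
    (fun w hw => hmain w (hmem w hw).1 (h w) (hhb w hw) (hdivs w hw))
  refine ⟨n 0 w0 + p 0 * h0, le_trans ?_ hh0⟩
  have hsub : (WW a0 B).filter (fun w => (∀ i, Rel N Q L a0 T res π (f i) w) ∧
      nn N Q a0 T res π (f 0) w ≠ n 0 w0 + p 0 * h0) ⊆ S.filter (fun w => h w ≠ h0) := by
    intro w hw
    obtain ⟨h2, h3, h4⟩ := Finset.mem_filter.1 hw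
    have h6 : w ∈ S := by rw [hS]; exact Finset.mem_filter.2 ⟨h2, h3⟩
    refine Finset.mem_filter.2 ⟨h6, ?_⟩
    intro h7
    apply h4
    have h8 := hhs w h6
    rw [h7] at h8
    have h9 : nn N Q a0 T res π (f 0) w = n 0 w := by rw [hn]
    rw [h9]
    linarith
  exact_mod_cast Finset.card_le_card hsub

end FD120
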