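import Pool.Agent.W_fd120a_h34.Hom

set_option autoImplicit false

open Finset Polynomial
open scoped Classical

namespace FD120

/-- the polynomial with coefficients `t 0, ..., t (n - 1)` -/
noncomputable def sie1Pol (n : ℕ) (t : Fin n → ℤ) : ℤ[X] :=
  ∑ j : Fin n, monomial (j : ℕ) (t j)

theorem sie1Pol_coeff (n : ℕ) (t : Fin n → ℤ) (j : ℕ) :
    (sie1Pol n t).coeff j = if h : j < n then t ⟨j, h⟩ else 0 := by
  unfold sie1Pol
  rw [finsetSum_coeff]
  simp only [coeff_monomial]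
  split_ifs with h
  · rw [Finset.sum_eq_single (⟨j, h⟩ : Fin n)]
    · simp
    · intro b _ hb
      rw [if_neg]
      intro hbj
      exact hb (Fin.ext hbj)
    · intro h'
      exact absurd (Finset.mem_univ _) h'
  · apply Finset.sum_eq_zero
    intro b _
    rw [if_neg]
    intro hbj
    exact h (hbj ▸ b.2)

theorem sie1Pol_natDegree (n : ℕ) (t : Fin n → ℤ) : (sie1Pol n t).natDegree ≤ n - 1 := by
  rw [natDegree_le_iff_coeff_eq_zero]
  intro j hj
  rw [sie1Pol_coeff, dif_neg (by omega)]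

theorem sie1Pol_hom (n : ℕ) (hn : 1 ≤ n) (t : Fin n → ℤ) (x y : ℤ) :
    hom (n - 1) (sie1Pol n t) x y = ∑ j : Fin n, t j * (x ^ (n - 1 - (j : ℕ)) * y ^ (j : ℕ)) := by
  unfold hom
  rw [show n - 1 + 1 = n by omega, Finset.sum_range]
  apply Finset.sum_congr rfl
  intro j _
  rw [sie1Pol_coeff, dif_pos j.2, mul_assoc]

attribute [local instance] Matrix.seminormedAddCommGroup in
/-- Siegel's lemma with `4k` equations and `6k` unknowns. -/
theorem sie1_siegel (k : ℕ) (hk : 1 ≤ k)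
    (M : Matrix (Fin (4 * k)) (Fin (3 * k) ⊕ Fin (3 * k)) ℤ) (C : ℤ) (hC : 1 ≤ C)
    (hM : ∀ i j, |M i j| ≤ C) :
    ∃ t : Fin (3 * k) ⊕ Fin (3 * k) → ℤ, t ≠ 0 ∧ M.mulVec t = 0 ∧
      ∀ j, |t j| ≤ (6 * (k : ℤ) * C) ^ 2 := by
  have hcard1 : Fintype.card (Fin (4 * k)) = 4 * k := Fintype.card_fin _
  have hcard2 : Fintype.card (Fin (3 * k) ⊕ Fin (3 * k)) = 6 * k := by
    rw [Fintype.card_sum, Fintype.card_fin]
    ring
  obtain ⟨t, ht0, ht1, ht2⟩ := Int.Matrix.exists_ne_zero_int_vec_norm_le M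
    (by rw [hcard1, hcard2]; omega) (by rw [hcard1]; omega)
  refine ⟨t, ht0, ht1, fun j => ?_⟩
  have hk' : (0 : ℝ) < k := by exact_mod_cast hk
  have hCr : (1 : ℝ) ≤ (C : ℝ) := by exact_mod_cast hC
  have hnorm : ‖M‖ ≤ (C : ℝ) := by
    rw [Matrix.norm_le_iff (by linarith)]
    intro i j
    rw [Int.norm_eq_abs]
    exact_mod_cast hM i j
  have hmax : max 1 ‖M‖ ≤ (C : ℝ) := max_le hCr hnorm
  rw [hcard1, hcard2] at ht2
  have hexp : ((4 * k : ℕ) : ℝ) / (((6 * k : ℕ) : ℝ) - ((4 * k : ℕ) : ℝ)) = 2 := by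
    push_cast
    rw [div_eq_iff (by nlinarith)]
    ring
  rw [hexp] at ht2
  have h1 : ‖t j‖ ≤ ((6 * k : ℕ) * (C : ℝ)) ^ (2 : ℝ) := by
    refine (norm_le_pi_norm t j).trans (ht2.trans ?_)
    apply Real.rpow_le_rpow
    · positivity
    · exact mul_le_mul_of_nonneg_left hmax (by positivity)
    · norm_num
  rw [Int.norm_eq_abs, Real.rpow_two] at h1
  push_cast at h1
  exact_mod_cast h1

/-- First use of Siegel's lemma: `4k` equations, `6k` unknowns, exponent `2`. -/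
theorem siegel1 (k : ℕ) (hk : 1 ≤ k) (a0 A : ℤ) (ha0 : 1 ≤ a0) (hA : 1 ≤ A)
    (m c e : Fin (4 * k) → ℤ) (hm : ∀ i, |m i| ≤ a0) (hc : ∀ i, |c i| ≤ A)
    (he : ∀ i, |e i| ≤ A) :
    ∃ P R : ℤ[X], (P ≠ 0 ∨ R ≠ 0) ∧ P.natDegree ≤ 3 * k - 1 ∧ R.natDegree ≤ 3 * k - 1 ∧
      (∀ j, |P.coeff j| ≤ (6 * (k : ℤ) * A * a0 ^ (3 * k - 1)) ^ 2) ∧
      (∀ j, |R.coeff j| ≤ (6 * (k : ℤ) * A * a0 ^ (3 * k - 1)) ^ 2) ∧
      ∀ i, c i * hom (3 * k - 1) P a0 (m i) + e i * hom (3 * k - 1) R a0 (m i) = 0 := by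
  have hC : 1 ≤ A * a0 ^ (3 * k - 1) := by
    have h1 : 1 ≤ a0 ^ (3 * k - 1) := one_le_pow₀ ha0
    nlinarith
  have hent : ∀ (u : ℤ), |u| ≤ A → ∀ (y : ℤ), |y| ≤ a0 → ∀ j : Fin (3 * k),
      |u * (a0 ^ (3 * k - 1 - (j : ℕ)) * y ^ (j : ℕ))| ≤ A * a0 ^ (3 * k - 1) := by
    intro u hu y hy j
    have h1 : |a0 ^ (3 * k - 1 - (j : ℕ)) * y ^ (j : ℕ)| ≤ a0 ^ (3 * k - 1) := by
      rw [abs_mul, abs_pow, abs_pow, abs_of_nonneg (by omega : (0 : ℤ) ≤ a0)]
      calc a0 ^ (3 * k - 1 - (j : ℕ)) * |y| ^ (j : ℕ)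
          ≤ a0 ^ (3 * k - 1 - (j : ℕ)) * a0 ^ (j : ℕ) := by
            apply mul_le_mul_of_nonneg_left _ (pow_nonneg (by omega) _)
            exact pow_le_pow_left₀ (abs_nonneg _) hy _
        _ = a0 ^ (3 * k - 1) := by
            rw [← pow_add]
            congr 1
            have := j.2
            omega
    rw [abs_mul]
    exact mul_le_mul hu h1 (abs_nonneg _) (by omega)
  obtain ⟨t, ht0, ht1, ht2⟩ := sie1_siegel k hk (Matrix.of fun i j => Sum.elim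
    (fun j : Fin (3 * k) => c i * (a0 ^ (3 * k - 1 - (j : ℕ)) * m i ^ (j : ℕ)))
    (fun j : Fin (3 * k) => e i * (a0 ^ (3 * k - 1 - (j : ℕ)) * m i ^ (j : ℕ))) j)
    (A * a0 ^ (3 * k - 1)) hC (by
      intro i j
      rcases j with j | j
      · exact hent (c i) (hc i) (m i) (hm i) j
      · exact hent (e i) (he i) (m i) (hm i) j)
  have hbd : ∀ j, |t j| ≤ (6 * (k : ℤ) * A * a0 ^ (3 * k - 1)) ^ 2 := by
    intro j
    have h := ht2 j
    rwa [← mul_assoc] at h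
  have hcoef : ∀ (s : Fin (3 * k) → ℤ),
      (∀ j, |s j| ≤ (6 * (k : ℤ) * A * a0 ^ (3 * k - 1)) ^ 2) →
      ∀ j, |(sie1Pol (3 * k) s).coeff j| ≤ (6 * (k : ℤ) * A * a0 ^ (3 * k - 1)) ^ 2 := by
    intro s hs j
    rw [sie1Pol_coeff]
    split_ifs with h
    · exact hs _
    · rw [abs_zero]
      positivity
  refine ⟨sie1Pol (3 * k) (fun j => t (Sum.inl j)), sie1Pol (3 * k) (fun j => t (Sum.inr j)),
    ?_, sie1Pol_natDegree _ _, sie1Pol_natDegree _ _, hcoef _ fun j => hbd _,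
    hcoef _ fun j => hbd _, ?_⟩
  · by_contra hcon
    push Not at hcon
    apply ht0
    funext j
    rcases j with j | j
    · have h1 := congrArg (fun Q : ℤ[X] => Q.coeff (j : ℕ)) hcon.1
      simp only [sie1Pol_coeff, coeff_zero] at h1
      rw [dif_pos j.2] at h1
      exact h1
    · have h1 := congrArg (fun Q : ℤ[X] => Q.coeff (j : ℕ)) hcon.2
      simp only [sie1Pol_coeff, coeff_zero] at h1
      rw [dif_pos j.2] at h1
      exact h1
  · intro i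
    rw [sie1Pol_hom (3 * k) (by omega), sie1Pol_hom (3 * k) (by omega)]
    have h1 := congrFun ht1 i
    rw [Matrix.mulVec, dotProduct, Fintype.sum_sum_type] at h1
    simp only [Matrix.of_apply, Sum.elim_inl, Sum.elim_inr, Pi.zero_apply] at h1
    rw [Finset.mul_sum, Finset.mul_sum, ← h1]
    congr 1
    · apply Finset.sum_congr rfl
      intro j _
      ring
    · apply Finset.sum_congr rfl
      intro j _
      ring

end FD120
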