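import Pool.Agent.W_fd120a_h34.Num2

set_option autoImplicit false

namespace FD120

theorem size_int (l : ℝ) (hl : 10 ^ 12 ≤ l) (k : ℕ) (hk : k = 150) (K L a0 B : ℤ)
    (hK : 1 ≤ K) (hL : 1 ≤ L) (ha : 1 ≤ a0)
    (hB : 1 ≤ B) (hK' : (K : ℝ) ≤ 2 * Real.exp (0.49 * l))
    (hL1 : Real.exp (0.02 * l) ≤ 200 * (L : ℝ))
    (hL2 : (L : ℝ) ≤ Real.exp (0.02 * l)) (ha2 : (a0 : ℝ) ≤ 2 * Real.exp (0.0033 * l))
    (ha1 : Real.exp (0.0033 * l) ≤ a0) (hBa : a0 * B ≤ 4 * L) :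
    3 * (k : ℤ) * (1 + K) * (6 * (k : ℤ) * (2 * L * K)
      * a0 ^ (3 * k - 1)) ^ 2 * B ^ (3 * k - 1) < L ^ (4 * k) := by
  have h1 := size_log l K L a0 B hl (by exact_mod_cast hK) (by exact_mod_cast hL)
    (by exact_mod_cast ha) (by exact_mod_cast hB) hK' hL1 hL2 ha2 ha1
    (by
      have : (a0 : ℝ) * B ≤ 4 * L := by exact_mod_cast hBa
      linarith)
  subst hk
  have e3 : 3 * 150 - 1 = 449 := by norm_num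
  have e4 : 4 * 150 = 600 := by norm_num
  rw [e3, e4] at h1 ⊢
  have e5 : ((150 : ℕ) : ℤ) = 150 := by norm_num
  rw [e5]
  have h2 : ((3 * (150 : ℤ) * (1 + K) * (6 * (150 : ℤ) * (2 * L * K)
      * a0 ^ 449) ^ 2 * B ^ 449 : ℤ) : ℝ) < ((L ^ 600 : ℤ) : ℝ) := by
    simp only [Int.cast_mul, Int.cast_add, Int.cast_pow, Int.cast_ofNat, Int.cast_one]
    exact h1
  exact_mod_cast h2

theorem exists_Z (l : ℝ) (hl : 10 ^ 12 ≤ l) (k : ℕ) (hk : k = 150) (K L a0 : ℤ)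
    (hK : 1 ≤ K) (hL : 1 ≤ L) (ha : 1 ≤ a0)
    (hK' : (K : ℝ) ≤ 2 * Real.exp (0.49 * l))
    (hL2 : (L : ℝ) ≤ Real.exp (0.02 * l)) (ha2 : (a0 : ℝ) ≤ 2 * Real.exp (0.0033 * l)) :
    ∃ Z : ℕ, (2 * ((3 * k - 1 : ℕ) : ℤ) * (6 * (k : ℤ)
      * (2 * L * K) * a0 ^ (3 * k - 1)) ^ 2) ^ (2 * (3 * k - 1)) * a0 ^ (2 * (3 * k - 1)) ≤ (Z : ℤ)
      ∧ (Z : ℝ) ≤ Real.exp (4000 * l) := by
  have h1 := Z_log l K L a0 hl (by exact_mod_cast hK) (by exact_mod_cast hL)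
    (by exact_mod_cast ha) hK' hL2 ha2
  subst hk
  have e3 : 3 * 150 - 1 = 449 := by norm_num
  have e4 : 2 * 449 = 898 := by norm_num
  rw [e3, e4]
  have e5 : ((150 : ℕ) : ℤ) = 150 := by norm_num
  have e6 : ((449 : ℕ) : ℤ) = 449 := by norm_num
  rw [e5, e6]
  obtain ⟨Z, hZe⟩ : ∃ Z : ℕ, (Z : ℤ) = (2 * 449 * (6 * 150 * (2 * L * K) * a0 ^ 449) ^ 2) ^ 898
      * a0 ^ 898 := ⟨_, Int.toNat_of_nonneg (by positivity)⟩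
  refine ⟨Z, hZe.ge, ?_⟩
  refine le_trans (le_of_eq ?_) h1
  have h2 : ((Z : ℤ) : ℝ) = (((2 * 449 * (6 * 150 * (2 * L * K) * a0 ^ 449) ^ 2) ^ 898
      * a0 ^ 898 : ℤ) : ℝ) := by rw [hZe]
  simp only [Int.cast_mul, Int.cast_pow, Int.cast_ofNat, Int.cast_natCast] at h2
  exact h2

end FD120
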