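import Pool.Agent.W_fd120a_h34.FinR
import Pool.Agent.W_fd120a_h34.Siz
import Pool.Agent.W_fd120a_h34.Pex
import Pool.Agent.W_fd120a_h34.LowB
import Pool.Agent.W_fd120a_h34.Inj
import Pool.Agent.W_fd120a_h34.Num3

set_option autoImplicit false

open Finset
open scoped Classical

namespace FD120

/-- some elementary consequences of the size hypotheses -/
theorem step_sizes (l : ℝ) (N Q L : ℤ) (hl : 10 ^ 12 ≤ l) (hNl : (N : ℝ) = Real.exp l)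
    (hQ1 : Real.exp (0.51 * l) ≤ Q) (hQ2 : (Q : ℝ) ≤ 3 * Real.exp (0.51 * l))
    (hL1 : Real.exp (0.02 * l) ≤ 200 * (L : ℝ)) (hL2 : (L : ℝ) ≤ Real.exp (0.02 * l) / 50) :
    0 < Q ∧ 0 < N ∧ 1 ≤ L ∧ (Q : ℝ) ≤ Real.exp (0.51 * l) * Real.exp (1e-8 * l) ∧
    (N : ℝ) = Real.exp (0.51 * l) * Real.exp (0.49 * l) ∧ 1 ≤ Real.exp (0.49 * l) ∧
    (L : ℝ) ≤ Real.exp (0.02 * l) ∧ N ≤ Q ^ 2 ∧ 4 * Q ≤ N ∧ 16 * L ^ 2 ≤ Q := by
  have hXb := X_big l hl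
  have hE002 : (10 : ℝ) ^ 5 ≤ Real.exp (0.02 * l) := by
    have := Real.add_one_le_exp (0.02 * l); nlinarith
  have hE049 : (10 : ℝ) ^ 5 ≤ Real.exp (0.49 * l) := by
    have := Real.add_one_le_exp (0.49 * l); nlinarith
  have hQ0R : (0 : ℝ) < Q := lt_of_lt_of_le (Real.exp_pos _) hQ1
  have hN0R : (0 : ℝ) < N := by rw [hNl]; exact Real.exp_pos _
  have hLR : (1 : ℝ) ≤ L := by linarith
  have hQ2X : (Q : ℝ) ≤ Real.exp (0.51 * l) * Real.exp (1e-8 * l) := by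
    have := Real.exp_pos (0.51 * l)
    nlinarith
  have hNe : (N : ℝ) = Real.exp (0.51 * l) * Real.exp (0.49 * l) := by
    rw [hNl, ← Real.exp_add]; congr 1; ring
  have hL2' : (L : ℝ) ≤ Real.exp (0.02 * l) := by linarith
  refine ⟨by exact_mod_cast hQ0R, by exact_mod_cast hN0R, by exact_mod_cast hLR, hQ2X, hNe,
    by linarith, hL2', ?_, ?_, ?_⟩
  · have : (N : ℝ) ≤ (Q : ℝ) ^ 2 := by
      have h1 : Real.exp (0.51 * l) ^ 2 ≤ (Q : ℝ) ^ 2 := pow_le_pow_left₀ (Real.exp_pos _).le hQ1 2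
      have h2 : Real.exp (0.51 * l) ^ 2 = Real.exp (1.02 * l) := by
        rw [← Real.exp_nat_mul]; congr 1; push_cast; ring
      have h3 : Real.exp l ≤ Real.exp (1.02 * l) := by apply Real.exp_le_exp.2; linarith
      rw [hNl]; linarith
    exact_mod_cast this
  · have : 4 * (Q : ℝ) ≤ N := by
      rw [hNe]
      have h1 := Real.exp_pos (0.51 * l)
      nlinarith
    exact_mod_cast this
  · have h16L : 16 * (L : ℝ) ^ 2 ≤ Q := by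
      have h1 : (L : ℝ) ^ 2 ≤ Real.exp (0.02 * l) ^ 2 := pow_le_pow_left₀ (by linarith) hL2' 2
      have h2 : Real.exp (0.51 * l) = Real.exp (0.02 * l) ^ 2 * Real.exp (0.47 * l) := by
        rw [← Real.exp_nat_mul, ← Real.exp_add]; congr 1; push_cast; ring
      have h3 : (16 : ℝ) ≤ Real.exp (0.47 * l) := by
        have := Real.add_one_le_exp (0.47 * l); nlinarith
      have h4 : 0 < Real.exp (0.02 * l) ^ 2 := by positivity
      nlinarith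
    exact_mod_cast h16L

theorem four_aBL (a0 B L Q : ℤ) (hL : 1 ≤ L) (hBup : a0 * B ≤ 4 * L) (h16L : 16 * L ^ 2 ≤ Q) :
    2 * L ≤ Q ∧ 4 * a0 * B * L ≤ Q := by
  constructor
  · nlinarith
  · nlinarith

/-- The contradiction for one large `N`. -/
theorem main_step (l C : ℝ) (N Q L : ℤ) (hl : 10 ^ 12 ≤ l) (hNl : (N : ℝ) = Real.exp l)
    (hC0 : 0 < C)
    (hdivC : ∀ n : ℕ, 0 < n → (n.divisors.card : ℝ) ≤ C * (n : ℝ) ^ (1.25e-12 : ℝ))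
    (hC : C + 1 ≤ Real.exp (0.5e-8 * l))
    (hQ1 : Real.exp (0.51 * l) ≤ Q) (hQ2 : (Q : ℝ) ≤ 3 * Real.exp (0.51 * l))
    (hL1 : Real.exp (0.02 * l) ≤ 200 * (L : ℝ)) (hL2 : (L : ℝ) ≤ Real.exp (0.02 * l) / 50)
    (hPQ : (Q : ℝ) / Real.exp (1e-8 * l) ≤ ((PP Q).card : ℝ))
    (hPL : (L : ℝ) / Real.exp (1e-8 * l) ≤ ((PP L).card : ℝ))
    (res : ℤ → ℤ) (hSS : ((SS N Q res).card : ℝ) < Real.exp (0.9800026 * l)) : False := by
  obtain ⟨hQ0, hN0, hL, hQ2X, hNe, hE049, hL2', hNQ, h4QN, h16L⟩ :=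
    step_sizes l N Q L hl hNl hQ1 hQ2 hL1 hL2
  obtain ⟨a0, ha0P, ha1, ha2, ha2Z⟩ := exists_a0 l hl
  have ha0sq := a0_sq_le l L a0 hl hL1 ha2Z ha2
  have haL : a0 < L := by nlinarith
  obtain ⟨K, hK, hK1, hKu⟩ := exists_K l N Q hQ0 hN0 hNe hE049 hQ1
  have h5LK := five_LK l Q L K hQ1 hK1 hL2 hKu
  obtain ⟨B, hBlow, hBup, haB⟩ := exists_B L a0 ha2Z ha0sq
  obtain ⟨h3, h4⟩ := four_aBL a0 B L Q hL hBup h16L
  have hB1 : 1 ≤ B := by linarith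
  obtain ⟨A', B', hA'1, hB'1, hB'low, hB'up, hA'low, hA'up⟩ :=
    exists_AB Q L a0 hQ0 (by linarith) ha2Z ha0sq (by linarith)
  obtain ⟨T, hTlow, hTup⟩ := exists_T N Q hN0 hNQ
  obtain ⟨Z, hZe, hZR⟩ := exists_Z l hl 150 rfl K L a0 hK1 hL (by linarith) hKu hL2' ha2
  obtain ⟨τ, hτ1, hτup, hdiv⟩ := exists_tau l C hC0 hC hdivC Z hZR
  obtain ⟨Y0, hY0, hYR⟩ := exists_Y0 a0 B τ hτ1 ha2Z haB
  have hsize := size_int l hl 150 rfl K L a0 B hK1 hL (by linarith) hB1 hKu hL1 hL2' ha2 ha1 hBup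
  have hfin := fin_real 150 (by norm_num) N Q L a0 B K A' B' T Z τ Y0 res hQ0 (by linarith) hK
    h5LK ha0P ha2Z ha0sq haB h3 h4 (by linarith) (by linarith) hsize hZe hdiv hY0
  have e601 : ((4 * 150 + 1 : ℕ) : ℝ) = 601 := by norm_num
  have e602 : 2 * (4 * 150 + 1) = 2 * (600 + 1) := by norm_num
  rw [e601, e602] at hfin
  -- real versions
  have hQ0R : (0 : ℝ) < Q := by exact_mod_cast hQ0
  have hLR : (1 : ℝ) ≤ L := by exact_mod_cast hL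
  have ha2' : (2 : ℝ) ≤ a0 := by exact_mod_cast ha2Z
  have haLR : (a0 : ℝ) ^ 2 ≤ L := by exact_mod_cast ha0sq
  have hBR : (1 : ℝ) ≤ B := by exact_mod_cast hB1
  have hBlowR : 2 * (L : ℝ) + (a0 : ℝ) ^ 2 ≤ a0 * B := by exact_mod_cast hBlow
  have hBupR : (a0 : ℝ) * B ≤ 4 * L := by exact_mod_cast hBup
  have hA'R : (1 : ℝ) ≤ A' := by exact_mod_cast hA'1
  have hB'R : (1 : ℝ) ≤ B' := by exact_mod_cast hB'1
  have hA'upR : (a0 : ℝ) * A' ≤ 6 * Q := by exact_mod_cast hA'up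
  have hB'upR : (L : ℝ) * B' ≤ 3 * a0 * Q := by exact_mod_cast hB'up
  have hA'lowR : 2 * (Q : ℝ) + a0 * B' ≤ a0 * A' := by exact_mod_cast hA'low
  have hB'lowR : 2 * (a0 : ℝ) * Q ≤ L * B' := by exact_mod_cast hB'low
  have hPPQR : ((PP Q).card : ℝ) ≤ Q := by exact_mod_cast PP_card_le Q hQ0.le
  obtain ⟨hI2N, hIl⟩ := I_bounds l (Real.exp (1e-8 * l)) (Real.exp_pos _) N Q res hQ0 hNl h4QN hPQ
  have hT4 := T4 N Q T res hQ0 hN0 h4QN hTlow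
  have hS8 := S8 l hl _ _ hSS hIl
  have hA := lemA N Q T res hQ0 hNQ hT4 hS8
  have hAR : (II N Q res : ℝ) ^ 2 ≤ 4 * ((SS N Q res).card : ℝ) * ((EE N Q T res).card : ℝ) := by
    exact_mod_cast hA
  have hmul := mu_lower L a0 (Real.exp (1e-8 * l)) (Real.exp_pos _) hL ha2Z hPL
  have hmu0 : 0 < mu L a0 := lt_of_lt_of_le (by positivity) hmul
  have hLow := lower_sum Q L a0 hQ0 ha0P (by linarith) haL h3 hmu0 (EE N Q T res)
    (Finset.filter_subset _ _)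
  have hInj := sum_FF_le_Inc N Q L a0 T res A' B' B hQ0 ha0P (by linarith) haL hBlow hB'low hA'low
  have hJ : mu L a0 / 2 * ((EE N Q T res).card : ℝ)
      - ((PP Q).card : ℝ) * (mu L a0 * Q + 4 * (RR L a0) ^ 2) / (2 * mu L a0)
        ≤ ((Inc N Q L a0 T res A' B' B).card : ℝ) := by
    refine hLow.trans ?_
    exact_mod_cast hInj
  have hJlow := J_lower l Q L a0 (mu L a0) (RR L a0) ((EE N Q T res).card : ℝ) (II N Q res : ℝ)
    ((SS N Q res).card : ℝ) ((PP Q).card : ℝ) _ hl hQ1 hQ2X hLR hL2' haLR ha1 hmul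
    (RR_nonneg L a0 (by linarith)) (RR_le L a0 (by linarith) (by linarith)) hIl hSS
    (Nat.cast_nonneg _) (Nat.cast_nonneg _) hAR (Nat.cast_nonneg _) hPPQR hJ
  obtain ⟨hP1, hP2⟩ := P_bounds _ Q L a0 A' B' hQ0R (by linarith) (by linarith) hA'R hB'R rfl
    hA'upR hB'upR hA'lowR hB'lowR
  have hP0 : (0 : ℝ) < (2 * (A' : ℝ) + 1) * (2 * (B' : ℝ) + 1) := by positivity
  have hw1 : ((a0 : ℝ) - 1) * B ≤ 4 * L := by nlinarith
  have hw3 : (a0 : ℝ) * B / 2 ≤ ((a0 : ℝ) - 1) * B := by nlinarith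
  have hw2 : (L : ℝ) ≤ ((a0 : ℝ) - 1) * B := by
    have := sq_nonneg (a0 : ℝ)
    linarith
  have hTR : (T : ℝ) * Real.exp l ≤ 17 * (Q : ℝ) ^ 2 := by
    rw [← hNl]; exact_mod_cast hTup
  exact final_num l Q L a0 B _ _ _ _ τ ((2 * Y0 + 1 : ℕ) : ℝ) T (II N Q res : ℝ) hl hQ1 hQ2X hLR
    hL1 ha1 hBR hJlow hP0 hP1 hP2 rfl hw1 hw2 hw3 hτup hYR (Nat.cast_nonneg _) hTR
    (Nat.cast_nonneg _) hI2N hfin

end FD120
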