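import Pool.Agent.W_fd120a_h34.LemA

set_option autoImplicit false

open Finset
open scoped Classical

namespace FD120

/-- Two primes in `Ico`-type ranges: divisibility forces equality. -/
theorem tri_prime_eq {p q : ℤ} (hp : Prime p) (hq : Prime q) (hp0 : 0 < p) (hq0 : 0 < q)
    (h : p ∣ q) : p = q := by
  have h1 : Associated p q := hp.associated_of_dvd hq h
  rcases Int.associated_iff.mp h1 with h2 | h2
  · exact h2
  · omega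

/-- small multiples vanish -/
theorem tri_small {p x b : ℤ} (hp : b ≤ p) (h : p ∣ x) (hx : |x| < b) : x = 0 := by
  by_contra hne
  have h1 : |p| ≤ |x| := by
    rw [← abs_dvd_abs] at h
    exact Int.le_of_dvd (abs_pos.2 hne) h
  have h2 : p ≤ |p| := le_abs_self p
  omega

/-- one relation: the basic identities -/
theorem tri_step (Q L a0 : ℤ) (hQ : 0 < Q) (ha0 : Prime a0) (h1 : 1 < a0) (h2 : a0 < L)
    (h3 : 2 * L ≤ Q) (α β α₁ β₁ m m₁ a b c d : ℤ) (ha : 1 ≤ a ∧ a < a0) (hc : 1 ≤ c ∧ c < a0)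
    (hm : 1 ≤ m ∧ m < a0) (hm₁ : 1 ≤ m₁ ∧ m₁ < a0)
    (hl : a0 * b - m * a ∈ PP L) (hk : a0 * b - m * a = a0 * d - m₁ * c)
    (hp : a0 * α + m * β ∈ PP Q)
    (ep : a0 * α + m * β = a0 * α₁ + m₁ * β₁)
    (eq : a * α + b * β = c * α₁ + d * β₁) :
    α = α₁ ∧ β = β₁ ∧ m = m₁ ∧ a = c ∧ b = d := by
  obtain ⟨l1, l2, l3⟩ := PP_mem hl
  obtain ⟨p1, p2, p3⟩ := PP_mem hp
  obtain ⟨ℓ, hℓ⟩ : ∃ ℓ, ℓ = a0 * b - m * a := ⟨_, rfl⟩
  obtain ⟨p, hpe⟩ : ∃ p, p = a0 * α + m * β := ⟨_, rfl⟩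
  rw [← hℓ] at l1 l2 l3 hk
  rw [← hpe] at p1 p2 p3 ep
  have e1 : β * ℓ = a0 * (a * α + b * β) - a * p := by rw [hℓ, hpe]; ring
  have e2 : β₁ * ℓ = a0 * (a * α + b * β) - c * p := by rw [hk, ep, eq]; ring
  have hac : a = c := by
    have h4 : ℓ ∣ (c - a) * p := ⟨β - β₁, by linear_combination e2 - e1⟩
    rcases l3.dvd_or_dvd h4 with h5 | h5
    · have h6 := tri_small l1 h5 (by rw [abs_lt]; constructor <;> omega)
      omega
    · have h6 := tri_prime_eq l3 p3 (by omega) (by omega) h5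
      omega
  subst hac
  have hℓ0 : ℓ ≠ 0 := by omega
  have hβ : β = β₁ := mul_right_cancel₀ hℓ0 (e1.trans e2.symm)
  subst hβ
  have hmm : m = m₁ := by
    have h4 : a0 ∣ (m - m₁) * a := ⟨b - d, by linear_combination hℓ - hk⟩
    rcases ha0.dvd_or_dvd h4 with h5 | h5
    · have h6 := tri_small le_rfl h5 (by rw [abs_lt]; constructor <;> omega)
      omega
    · have h6 := tri_small le_rfl h5 (by rw [abs_lt]; constructor <;> omega)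
      omega
  subst hmm
  have ha00 : a0 ≠ 0 := by omega
  refine ⟨?_, rfl, rfl, rfl, ?_⟩
  · exact mul_left_cancel₀ ha00 (by linear_combination ep - hpe)
  · exact mul_left_cancel₀ ha00 (by linear_combination hk - hℓ)

/-- `(p, q, q')` determines `(π, m, w, w')`. See the project notes: with
`x = w₁' w₂ - w₁ w₂'`, `ℓ = a0 w₂ - m w₁`, `ℓ' = a0 w₂' - m w₁'` one has `x p = ℓ q' - ℓ' q`,
the cross product of two such relations has entries `< 4 a0 B L ≤ Q`, hence they are proportional,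
`x ≠ 0`, `ℓ ≠ ℓ'` (because `|q' - q| < p`), so `ℓ, ℓ', x` are determined; `ℓ ∣ a0 q - w₁ p`
determines `w₁`, and then `m`, `w₂`, `β`, `α`. -/
theorem tri_inj (Q L a0 B : ℤ) (hQ : 0 < Q) (ha0 : Prime a0) (h1 : 1 < a0) (h2 : a0 < L)
    (hB : 1 ≤ B) (h3 : 2 * L ≤ Q) (h4 : 4 * a0 * B * L ≤ Q)
    (π π₁ : ℤ × ℤ) (m m₁ : ℤ) (w w' v v' : ℤ × ℤ)
    (hm : m ∈ Finset.Ico 1 a0) (hm₁ : m₁ ∈ Finset.Ico 1 a0)
    (hw : w ∈ WW a0 B) (hw' : w' ∈ WW a0 B) (hv : v ∈ WW a0 B) (hv' : v' ∈ WW a0 B)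
    (hne : w ≠ w') (hne' : v ≠ v')
    (hl : a0 * w.2 - m * w.1 ∈ PP L) (hl' : a0 * w'.2 - m * w'.1 ∈ PP L)
    (hk : a0 * v.2 - m₁ * v.1 ∈ PP L) (hk' : a0 * v'.2 - m₁ * v'.1 ∈ PP L)
    (hp : a0 * π.1 + m * π.2 ∈ PP Q) (hq : w.1 * π.1 + w.2 * π.2 ∈ PP Q)
    (hq' : w'.1 * π.1 + w'.2 * π.2 ∈ PP Q)
    (hpq : a0 * π.1 + m * π.2 ≠ w.1 * π.1 + w.2 * π.2)
    (hpq' : a0 * π.1 + m * π.2 ≠ w'.1 * π.1 + w'.2 * π.2)
    (ep : a0 * π.1 + m * π.2 = a0 * π₁.1 + m₁ * π₁.2)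
    (eq : w.1 * π.1 + w.2 * π.2 = v.1 * π₁.1 + v.2 * π₁.2)
    (eq' : w'.1 * π.1 + w'.2 * π.2 = v'.1 * π₁.1 + v'.2 * π₁.2) :
    π = π₁ ∧ m = m₁ ∧ w = v ∧ w' = v' := by
  obtain ⟨α, β⟩ := π
  obtain ⟨α₁, β₁⟩ := π₁
  obtain ⟨a, b⟩ := w
  obtain ⟨a', b'⟩ := w'
  obtain ⟨c, d⟩ := v
  obtain ⟨c', d'⟩ := v'
  unfold WW at hw hw' hv hv'
  rw [mem_product, mem_Ico, mem_Icc] at hw hw' hv hv'
  rw [mem_Ico] at hm hm₁
  simp only at *
  obtain ⟨l1, l2, l3⟩ := PP_mem hl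
  obtain ⟨l1', l2', l3'⟩ := PP_mem hl'
  obtain ⟨k1, k2, k3⟩ := PP_mem hk
  obtain ⟨k1', k2', k3'⟩ := PP_mem hk'
  obtain ⟨p1, p2, p3⟩ := PP_mem hp
  obtain ⟨q1, q2, q3⟩ := PP_mem hq
  obtain ⟨q1', q2', q3'⟩ := PP_mem hq'
  obtain ⟨ℓ, hℓ⟩ : ∃ ℓ, ℓ = a0 * b - m * a := ⟨_, rfl⟩
  obtain ⟨ℓ', hℓ'⟩ : ∃ ℓ', ℓ' = a0 * b' - m * a' := ⟨_, rfl⟩
  obtain ⟨k, hke⟩ : ∃ k, k = a0 * d - m₁ * c := ⟨_, rfl⟩
  obtain ⟨k', hke'⟩ : ∃ k', k' = a0 * d' - m₁ * c' := ⟨_, rfl⟩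
  obtain ⟨p, hpe⟩ : ∃ p, p = a0 * α + m * β := ⟨_, rfl⟩
  obtain ⟨q, hqe⟩ : ∃ q, q = a * α + b * β := ⟨_, rfl⟩
  obtain ⟨q', hqe'⟩ : ∃ q', q' = a' * α + b' * β := ⟨_, rfl⟩
  rw [← hℓ] at l1 l2 l3
  rw [← hℓ'] at l1' l2' l3'
  rw [← hke] at k1 k2 k3
  rw [← hke'] at k1' k2' k3'
  rw [← hpe] at p1 p2 p3 hpq hpq'
  rw [← hqe] at q1 q2 q3 hpq
  rw [← hqe'] at q1' q2' q3' hpq'
  obtain ⟨x, hx⟩ : ∃ x, x = a' * b - a * b' := ⟨_, rfl⟩
  obtain ⟨y, hy⟩ : ∃ y, y = c' * d - c * d' := ⟨_, rfl⟩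
  have ex : x * p = ℓ * q' - ℓ' * q := by rw [hx, hpe, hqe, hqe', hℓ, hℓ']; ring
  have ey : y * p = k * q' - k' * q := by
    have e1 : p = a0 * α₁ + m₁ * β₁ := by rw [hpe, ep]
    have e2 : q = c * α₁ + d * β₁ := by rw [hqe, eq]
    have e3 : q' = c' * α₁ + d' * β₁ := by rw [hqe', eq']
    rw [hy, e1, e2, e3, hke, hke']; ring
  have bnd : ∀ s t s' t' : ℤ, (1 ≤ s ∧ s < a0) → (1 ≤ t ∧ t ≤ B) → (1 ≤ s' ∧ s' < a0) →
      (1 ≤ t' ∧ t' ≤ B) → |s' * t - s * t'| < a0 * B := by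
    intro s t s' t' hs ht hs' ht'
    have i1 : s' * t < a0 * B := by nlinarith
    have i2 : s * t' < a0 * B := by nlinarith
    have i3 : 0 < s' * t := by nlinarith
    have i4 : 0 < s * t' := by nlinarith
    rw [abs_lt]
    constructor <;> linarith
  have bx : |x| < a0 * B := by rw [hx]; exact bnd a b a' b' hw.1 hw.2 hw'.1 hw'.2
  have by' : |y| < a0 * B := by rw [hy]; exact bnd c d c' d' hv.1 hv.2 hv'.1 hv'.2
  -- the two relations are proportional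
  have hxk : x * k - y * ℓ = 0 := by
    have h5 : q ∣ (x * k - y * ℓ) * p :=
      ⟨ℓ * k' - k * ℓ', by linear_combination k * ex - ℓ * ey⟩
    rcases q3.dvd_or_dvd h5 with h6 | h6
    · refine tri_small q1 h6 ?_
      rw [abs_lt] at bx by' ⊢
      constructor
      · nlinarith
      · nlinarith
    · exact absurd (tri_prime_eq q3 p3 (by omega) (by omega) h6).symm hpq
  have hq0 : q ≠ 0 := by omega
  have hlk : ℓ * k' = k * ℓ' := by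
    have h5 : q * (ℓ * k' - k * ℓ') = 0 := by linear_combination p * hxk - k * ex + ℓ * ey
    rcases mul_eq_zero.mp h5 with h6 | h6
    · exact absurd h6 hq0
    · linarith
  have hll : ℓ ≠ ℓ' := by
    intro h5
    have h6 : p ∣ ℓ * (q' - q) := ⟨x, by rw [← h5] at ex; linear_combination -ex⟩
    have h7 : q' - q = 0 := by
      rcases p3.dvd_or_dvd h6 with h8 | h8
      · have h9 := tri_prime_eq p3 l3 (by omega) (by omega) h8
        omega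
      · exact tri_small p1 h8 (by rw [abs_lt]; constructor <;> omega)
    have e1 : β * ℓ = a0 * q - a * p := by rw [hℓ, hpe, hqe]; ring
    have e2 : β * ℓ' = a0 * q' - a' * p := by rw [hℓ', hpe, hqe']; ring
    have h8 : (a' - a) * p = 0 := by
      rw [← h5] at e2
      linear_combination e2 - e1 + a0 * h7
    have h9 : a = a' := by
      rcases mul_eq_zero.mp h8 with h10 | h10
      · omega
      · omega
    have h10 : b = b' := by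
      have ha00 : a0 ≠ 0 := by omega
      refine mul_left_cancel₀ ha00 ?_
      rw [← h9] at hℓ'
      linear_combination h5 - hℓ + hℓ'
    exact hne (by rw [h9, h10])
  have hℓk : ℓ = k := by
    have h5 : ℓ ∣ k * ℓ' := ⟨k', hlk.symm⟩
    rcases l3.dvd_or_dvd h5 with h6 | h6
    · exact tri_prime_eq l3 k3 (by omega) (by omega) h6
    · exact absurd (tri_prime_eq l3 l3' (by omega) (by omega) h6) hll
  have hℓk' : ℓ' = k' := by
    rw [← hℓk] at hlk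
    have hℓ0 : ℓ ≠ 0 := by omega
    exact (mul_left_cancel₀ hℓ0 hlk).symm
  obtain ⟨r1, r2, r3, r4, r5⟩ := tri_step Q L a0 hQ ha0 h1 h2 h3 α β α₁ β₁ m m₁ a b c d
    hw.1 hv.1 hm hm₁ hl (by rw [← hℓ, ← hke, hℓk]) hp ep eq
  obtain ⟨s1, s2, s3, s4, s5⟩ := tri_step Q L a0 hQ ha0 h1 h2 h3 α β α₁ β₁ m m₁ a' b' c' d'
    hw'.1 hv'.1 hm hm₁ hl' (by rw [← hℓ', ← hke', hℓk']) hp ep eq'
  exact ⟨by rw [r1, r2], r3, by rw [r4, r5], by rw [s4, s5]⟩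

end FD120
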